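import Pool.Agent.P.MP_9c97e9_nt.Grp

/-! From the 2-descent to the vanishing of the 2-torsion of the Tate-Shafarevich group. -/

namespace Pool.Agent.P.MP_9c97e9_nt

open WeierstrassCurve WeierstrassCurve.Affine Classical Topology

variable {k : Type} [Field k] {W : WeierstrassCurve ℤ}

noncomputable abbrev am (k : Type) [Field k] : k →+* AlgebraicClosure k := algebraMap k _

theorem emb_alg (K : Type) [Field K] [Algebra k K] (x : k) :
    emb k K (algebraMap k _ x) = algebraMap K _ (algebraMap k K x) :=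
  (IsAlgClosed.lift : AlgebraicClosure k →ₐ[k] AlgebraicClosure K).commutes x

theorem exists_restrict {K : Type} [Field K] [Algebra k K] (σ : Gal K) :
    ∃ τ : Gal k, ∀ x, emb k K (τ x) = σ (emb k K x) := by
  let := (emb k K).toAlgebra
  have : IsScalarTower k (AlgebraicClosure k) (AlgebraicClosure K) :=
    .of_algebraMap_eq fun x => (emb_alg K x).symm
  exact ⟨(σ.restrictScalars k).restrictNormal _, (σ.restrictScalars k).restrictNormal_commutes _⟩

theorem pm_mul (σ τ : Gal k) (P : Pt W (AlgebraicClosure k)) :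
    pm W (K := AlgebraicClosure k) (σ * τ : Gal k) P =
      pm W (K := AlgebraicClosure k) σ (pm W (K := AlgebraicClosure k) τ P) := by
  cases P <;> rfl

theorem pm_one (P : Pt W (AlgebraicClosure k)) : pm W (1 : Gal k) P = P := by
  cases P <;> rfl

theorem pm_compat {K : Type} [Field K] [Algebra k K] {σ : Gal K} {τ : Gal k}
    (h : ∀ x, emb k K (τ x) = σ (emb k K x)) (P : Pt W (AlgebraicClosure k)) :
    pm W (emb k K) (pm W τ P) = pm W σ (pm W (emb k K) P) := by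
  rw [pm_pm, pm_pm]
  congr 2
  exact RingHom.ext h

theorem stab_nhds (P : Pt W (AlgebraicClosure k)) : {σ : Gal k | pm W σ P = P} ∈ 𝓝 1 := by
  rcases P with _ | ⟨x, y, h⟩
  · exact Filter.univ_mem' fun _ => rfl
  filter_upwards [(stabilizer_isOpen_of_isIntegral (K := k) x).mem_nhds (one_mem _),
    (stabilizer_isOpen_of_isIntegral (K := k) y).mem_nhds (one_mem _)] with σ h1 h2
  exact (Point.some.injEq ..).mpr ⟨h1, h2⟩

variable {e₁ e₂ e₃ : k}

theorem Split.gal (h : Split W e₁ e₂ e₃) {T : Pt W (AlgebraicClosure k)} (hT : T + T = 0)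
    (σ : Gal k) : pm W σ T = T := by
  have h' := h.map (algebraMap k (AlgebraicClosure k))
  rcases two_torsion h' hT with rfl | h1 | h1 | h1
  · rfl
  all_goals exact Is.unique h' (by simpa using h1.map (K := AlgebraicClosure k) σ) h1

theorem UU_gal (σ : Gal k) (P : Pt W (AlgebraicClosure k)) :
    UU (algebraMap k _ e₁) (algebraMap k _ e₂) (algebraMap k _ e₃) (pm W σ P) =
      σ (UU (algebraMap k _ e₁) (algebraMap k _ e₂) (algebraMap k _ e₃) P) := by
  simpa using UU_map (e₁ := algebraMap k _ e₁) (e₂ := algebraMap k _ e₂)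
    (e₃ := algebraMap k _ e₃) (σ : AlgebraicClosure k →+* AlgebraicClosure k) P

theorem sg_cast {F : Type} [Field F] (h : (2 : F) ≠ 0) {L : Type} [Field L] {a b : L} {S T : Pt W L}
    (e : (sg a S : F) * sg b T = 1) : sg a S = sg b T := by
  unfold sg at e ⊢
  split_ifs at e ⊢ <;> simp only [Int.reduceNeg, Int.cast_neg, Int.cast_one] at e <;>
    first | rfl | exact absurd (by linear_combination -e) h

variable [CharZero k]

theorem of_fixed {x : AlgebraicClosure k} (h : ∀ σ : Gal k, σ x = x) : ∃ y, algebraMap k _ y = x :=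
  (InfiniteGalois.mem_range_algebraMap_iff_fixed x).2 h

theorem kummer {χ : Gal k → ℤ} (hm : ∀ σ τ, χ (σ * τ) = χ σ * χ τ) (hs : ∀ σ, χ σ * χ σ = 1)
    (hn : {σ | χ σ = 1} ∈ 𝓝 1) : ∃ (α : AlgebraicClosure k) (d : k), d ≠ 0 ∧
      α ^ 2 = algebraMap k _ d ∧ ∀ σ : Gal k, σ α = χ σ * α := by
  suffices ∃ α : AlgebraicClosure k, α ≠ 0 ∧ ∀ σ : Gal k, σ α = χ σ * α by
    obtain ⟨α, h0, h⟩ := this
    obtain ⟨d, hd⟩ := of_fixed (x := α ^ 2) fun σ => by
      rw [map_pow, h, mul_pow, sq (χ σ : AlgebraicClosure k), ← Int.cast_mul, hs, Int.cast_one,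
        one_mul]
    exact ⟨α, d, fun e => h0 (by simpa [e, eq_comm] using hd), hd.symm, h⟩
  by_cases h0 : ∀ σ, χ σ = 1
  · exact ⟨1, one_ne_zero, fun σ => by simp [h0]⟩
  obtain ⟨ρ, hρ⟩ := not_forall.1 h0
  have h1 : χ 1 = 1 := (mem_of_mem_nhds hn :)
  have hi : ∀ σ, χ σ⁻¹ = χ σ := fun σ => by
    have := hm σ σ⁻¹
    rw [mul_inv_cancel, h1] at this
    linear_combination -χ σ⁻¹ * hs σ - χ σ * this
  let H : Subgroup (Gal k) :=
    { carrier := {σ | χ σ = 1}
      mul_mem' := fun {a b} (ha : χ a = 1) (hb : χ b = 1) => show χ _ = 1 by rw [hm, ha, hb, one_mul]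
      one_mem' := h1
      inv_mem' := fun {a} ha => (hi a).trans ha }
  have hc := InfiniteGalois.fixingSubgroup_fixedField
    ⟨H, H.isClosed_of_isOpen (H.isOpen_of_mem_nhds hn)⟩
  have h2 : ρ ∉ (IntermediateField.fixedField H).fixingSubgroup := fun e => hρ (hc.le e)
  rw [IntermediateField.mem_fixingSubgroup_iff] at h2
  push Not at h2
  obtain ⟨a, ha, h3⟩ := h2
  have h4 : ∀ σ : Gal k, χ σ = 1 → σ a = a := (IntermediateField.mem_fixedField_iff H a).1 ha
  refine ⟨a - ρ a, sub_ne_zero.2 h3.symm, fun σ => ?_⟩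
  have h5 : χ ρ = -1 := (Int.eq_one_or_neg_one_of_mul_eq_one (hs ρ)).resolve_left hρ
  rcases Int.eq_one_or_neg_one_of_mul_eq_one (hs σ) with h | h
  · have : σ (ρ a) = ρ a := by
      simpa [eq_comm, AlgEquiv.eq_symm_apply] using
        congrArg ρ (h4 (ρ⁻¹ * (σ * ρ)) (by rw [hm, hm, hi, h, h5]; rfl))
    simp [h, h4 σ h, this]
  · have e1 : σ (ρ a) = a := h4 (σ * ρ) (by rw [hm, h, h5]; rfl)
    have e2 : σ a = ρ a := by
      simpa using congrArg ρ (h4 (ρ⁻¹ * σ) (by rw [hm, hi, h, h5]; rfl))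
    simp [h, e1, e2]

omit [CharZero k] in
/-- A locally trivial homomorphism to the points of order two gives a point on the covering. -/
theorem loc_of_triv (h : Split W e₁ e₂ e₃) {c : Gal k → Pt W (AlgebraicClosure k)}
    (hc : ∀ σ, c σ + c σ = 0) {α β : AlgebraicClosure k} {d₁ d₂ : k} (h1 : d₁ ≠ 0) (h2 : d₂ ≠ 0)
    (hα : α ^ 2 = algebraMap k _ d₁) (hβ : β ^ 2 = algebraMap k _ d₂)
    (gα : ∀ σ : Gal k, σ α = sg (algebraMap k _ e₁) (c σ) * α)
    (gβ : ∀ σ : Gal k, σ β = sg (algebraMap k _ e₂) (c σ) * β)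
    (K : Type) [Field K] [CharZero K] [Algebra k K] (P : Pt W (AlgebraicClosure K))
    (hP : ∀ (σ : Gal K) (τ : Gal k), (∀ x, emb k K (τ x) = σ (emb k K x)) →
      pm W (emb k K) (c τ) = pm W σ P - P) :
    Loc K (algebraMap k K e₁) (algebraMap k K e₂) (algebraMap k K e₃) (algebraMap k K d₁)
      (algebraMap k K d₂) := by
  have hK := h.map (algebraMap k K)
  have inj := (algebraMap K (AlgebraicClosure K)).injective
  have hα' := congrArg (emb k K) hα
  have hβ' := congrArg (emb k K) hβ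
  rw [map_pow, emb_alg] at hα' hβ'
  by_cases h0 : P + P = 0
  · have key : ∀ {γ : AlgebraicClosure k} {e : AlgebraicClosure k} {d : K},
        emb k K γ ^ 2 = algebraMap K _ d → (∀ σ : Gal k, σ γ = sg e (c σ) * γ) → IsSquare d :=
      fun {γ e d} hγ gγ => by
        obtain ⟨y, hy⟩ := of_fixed (k := K) (x := emb k K γ) fun σ => by
          obtain ⟨τ, hτ⟩ := exists_restrict (k := k) σ
          have := hP σ τ hτ
          rw [hK.gal h0, sub_self, map_eq_zero_iff _ (pm_injective _)] at this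
          rw [← hτ, gγ, this, sg_zero, Int.cast_one, one_mul]
        exact ⟨y, inj (by rw [← hγ, map_mul, hy, sq])⟩
    exact .inl ⟨key hα' gα, key hβ' gβ⟩
  obtain ⟨x, η, hx⟩ := (zero_or_is _).resolve_left h0
  have h3 : ∀ (σ : Gal K) (τ : Gal k), (∀ x, emb k K (τ x) = σ (emb k K x)) →
      pm W (emb k K) (c τ) + pm W (emb k K) (c τ) = 0 ∧ pm W σ P = P + pm W (emb k K) (c τ) :=
    fun σ τ hτ => ⟨by rw [← map_add, hc, map_zero], by rw [hP σ τ hτ, add_sub_cancel]⟩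
  obtain ⟨x, rfl⟩ := of_fixed (k := K) (x := x) fun σ => by
    obtain ⟨τ, hτ⟩ := exists_restrict (k := k) σ
    obtain ⟨h4, h5⟩ := h3 σ τ hτ
    have := hx.map (K := AlgebraicClosure K) σ
    rw [map_add, h5, add_add_add_comm, h4, add_zero] at this
    exact (this.inj hx).1
  have key : ∀ {a b e : k} {γ : AlgebraicClosure k} {d : K}, Split W a b e → d ≠ 0 →
      emb k K γ ^ 2 = algebraMap K _ d → (∀ σ : Gal k, σ γ = sg (algebraMap k _ a) (c σ) * γ) →
      ∃ w, x - algebraMap k K a = d * w ^ 2 := fun {a b e γ d} hs hd hγ gγ => by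
    have hs' := (hs.map (algebraMap k K)).map (algebraMap K (AlgebraicClosure K))
    have h6 : emb k K γ ≠ 0 := fun e => hd (inj (by simpa [e, eq_comm] using hγ))
    obtain ⟨w, hw⟩ := of_fixed (k := K) (x := UU (algebraMap K _ (algebraMap k K a))
        (algebraMap K _ (algebraMap k K b)) (algebraMap K _ (algebraMap k K e)) P / emb k K γ)
      fun σ => by
        obtain ⟨τ, hτ⟩ := exists_restrict (k := k) σ
        obtain ⟨h4, h5⟩ := h3 σ τ hτ
        rw [map_div₀, ← UU_gal, h5, UU_add hs' h4 h0, ← hτ, gγ, map_mul, map_intCast, ← emb_alg,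
          sg_map, mul_div_mul_left]
        exact Int.cast_ne_zero.2 (left_ne_zero_of_mul_eq_one (sg_sq _ _))
    refine ⟨w, inj ?_⟩
    rw [map_sub, UU_sq hs' hx, map_mul, map_pow, hw, ← hγ]
    field_simp
  have n1 := (map_ne_zero (algebraMap k K)).2 h1
  have n2 := (map_ne_zero (algebraMap k K)).2 h2
  obtain ⟨w₁, e1⟩ := key h n1 hα' gα
  obtain ⟨w₂, e2⟩ := key h.swap n2 hβ' gβ
  obtain ⟨w₃, e3⟩ := key (γ := α * β) h.swap'.swap (mul_ne_zero n1 n2)
    (by rw [map_mul, mul_pow, hα', hβ', map_mul]) fun σ => by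
      rw [map_mul, gα, gβ, sg_prod (h.map _) (hc σ)]
      push_cast
      ring
  exact .inr ⟨x, w₁, w₂, w₃, e1, e2, e3⟩

omit [CharZero k] in
/-- The homomorphism attached to a rational point of order two is a coboundary. -/
theorem cob_of_sq (h : Split W e₁ e₂ e₃) {c : Gal k → Pt W (AlgebraicClosure k)}
    (hc : ∀ σ, c σ + c σ = 0) {β γ : AlgebraicClosure k} {d₂ d₃ : k} (h2 : d₂ ≠ 0) (h3 : d₃ ≠ 0)
    (hβ : β ^ 2 = algebraMap k _ d₂) (hγ : γ ^ 2 = algebraMap k _ d₃)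
    (gβ : ∀ σ : Gal k, σ β = sg (algebraMap k _ e₂) (c σ) * β)
    (gγ : ∀ σ : Gal k, σ γ = sg (algebraMap k _ e₃) (c σ) * γ)
    (s2 : IsSquare (d₂ * (e₁ - e₂))) (s3 : IsSquare (d₃ * (e₁ - e₃))) :
    ∃ R, ∀ σ : Gal k, c σ = pm W σ R - R := by
  have h' := h.map (algebraMap k (AlgebraicClosure k))
  obtain ⟨T, hT⟩ := h'.exists_is (x := algebraMap k _ e₁) (η := 0) (by simp)
  have hT2 : T + T = 0 := hT.add_eq_zero h' (by simpa using hT)
  obtain ⟨R, rfl⟩ := exists_half h' T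
  refine ⟨R, fun σ => ?_⟩
  have h4 : pm W σ R - R + (pm W σ R - R) = 0 := by
    rw [sub_add_sub_comm, ← map_add, h.gal hT2, sub_self]
  have key : ∀ {a b e d : k} {δ : AlgebraicClosure k}, Split W a b e → d ≠ 0 → e₁ - a ≠ 0 →
      δ ^ 2 = algebraMap k _ d → σ δ = sg (algebraMap k _ a) (c σ) * δ → IsSquare (d * (e₁ - a)) →
      sg (algebraMap k _ a) (c σ) = sg (algebraMap k _ a) (pm W σ R - R) :=
    fun {a b e d δ} hs hd ha hδ gδ ⟨y, hy⟩ => by
      have hs' := hs.map (algebraMap k (AlgebraicClosure k))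
      have h5 := UU_add hs' h4 hT.ne_zero
      rw [add_sub_cancel, UU_gal] at h5
      have h6 := UU_sq hs' hT
      generalize UU _ _ _ R = u at h5 h6
      have h7 : (δ * u) ^ 2 = algebraMap k _ y ^ 2 := by
        rw [mul_pow, hδ, ← h6, ← map_sub, ← map_mul, hy, map_mul, sq]
      have h8 : δ * u ≠ 0 := fun e => mul_ne_zero hd ha (by simpa [e, hy] using h7.symm)
      have h9 : σ (δ * u) = δ * u := by
        rcases sq_eq_sq_iff_eq_or_eq_neg.1 h7 with e | e <;> simp [e]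
      rw [map_mul, gδ, h5] at h9
      exact sg_cast hs'.two (mul_right_cancel₀ h8 (by linear_combination h9))
  exact sg_inj h'.swap.swap' (hc σ) h4 (key h.swap h2 h.n12 hβ (gβ σ) s2)
    (key h.swap'.swap h3 h.n13 hγ (gγ σ) s3)

theorem sha_two {e₁ e₂ e₃ : ℚ} (h : Split W e₁ e₂ e₃)
    (H : ∀ d₁ d₂ : ℚ, d₁ ≠ 0 → d₂ ≠ 0 → Loc ℝ e₁ e₂ e₃ d₁ d₂ →
      (∀ (p : ℕ) [Fact p.Prime], Loc ℚ_[p] e₁ e₂ e₃ d₁ d₂) → (IsSquare d₁ ∧ IsSquare d₂) ∨
      (IsSquare (d₂ * (e₁ - e₂)) ∧ IsSquare (d₁ * d₂ * (e₁ - e₃))) ∨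
      (IsSquare (d₁ * (e₂ - e₁)) ∧ IsSquare (d₁ * d₂ * (e₂ - e₃))) ∨
      (IsSquare (d₁ * (e₃ - e₁)) ∧ IsSquare (d₂ * (e₃ - e₂)))) (x : Sha W) (hx : x + x = 0) :
    x = 0 := by
  obtain ⟨⟨c, c1, c2, c3, c4⟩, rfl⟩ := QuotientAddGroup.mk_surjective x
  obtain ⟨Q', hQ'⟩ := (QuotientAddGroup.eq_zero_iff _).1 hx
  have h' := h.map (am ℚ)
  obtain ⟨Q, rfl⟩ := exists_half h' Q'
  let c' : Gal ℚ → Pt W Qb := fun σ => c σ - (pm W σ Q - Q)
  have hc : ∀ σ, c' σ + c' σ = 0 := fun σ => by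
    have : pm W σ (Q + Q) - (Q + Q) = c σ + c σ := congrFun hQ' σ
    rw [sub_add_sub_comm, ← this, map_add]
    abel
  have hm : ∀ σ τ, c' (σ * τ) = c' σ + c' τ := fun σ τ => by
    rw [← h.gal (hc τ) σ]
    simp only [c', c2, pm_mul, map_sub]
    abel
  have hn : {σ | c' σ = 0} ∈ 𝓝 1 := by
    have h1 : c 1 = 0 := by simpa [pm_one] using c2 1 1
    filter_upwards [(c1.isOpen_fiber 0).mem_nhds h1, stab_nhds Q] with σ h2 h3
    simp only [c', h2, h3, sub_self]
  have hk := fun {a b e : ℚ} (hs : Split W a b e) =>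
    kummer (χ := fun σ => sg (am ℚ a) (c' σ))
      (fun σ τ => by rw [hm, sg_add (hs.map _) (hc σ) (hc τ)]) (fun σ => sg_sq _ _)
      (Filter.mem_of_superset hn fun σ (e : c' σ = 0) => show sg _ _ = 1 by rw [e, sg_zero])
  obtain ⟨α, d₁, h1, hα, gα⟩ := hk h
  obtain ⟨β, d₂, h2, hβ, gβ⟩ := hk h.swap
  have hl : ∀ (K : Type) [Field K] [CharZero K], LocTriv W K c → Loc K e₁ e₂ e₃ d₁ d₂ :=
    fun K _ _ ⟨P, hP⟩ => loc_of_triv h hc h1 h2 hα hβ gα gβ K (P - pm W (emb ℚ K) Q)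
      fun σ τ hτ => by
        simp only [c', map_sub, hP σ τ hτ, pm_compat hτ]
        abel
  have hγ : (α * β) ^ 2 = am ℚ (d₁ * d₂) := by rw [mul_pow, hα, hβ, map_mul]
  have gγ : ∀ σ : Gal ℚ, σ (α * β) = sg (am ℚ e₃) (c' σ) * (α * β) := fun σ => by
    rw [map_mul, gα, gβ, sg_prod h' (hc σ)]
    push_cast
    ring
  have h3 := mul_ne_zero h1 h2
  obtain ⟨R, hR⟩ : ∃ R, ∀ σ : Gal ℚ, c' σ = pm W σ R - R := by
    rcases H d₁ d₂ h1 h2 (hl ℝ c3) fun p _ => hl _ (c4 p) with s | s | s | s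
    · have key : ∀ {a d : ℚ} {δ : Qb} {σ : Gal ℚ}, d ≠ 0 → δ ^ 2 = am ℚ d →
          σ δ = sg (am ℚ a) (c' σ) * δ → IsSquare d →
          sg (am ℚ a) (c' σ) = sg (am ℚ a) (0 : Pt W Qb) :=
        fun {a d δ σ} hd hδ gδ ⟨y, hy⟩ => by
          rw [hy, map_mul, ← sq] at hδ
          have h8 : δ ≠ 0 := fun e => hd (by simpa [e, hy] using hδ.symm)
          have h9 : σ δ = δ := by
            rcases sq_eq_sq_iff_eq_or_eq_neg.1 hδ with e | e <;> simp [e]
          refine sg_cast h'.two (mul_right_cancel₀ h8 ?_)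
          rw [sg_zero]
          linear_combination h9 - gδ
      exact ⟨0, fun σ => by
        simpa using sg_inj h' (hc σ) (add_zero 0) (key h1 hα (gα σ) s.1) (key h2 hβ (gβ σ) s.2)⟩
    · exact cob_of_sq h hc h2 h3 hβ hγ gβ gγ s.1 s.2
    · exact cob_of_sq h.swap hc h1 h3 hα hγ gα gγ s.1 s.2
    · exact cob_of_sq h.swap'.swap hc h1 h2 hα hβ gα gβ s.1 s.2
  refine (QuotientAddGroup.eq_zero_iff _).2 ⟨R + Q, funext fun σ => ?_⟩
  show pm W σ (R + Q) - (R + Q) = c σ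
  rw [map_add, add_sub_add_comm, ← hR, sub_add_cancel]

end Pool.Agent.P.MP_9c97e9_nt
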