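import Pool.Agent.P.MP_9c97e9_nt.Defs2

/-! The group law on a curve whose 2-division polynomial splits. -/

namespace Pool.Agent.P.MP_9c97e9_nt

open WeierstrassCurve WeierstrassCurve.Affine Classical

variable {F K : Type} [Field F] [Field K] {W : WeierstrassCurve ℤ}

/-- The 2-division polynomial of `W` has the distinct roots `e₁, e₂, e₃`. -/
structure Split (W : WeierstrassCurve ℤ) (e₁ e₂ e₃ : F) : Prop where
  two : (2 : F) ≠ 0
  n12 : e₁ - e₂ ≠ 0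
  n13 : e₁ - e₃ ≠ 0
  n23 : e₂ - e₃ ≠ 0
  h2 : (W.a₁ : F) ^ 2 + 4 * W.a₂ = -4 * (e₁ + e₂ + e₃)
  h4 : (2 : F) * W.a₄ + W.a₁ * W.a₃ = 2 * (e₁ * e₂ + e₁ * e₃ + e₂ * e₃)
  h6 : (W.a₃ : F) ^ 2 + 4 * W.a₆ = -4 * (e₁ * e₂ * e₃)

theorem bc (W : WeierstrassCurve ℤ) (R : Type) [CommRing R] : (W⁄R).toAffine.a₁ = W.a₁ ∧
    (W⁄R).toAffine.a₂ = W.a₂ ∧ (W⁄R).toAffine.a₃ = W.a₃ ∧ (W⁄R).toAffine.a₄ = W.a₄ ∧
    (W⁄R).toAffine.a₆ = W.a₆ := ⟨rfl, rfl, rfl, rfl, rfl⟩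

variable {e₁ e₂ e₃ : F}

theorem Split.swap (h : Split W e₁ e₂ e₃) : Split W e₂ e₁ e₃ :=
  ⟨h.two, fun e => h.n12 (by linear_combination -e), h.n23, h.n13, by linear_combination h.h2,
    by linear_combination h.h4, by linear_combination h.h6⟩

theorem Split.swap' (h : Split W e₁ e₂ e₃) : Split W e₁ e₃ e₂ :=
  ⟨h.two, h.n13, h.n12, fun e => h.n23 (by linear_combination -e), by linear_combination h.h2,
    by linear_combination h.h4, by linear_combination h.h6⟩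

theorem Split.map (h : Split W e₁ e₂ e₃) (f : F →+* K) : Split W (f e₁) (f e₂) (f e₃) :=
  ⟨by simpa [map_ofNat] using (map_ne_zero f).2 h.two, by simpa using (map_ne_zero f).2 h.n12,
    by simpa using (map_ne_zero f).2 h.n13, by simpa using (map_ne_zero f).2 h.n23,
    by simpa [map_ofNat] using congrArg f h.h2, by simpa [map_ofNat] using congrArg f h.h4,
    by simpa [map_ofNat] using congrArg f h.h6⟩

theorem Split.four (h : Split W e₁ e₂ e₃) : (4 : F) ≠ 0 := by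
  simpa [show (4 : F) = 2 * 2 by norm_num] using h.two

theorem Split.equation (h : Split W e₁ e₂ e₃) (x y : F) : (W⁄F).toAffine.Equation x y ↔
    (2 * y + W.a₁ * x + W.a₃) ^ 2 = 4 * ((x - e₁) * (x - e₂) * (x - e₃)) := by
  rw [equation_iff]
  simp only [bc]
  refine ⟨fun e => ?_, fun e => mul_left_cancel₀ h.four ?_⟩
  · linear_combination 4 * e + x ^ 2 * h.h2 + 2 * x * h.h4 + h.h6
  · linear_combination e - x ^ 2 * h.h2 - 2 * x * h.h4 - h.h6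

theorem Split.nonsingular (h : Split W e₁ e₂ e₃) {x y : F}
    (e : (2 * y + W.a₁ * x + W.a₃) ^ 2 = 4 * ((x - e₁) * (x - e₂) * (x - e₃))) :
    (W⁄F).toAffine.Nonsingular x y := by
  rw [nonsingular_iff', h.equation]
  simp only [bc]
  refine ⟨e, or_iff_not_imp_right.2 fun h0 h1 => ?_⟩
  rw [not_not] at h0
  have h2 : (x - e₁) * (x - e₂) + (x - e₁) * (x - e₃) + (x - e₂) * (x - e₃) = 0 :=
    mul_left_cancel₀ h.four (by
      linear_combination -4 * h1 + 2 * W.a₁ * h0 - 2 * x * h.h2 - 2 * h.h4)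
  rw [h0, zero_pow two_ne_zero, eq_comm, mul_eq_zero, mul_eq_zero, mul_eq_zero] at e
  rcases e.resolve_left h.four with (e | e) | e <;> obtain rfl := sub_eq_zero.1 e
  · exact mul_ne_zero h.n12 h.n13 (by linear_combination h2)
  · exact mul_ne_zero h.n12 h.n23 (by linear_combination -h2)
  · exact mul_ne_zero h.n13 h.n23 (by linear_combination h2)

/-- `P` is the affine point with abscissa `x` and `2 y + a₁ x + a₃ = η`. -/
def Is (P : Pt W F) (x η : F) : Prop := ∃ y h, P = .some x y h ∧ 2 * y + W.a₁ * x + W.a₃ = η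

theorem zero_or_is (P : Pt W F) : P = 0 ∨ ∃ x η, Is P x η := by
  rcases P with _ | ⟨x, y, h⟩
  · exact .inl rfl
  · exact .inr ⟨x, _, y, h, rfl, rfl⟩

variable {P Q T : Pt W F} {x η x₁ η₁ x₂ η₂ : F}

theorem Is.eq (h : Split W e₁ e₂ e₃) (hP : Is P x η) :
    η ^ 2 = 4 * ((x - e₁) * (x - e₂) * (x - e₃)) := by
  obtain ⟨y, h1, -, rfl⟩ := hP
  exact (h.equation x y).1 h1.1

theorem Split.exists_is (h : Split W e₁ e₂ e₃)
    (e : η ^ 2 = 4 * ((x - e₁) * (x - e₂) * (x - e₃))) : ∃ P : Pt W F, Is P x η := by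
  have h2 := h.two
  have : 2 * ((η - W.a₁ * x - W.a₃) / 2) + W.a₁ * x + W.a₃ = η := by field_simp; ring
  exact ⟨_, _, h.nonsingular (by rwa [this]), rfl, this⟩

theorem Is.ne_zero (hP : Is P x η) : P ≠ 0 := by
  obtain ⟨y, h1, rfl, -⟩ := hP
  exact Point.some_ne_zero _

theorem Is.inj (hP : Is P x₁ η₁) (hP' : Is P x₂ η₂) : x₁ = x₂ ∧ η₁ = η₂ := by
  obtain ⟨y, h1, rfl, rfl⟩ := hP
  obtain ⟨y', h2, e, rfl⟩ := hP'
  obtain ⟨rfl, rfl⟩ := Point.some.inj e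
  exact ⟨rfl, rfl⟩

theorem Is.unique (h : Split W e₁ e₂ e₃) (hP : Is P x η) (hQ : Is Q x η) : P = Q := by
  obtain ⟨y, h1, rfl, rfl⟩ := hP
  obtain ⟨y', h2, rfl, e⟩ := hQ
  obtain rfl : y' = y := mul_left_cancel₀ h.two (by linear_combination e)
  rfl

theorem Is.neg (hP : Is P x η) : Is (-P) x (-η) := by
  obtain ⟨y, h1, rfl, rfl⟩ := hP
  refine ⟨_, _, Point.neg_some h1, ?_⟩
  simp only [negY, bc]
  ring

theorem Is.map (hP : Is P x η) (f : F →+* K) : Is (pm W f P) (f x) (f η) := by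
  obtain ⟨y, h1, rfl, rfl⟩ := hP
  exact ⟨f y, _, rfl, by simp [map_ofNat]⟩

theorem pm_injective (f : F →+* K) : Function.Injective (pm W f) := by
  exact Point.map_injective _

theorem pm_pm {L : Type} [Field L] (f : F →+* K) (g : K →+* L) (P : Pt W F) :
    pm W g (pm W f P) = pm W (g.comp f) P := by
  cases P <;> rfl

theorem Is.of_map {f : F →+* K} (hP : Is (pm W f P) (f x) (f η)) :
    Is P x η := by
  rcases zero_or_is P with rfl | ⟨x', η', h'⟩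
  · exact absurd rfl hP.ne_zero
  · obtain ⟨h1, h2⟩ := hP.inj (h'.map f)
    rwa [f.injective h1, f.injective h2]

theorem Is.add_eq_zero (h : Split W e₁ e₂ e₃) (hP : Is P x η) (hQ : Is Q x (-η)) : P + Q = 0 := by
  rw [hQ.unique h hP.neg, add_neg_cancel]

theorem Is.add_ne (h : Split W e₁ e₂ e₃) (hP : Is P x₁ η₁) (hQ : Is Q x₂ η₂) (hx : x₁ ≠ x₂)
    {m x₃ : F} (hm : m * (x₁ - x₂) = η₁ - η₂) (h3 : 4 * (x₁ + x₂ + x₃) = m ^ 2 + 4 * (e₁ + e₂ + e₃)) :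
    Is (P + Q) x₃ (-(η₁ + m * (x₃ - x₁))) := by
  obtain ⟨y, h1, rfl, rfl⟩ := hP
  obtain ⟨y', h2, rfl, rfl⟩ := hQ
  have e1 : m = 2 * (W⁄F).toAffine.slope x₁ x₂ y y' + W.a₁ := by
    have := sub_ne_zero.2 hx
    rw [slope_of_X_ne hx]
    field_simp
    linear_combination hm
  have e2 : (W⁄F).toAffine.addX x₁ x₂ ((W⁄F).toAffine.slope x₁ x₂ y y') = x₃ := by
    apply mul_left_cancel₀ h.four
    simp only [addX, bc]
    rw [e1] at h3
    linear_combination -h3 - h.h2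
  subst e2
  refine ⟨_, _, Point.add_of_X_ne hx, ?_⟩
  rw [e1]
  simp only [addY, negAddY, negY, bc]
  ring

theorem Is.add_self (h : Split W e₁ e₂ e₃) (hP : Is P x η) (h0 : η ≠ 0) {m x₃ : F}
    (hm : m * η = 2 * ((x - e₁) * (x - e₂) + (x - e₁) * (x - e₃) + (x - e₂) * (x - e₃)))
    (h3 : 4 * (x + x + x₃) = m ^ 2 + 4 * (e₁ + e₂ + e₃)) :
    Is (P + P) x₃ (-(η + m * (x₃ - x))) := by
  obtain ⟨y, h1, rfl, rfl⟩ := hP
  have e0 : y - (W⁄F).toAffine.negY x y = 2 * y + W.a₁ * x + W.a₃ := by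
    simp only [negY, bc]
    ring
  have hy : y ≠ (W⁄F).toAffine.negY x y := sub_ne_zero.1 (e0 ▸ h0)
  have e1 : m = 2 * (W⁄F).toAffine.slope x x y y + W.a₁ := by
    rw [slope_of_Y_ne rfl hy, e0]
    simp only [bc]
    have := div_mul_cancel₀ (3 * x ^ 2 + 2 * W.a₂ * x + W.a₄ - W.a₁ * y) h0
    exact mul_right_cancel₀ h0 (by linear_combination hm - x * h.h2 - h.h4 - 2 * this)
  have e2 : (W⁄F).toAffine.addX x x ((W⁄F).toAffine.slope x x y y) = x₃ := by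
    apply mul_left_cancel₀ h.four
    simp only [addX, bc]
    rw [e1] at h3
    linear_combination -h3 - h.h2
  subst e2
  refine ⟨_, _, Point.add_self_of_Y_ne hy, ?_⟩
  rw [e1]
  simp only [addY, negAddY, negY, bc]
  ring

/-- The three points of intersection with a line. -/
theorem Is.add_cubic (h : Split W e₁ e₂ e₃) (hP : Is P x₁ η₁) (hQ : Is Q x₂ η₂) (h0 : P + Q ≠ 0) :
    ∃ m x₃ η₃, Is (P + Q) x₃ η₃ ∧ ∀ t, (η₁ + m * (t - x₁)) ^ 2 -
      4 * ((t - e₁) * (t - e₂) * (t - e₃)) = -4 * ((t - x₁) * (t - x₂) * (t - x₃)) := by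
  have h1 := hP.eq h
  have h2 := hQ.eq h
  have h4 := h.four
  obtain ⟨c, hc⟩ : ∃ c : F → F, ∀ m, 4 * (x₁ + x₂ + c m) = m ^ 2 + 4 * (e₁ + e₂ + e₃) :=
    ⟨fun m => m ^ 2 / 4 + (e₁ + e₂ + e₃) - x₁ - x₂, fun m => by field_simp; ring⟩
  by_cases hx : x₁ = x₂
  · subst hx
    have h5 : η₂ ≠ -η₁ := fun e => h0 (hP.add_eq_zero h (e ▸ hQ))
    obtain rfl : η₂ = η₁ := (sq_eq_sq_iff_eq_or_eq_neg.1 (h2.trans h1.symm)).resolve_right h5
    obtain rfl := hP.unique h hQ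
    have h6 : η₂ ≠ 0 := fun e => h5 (by simp [e])
    have hm := div_mul_cancel₀
      (2 * ((x₁ - e₁) * (x₁ - e₂) + (x₁ - e₁) * (x₁ - e₃) + (x₁ - e₂) * (x₁ - e₃))) h6
    generalize _ / η₂ = m at hm
    refine ⟨m, _, _, hP.add_self h h6 hm (hc _), fun t => ?_⟩
    linear_combination h1 + 2 * (t - x₁) * hm - (t - x₁) ^ 2 * hc m
  · have h5 := sub_ne_zero.2 hx
    have hm := div_mul_cancel₀ (η₁ - η₂) h5
    generalize _ / (x₁ - x₂) = m at hm
    refine ⟨m, _, _, hP.add_ne h hQ hx hm (hc _), fun t => mul_left_cancel₀ h5 ?_⟩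
    linear_combination (t - x₂) * h1 + (x₁ - t) * (h2 - (η₁ + m * (x₂ - x₁) + η₂) * hm)
      - (x₁ - x₂) * (t - x₁) * (t - x₂) * hc m

/-- The descent map attached to the root `e₁`. -/
noncomputable def dl (e₁ e₂ e₃ : F) : Pt W F → F
  | .zero => 1
  | .some x _ _ => if x = e₁ then (e₁ - e₂) * (e₁ - e₃) else x - e₁

theorem dl_zero : dl e₁ e₂ e₃ (0 : Pt W F) = 1 := rfl

theorem Is.dl_eq (hP : Is P e₁ η) : dl e₁ e₂ e₃ P = (e₁ - e₂) * (e₁ - e₃) := by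
  obtain ⟨y, h1, rfl, -⟩ := hP
  exact if_pos rfl

theorem Is.dl_ne (hP : Is P x η) (hx : x - e₁ ≠ 0) : dl e₁ e₂ e₃ P = x - e₁ := by
  obtain ⟨y, h1, rfl, -⟩ := hP
  exact if_neg (sub_ne_zero.1 hx)

theorem dl_ne_zero (h : Split W e₁ e₂ e₃) (P : Pt W F) : dl e₁ e₂ e₃ P ≠ 0 := by
  rcases zero_or_is P with rfl | ⟨x, η, hP⟩
  · exact one_ne_zero
  by_cases hx : x = e₁
  · subst hx
    exact hP.dl_eq ▸ mul_ne_zero h.n12 h.n13
  · exact hP.dl_ne (sub_ne_zero.2 hx) ▸ sub_ne_zero.2 hx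

theorem dl_neg (P : Pt W F) : dl e₁ e₂ e₃ (-P) = dl e₁ e₂ e₃ P := by
  cases P <;> rfl

theorem dl_add (h : Split W e₁ e₂ e₃) (P Q : Pt W F) :
    IsSquare (dl e₁ e₂ e₃ P * dl e₁ e₂ e₃ Q * dl e₁ e₂ e₃ (P + Q)) := by
  rcases zero_or_is P with rfl | ⟨x₁, η₁, hP⟩
  · simp [dl_zero]
  rcases zero_or_is Q with rfl | ⟨x₂, η₂, hQ⟩
  · simp [dl_zero]
  by_cases h0 : P + Q = 0
  · rw [h0, eq_neg_of_add_eq_zero_left h0, dl_neg]
    simp [dl_zero]
  obtain ⟨m, x₃, η₃, hR, hc⟩ := hP.add_cubic h hQ h0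
  have h2 := h.two
  have hab := mul_ne_zero h.n12 h.n13
  obtain ⟨c, hc'⟩ : ∃ c, 2 * c = η₁ + m * (e₁ - x₁) := ⟨_ / 2, mul_div_cancel₀ _ h2⟩
  have i0 : (x₁ - e₁) * (x₂ - e₁) * (x₃ - e₁) = c * c := mul_left_cancel₀ h.four (by
    linear_combination -hc e₁ - (2 * c + η₁ + m * (e₁ - x₁)) * hc')
  have i1 : (x₁ - e₁) * (x₂ - e₁) + (x₁ - e₁) * (x₃ - e₁) + (x₂ - e₁) * (x₃ - e₁) =
      (e₁ - e₂) * (e₁ - e₃) - m * c := mul_left_cancel₀ (mul_ne_zero h2 h.four) (by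
    linear_combination hc (e₁ + 1) - hc (e₁ - 1) + 4 * m * hc')
  have hz : (x₁ - e₁) * (x₂ - e₁) * (x₃ - e₁) = 0 → c = 0 := fun e =>
    mul_self_eq_zero.1 (i0 ▸ e)
  by_cases h1 : x₁ = e₁
  · subst h1
    rw [hz (by simp)] at i1
    have e : (x₂ - x₁) * (x₃ - x₁) = (x₁ - e₂) * (x₁ - e₃) := by linear_combination i1
    rw [hP.dl_eq, hQ.dl_ne (left_ne_zero_of_mul (e ▸ hab)), hR.dl_ne (right_ne_zero_of_mul (e ▸ hab)),
      mul_assoc, e]
    exact .mul_self _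
  by_cases h2 : x₂ = e₁
  · subst h2
    rw [hz (by simp)] at i1
    have e : (x₁ - x₂) * (x₃ - x₂) = (x₂ - e₂) * (x₂ - e₃) := by linear_combination i1
    rw [hQ.dl_eq, hP.dl_ne (left_ne_zero_of_mul (e ▸ hab)), hR.dl_ne (right_ne_zero_of_mul (e ▸ hab)),
      mul_right_comm, e]
    exact .mul_self _
  rw [hP.dl_ne (sub_ne_zero.2 h1), hQ.dl_ne (sub_ne_zero.2 h2)]
  by_cases h3 : x₃ = e₁
  · subst h3
    rw [hz (by simp)] at i1
    rw [hR.dl_eq]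
    exact ⟨(x₃ - e₂) * (x₃ - e₃), by linear_combination (x₃ - e₂) * (x₃ - e₃) * i1⟩
  · exact ⟨c, by rw [hR.dl_ne (sub_ne_zero.2 h3), i0]⟩

theorem Is.two_ne (h : Split W e₁ e₂ e₃) (hP : Is P x η) : P + P ≠ 0 ↔ η ≠ 0 := by
  refine not_congr ⟨fun e => ?_, fun e => hP.add_eq_zero h (by simpa [e] using hP)⟩
  have := (hP.inj (neg_eq_of_add_eq_zero_left e ▸ hP.neg)).2
  exact (mul_eq_zero.1 (show 2 * η = 0 by linear_combination this)).resolve_left h.two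

theorem two_torsion (h : Split W e₁ e₂ e₃) (hT : T + T = 0) :
    T = 0 ∨ Is T e₁ 0 ∨ Is T e₂ 0 ∨ Is T e₃ 0 := by
  refine (zero_or_is T).imp_right fun ⟨x, η, hP⟩ => ?_
  obtain rfl : η = 0 := by_contra fun e => (hP.two_ne h).2 e hT
  have e := hP.eq h
  rw [zero_pow two_ne_zero, eq_comm, mul_eq_zero, mul_eq_zero, mul_eq_zero] at e
  rcases e.resolve_left h.four with (e | e) | e <;> obtain rfl := sub_eq_zero.1 e <;> simp [hP]

/-- A square root of `x (2 P) - e₁`. -/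
def UU (e₁ e₂ e₃ : F) : Pt W F → F
  | .zero => 0
  | .some x y _ => ((x - e₁) ^ 2 - (e₁ - e₂) * (e₁ - e₃)) / (2 * y + W.a₁ * x + W.a₃)

theorem Is.UU_eq (hP : Is P x η) :
    UU e₁ e₂ e₃ P = ((x - e₁) ^ 2 - (e₁ - e₂) * (e₁ - e₃)) / η := by
  obtain ⟨y, h1, rfl, rfl⟩ := hP
  rfl

theorem UU_map (f : F →+* K) (P : Pt W F) :
    UU (f e₁) (f e₂) (f e₃) (pm W f P) = f (UU e₁ e₂ e₃ P) := by
  rcases zero_or_is P with rfl | ⟨x, η, hP⟩
  · exact (map_zero f).symm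
  · simp [hP.UU_eq, (hP.map f).UU_eq]

theorem UU_sq (h : Split W e₁ e₂ e₃) (h2 : Is (P + P) x η) : x - e₁ = UU e₁ e₂ e₃ P ^ 2 := by
  rcases zero_or_is P with rfl | ⟨x₁, η₁, hP⟩
  · exact absurd (add_zero _) h2.ne_zero
  have h0 := (hP.two_ne h).1 h2.ne_zero
  have h4 := h.four
  have hm := div_mul_cancel₀
    (2 * ((x₁ - e₁) * (x₁ - e₂) + (x₁ - e₁) * (x₁ - e₃) + (x₁ - e₂) * (x₁ - e₃))) h0
  generalize _ / η₁ = m at hm
  have h3 := (h2.inj (hP.add_self h h0 hm (x₃ := m ^ 2 / 4 + (e₁ + e₂ + e₃) - 2 * x₁)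
    (by field_simp; ring))).1
  rw [hP.UU_eq, h3]
  field_simp
  linear_combination (m * η₁ + 2 * ((x₁ - e₁) * (x₁ - e₂) + (x₁ - e₁) * (x₁ - e₃) +
    (x₁ - e₂) * (x₁ - e₃))) * hm + 4 * (e₂ + e₃ - 2 * x₁) * hP.eq h

theorem UU_add_aux (h : Split W e₁ e₂ e₃) (hT : Is T e₁ 0) (h2 : P + P ≠ 0) :
    UU e₁ e₂ e₃ (P + T) = UU e₁ e₂ e₃ P ∧ UU e₂ e₁ e₃ (P + T) = -UU e₂ e₁ e₃ P := by
  rcases zero_or_is P with rfl | ⟨x, η, hP⟩
  · exact absurd (add_zero _) h2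
  have h0 := (hP.two_ne h).1 h2
  have e := hP.eq h
  have hx : x - e₁ ≠ 0 := fun hx => h0 (by simpa [hx] using e)
  have h1 := hP.add_ne h hT (sub_ne_zero.1 hx) (m := η / (x - e₁))
    (x₃ := e₁ + (e₁ - e₂) * (e₁ - e₃) / (x - e₁)) (by field_simp; ring) (by
      field_simp
      linear_combination -e)
  have h3 : -(η + η / (x - e₁) * (e₁ + (e₁ - e₂) * (e₁ - e₃) / (x - e₁) - x)) =
      -(η * ((e₁ - e₂) * (e₁ - e₃)) / (x - e₁) ^ 2) := by field_simp; ring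
  have := h.n12
  have := h.n13
  simp only [h1.UU_eq, hP.UU_eq, h3]
  constructor <;> field_simp <;> ring

/-- The Weil pairing with the point of order two with abscissa `e`. -/
noncomputable def sg (e : F) (T : Pt W F) : ℤ := if T = 0 ∨ Is T e 0 then 1 else -1

theorem sg_zero (e : F) : sg e (0 : Pt W F) = 1 := if_pos (.inl rfl)

theorem Is.sg_eq (hT : Is T e₁ 0) : sg e₁ T = 1 := if_pos (.inr hT)

theorem Is.sg_ne (hT : Is T e₁ 0) (h : e₁ - e₂ ≠ 0) : sg e₂ T = -1 :=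
  if_neg fun e => e.elim hT.ne_zero fun e => h (sub_eq_zero.2 (hT.inj e).1)

theorem sg_sq (e : F) (T : Pt W F) : sg e T * sg e T = 1 := by
  unfold sg
  split_ifs <;> rfl

theorem sg_map (f : F →+* K) (e : F) (T : Pt W F) :
    sg (f e) (pm W f T) = sg e T := by
  refine if_congr (or_congr (map_eq_zero_iff _ (pm_injective f)) ⟨fun h1 => ?_, fun h1 => ?_⟩) rfl rfl
  · exact Is.of_map (f := f) (by simpa using h1)
  · simpa using h1.map f

theorem UU_add (h : Split W e₁ e₂ e₃) (hT : T + T = 0) (h2 : P + P ≠ 0) :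
    UU e₁ e₂ e₃ (P + T) = sg e₁ T * UU e₁ e₂ e₃ P := by
  rcases two_torsion h hT with rfl | h1 | h1 | h1
  · simp [sg_zero]
  · simp [h1.sg_eq, (UU_add_aux h h1 h2).1]
  · simp [h1.sg_ne h.swap.n12, (UU_add_aux h.swap h1 h2).2]
  · have e : ∀ P : Pt W F, UU e₁ e₂ e₃ P = UU e₁ e₃ e₂ P := fun P => by
      cases P <;> simp [UU, mul_comm]
    simp [e, h1.sg_ne h.swap'.swap.n12, (UU_add_aux h.swap'.swap h1 h2).2]

theorem sg_prod (h : Split W e₁ e₂ e₃) (hT : T + T = 0) : sg e₃ T = sg e₁ T * sg e₂ T := by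
  rcases two_torsion h hT with rfl | h1 | h1 | h1
  · simp [sg_zero]
  · simp [h1.sg_eq, h1.sg_ne h.n12, h1.sg_ne h.n13]
  · simp [h1.sg_eq, h1.sg_ne h.swap.n12, h1.sg_ne h.n23]
  · simp [h1.sg_eq, h1.sg_ne h.swap'.swap.n12, h1.sg_ne h.swap'.n23]

theorem exists_half [IsAlgClosed F] (h : Split W e₁ e₂ e₃) (Q : Pt W F) : ∃ R, R + R = Q := by
  rcases zero_or_is Q with rfl | ⟨x, η, hQ⟩
  · exact ⟨0, add_zero _⟩
  obtain ⟨u, hu⟩ := IsAlgClosed.exists_pow_nat_eq (x - e₁) two_pos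
  obtain ⟨v, hv⟩ := IsAlgClosed.exists_pow_nat_eq (x - e₂) two_pos
  obtain ⟨w, hw⟩ := IsAlgClosed.exists_pow_nat_eq (x - e₃) two_pos
  have n1 : u + v ≠ 0 := fun e => h.n12 (by linear_combination hu - hv - (u - v) * e)
  have n2 : u + w ≠ 0 := fun e => h.n13 (by linear_combination hu - hw - (u - w) * e)
  have n3 : v + w ≠ 0 := fun e => h.n23 (by linear_combination hv - hw - (v - w) * e)
  have a1 : x + u * v + u * w + v * w - e₁ = (u + v) * (u + w) := by linear_combination -hu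
  have a2 : x + u * v + u * w + v * w - e₂ = (u + v) * (v + w) := by linear_combination -hv
  have a3 : x + u * v + u * w + v * w - e₃ = (u + w) * (v + w) := by linear_combination -hw
  obtain ⟨R, hR⟩ := h.exists_is (x := x + u * v + u * w + v * w)
    (η := 2 * ((u + v) * (u + w) * (v + w))) (by rw [a1, a2, a3]; ring)
  have h2 := h.two
  obtain ⟨x', η', h3⟩ := (zero_or_is _).resolve_left ((hR.two_ne h).2 (by positivity))
  have h4 : UU e₁ e₂ e₃ R = u := by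
    rw [hR.UU_eq, a1, show e₁ - e₂ = v ^ 2 - u ^ 2 by linear_combination hu - hv,
      show e₁ - e₃ = w ^ 2 - u ^ 2 by linear_combination hu - hw]
    field_simp
    ring
  obtain rfl : x' = x := by linear_combination UU_sq h h3 + (UU e₁ e₂ e₃ R + u) * h4 + hu
  rcases sq_eq_sq_iff_eq_or_eq_neg.1 ((hQ.eq h).trans (h3.eq h).symm) with rfl | rfl
  · exact ⟨R, h3.unique h hQ⟩
  · exact ⟨-R, by rw [← neg_add]; exact h3.neg.unique h hQ⟩

theorem sg_add [IsAlgClosed F] (h : Split W e₁ e₂ e₃) {S : Pt W F} (hS : S + S = 0)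
    (hT : T + T = 0) : sg e₁ (S + T) = sg e₁ S * sg e₁ T := by
  obtain ⟨Q, hQ⟩ := h.exists_is (x := e₂) (η := 0) (by simp)
  obtain ⟨R, rfl⟩ := exists_half h Q
  have h1 : UU e₁ e₂ e₃ R ≠ 0 := fun e => h.swap.n12 (by simpa [e] using UU_sq h hQ)
  have h2 := UU_add h (T := S + T) (by rw [add_add_add_comm, hS, hT, add_zero]) hQ.ne_zero
  rw [← add_assoc, UU_add h hT (by rw [add_add_add_comm, hS, add_zero]; exact hQ.ne_zero),
    UU_add h hS hQ.ne_zero, ← mul_assoc] at h2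
  have h3 := mul_right_cancel₀ h1 h2
  have h4 := h.two
  unfold sg at h3 ⊢
  split_ifs at h3 ⊢ <;> simp only [Int.reduceNeg, Int.cast_neg, Int.cast_one] at h3 <;>
    first | rfl | exact absurd (by linear_combination h3) h4 | exact absurd (by linear_combination -h3) h4

theorem sg_inj [IsAlgClosed F] (h : Split W e₁ e₂ e₃) {S : Pt W F} (hS : S + S = 0)
    (hT : T + T = 0) (h1 : sg e₁ S = sg e₁ T) (h2 : sg e₂ S = sg e₂ T) : S = T := by
  have h3 := sg_add h hS hT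
  have h4 := sg_add h.swap hS hT
  rw [h1, sg_sq] at h3
  rw [h2, sg_sq] at h4
  have h5 : S + T = 0 := by
    by_contra h0
    have h6 : Is (S + T) e₁ 0 := by_contra fun e => by simp [sg, h0, e] at h3
    rw [h6.sg_ne h.n12] at h4
    omega
  rw [eq_neg_of_add_eq_zero_left h5, neg_eq_of_add_eq_zero_left hT]

end Pool.Agent.P.MP_9c97e9_nt
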