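import Pool.Agent.P.MP_9c97e9_nt.Grp

/-! Tamagawa numbers by the descent homomorphism, and the order of the torsion subgroup. -/

namespace Pool.Agent.P.MP_9c97e9_nt

open WeierstrassCurve WeierstrassCurve.Affine Classical PadicInt

variable {W : WeierstrassCurve ℤ}

section
variable {F : Type} [Field F] {e₁ e₂ e₃ : F}

/-- A quadratic character of the multiplicative group, written additively. -/
def Chr (f : F → ZMod 2) : Prop := ∀ x y, x ≠ 0 → y ≠ 0 → f (x * y) = f x + f y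

theorem Chr.sum {f : F → ZMod 2} (hf : Chr f) {a b c : F} (ha : a ≠ 0) (hb : b ≠ 0) (hc : c ≠ 0)
    (h : IsSquare (a * b * c)) : f c = f a + f b := by
  obtain ⟨r, hr⟩ := h
  have h0 : r ≠ 0 := left_ne_zero_of_mul (hr ▸ mul_ne_zero (mul_ne_zero ha hb) hc)
  have := hf r r h0 h0
  rw [← hr, hf _ _ (mul_ne_zero ha hb) hc, hf _ _ ha hb] at this
  revert this
  generalize f a = x, f b = y, f c = z, f r = w
  revert x y z w
  decide

/-- The descent homomorphism composed with a character. -/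
noncomputable def dh (h : Split W e₁ e₂ e₃) {f : F → ZMod 2} (hf : Chr f) : Pt W F →+ ZMod 2 :=
  AddMonoidHom.mk' (fun P => f (dl e₁ e₂ e₃ P)) fun P Q =>
    hf.sum (dl_ne_zero h P) (dl_ne_zero h Q) (dl_ne_zero h _) (dl_add h P Q)

theorem dh_eq (h : Split W e₁ e₂ e₃) {f : F → ZMod 2} (hf : Chr f) {P : Pt W F} {x η : F}
    (hP : Is P x η) (h2 : x - e₂ ≠ 0) (h3 : x - e₃ ≠ 0) : dh h hf P = f (x - e₂) + f (x - e₃) := by
  show f (dl e₁ e₂ e₃ P) = _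
  by_cases hx : x = e₁
  · subst hx
    rw [hP.dl_eq, hf _ _ h2 h3]
  · have := h.two
    rw [hP.dl_ne (sub_ne_zero.2 hx)]
    exact hf.sum h2 h3 (sub_ne_zero.2 hx) ⟨η / 2, by field_simp; linear_combination -hP.eq h⟩

theorem card_eq_four_mul [Finite (Pt W F)] (h : Split W e₁ e₂ e₃) (h1 : ¬ IsSquare (e₁ - e₂))
    (h2 : ¬ IsSquare (e₂ - e₁)) (h3 : ¬ IsSquare (e₃ - e₁)) :
    ∃ t, Odd t ∧ Nat.card (Pt W F) = 4 * t := by
  let D : Pt W F →+ Pt W F := AddMonoidHom.id _ + AddMonoidHom.id _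
  obtain ⟨A, hA⟩ := h.exists_is (x := e₁) (η := 0) (by simp)
  obtain ⟨B, hB⟩ := h.exists_is (x := e₂) (η := 0) (by simp)
  obtain ⟨C, hC⟩ := h.exists_is (x := e₃) (η := 0) (by simp)
  have hk : (D.ker : Set (Pt W F)) = {0, A, B, C} := by
    ext T
    refine ⟨fun hT => ?_, ?_⟩
    · rcases two_torsion h (T := T) hT with e | e | e | e
      exacts [.inl e, .inr (.inl (e.unique h hA)), .inr (.inr (.inl (e.unique h hB))),
        .inr (.inr (.inr (e.unique h hC)))]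
    · rintro (rfl | rfl | rfl | rfl)
      exacts [zero_mem _, hA.add_eq_zero h (by simpa using hA),
        hB.add_eq_zero h (by simpa using hB), hC.add_eq_zero h (by simpa using hC)]
  have n1 : A ≠ B := fun e => h.n12 (sub_eq_zero.2 (hA.inj (e ▸ hB)).1)
  have n2 : A ≠ C := fun e => h.n13 (sub_eq_zero.2 (hA.inj (e ▸ hC)).1)
  have n3 : B ≠ C := fun e => h.n23 (sub_eq_zero.2 (hB.inj (e ▸ hC)).1)
  have hc : Nat.card D.ker = 4 := by
    rw [← SetLike.coe_sort_coe, Nat.card_coe_set_eq, hk, Set.ncard_insert_of_notMem (by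
      simp [hA.ne_zero.symm, hB.ne_zero.symm, hC.ne_zero.symm]),
      Set.ncard_insert_of_notMem (by simp [n1, n2]), Set.ncard_pair n3]
  refine ⟨Nat.card D.range, Nat.not_even_iff_odd.1 fun he => ?_, by
    rw [← AddSubgroup.index_ker, ← hc, AddSubgroup.card_mul_index]⟩
  obtain ⟨⟨_, R, rfl⟩, hx⟩ := exists_prime_addOrderOf_dvd_card' 2 he.two_dvd
  obtain ⟨h4, h5⟩ := (addOrderOf_eq_prime_iff.1 hx)
  have h6 : R + R + (R + R) = 0 := (two_nsmul _).symm.trans (congrArg Subtype.val h4)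
  rcases two_torsion h h6 with e | e | e | e
  · exact h5 (Subtype.ext e)
  · exact h1 ⟨_, (UU_sq h.swap e).trans (sq _)⟩
  · exact h2 ⟨_, (UU_sq h e).trans (sq _)⟩
  · exact h3 ⟨_, (UU_sq h e).trans (sq _)⟩

theorem nonsingular_red {a b x y : F} (two : (2 : F) ≠ 0)
    (h2 : (W.a₁ : F) ^ 2 + 4 * W.a₂ = -4 * (a + a + b))
    (h4 : (2 : F) * W.a₄ + W.a₁ * W.a₃ = 2 * (a * a + a * b + a * b))
    (h6 : (W.a₃ : F) ^ 2 + 4 * W.a₆ = -4 * (a * a * b)) (h : (W⁄F).toAffine.Equation x y) :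
    (W⁄F).toAffine.Nonsingular x y ↔ x - a ≠ 0 := by
  have four : (4 : F) ≠ 0 := by simpa [show (4 : F) = 2 * 2 by norm_num] using two
  rw [nonsingular_iff', and_iff_right h, ← not_and_or, not_iff_not]
  rw [equation_iff] at h
  simp only [bc] at h ⊢
  have e : (2 * y + W.a₁ * x + W.a₃) ^ 2 = 4 * ((x - a) ^ 2 * (x - b)) := by
    linear_combination 4 * h + x ^ 2 * h2 + 2 * x * h4 + h6
  refine ⟨fun ⟨h1, h0⟩ => ?_, fun hx => ?_⟩
  · have h3 : (x - a) * (x - a) + 2 * ((x - a) * (x - b)) = 0 := mul_left_cancel₀ four (by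
      linear_combination -4 * h1 + 2 * W.a₁ * h0 - 2 * x * h2 - 2 * h4)
    by_contra hx
    rw [h0, zero_pow two_ne_zero, eq_comm] at e
    have h5 : x - b = 0 := by simpa [four, hx] using e
    simp [h5, hx] at h3
  · have h0 : 2 * y + W.a₁ * x + W.a₃ = 0 := by simpa [hx] using e
    refine ⟨mul_left_cancel₀ four ?_, h0⟩
    linear_combination 2 * W.a₁ * h0 - 2 * x * h2 - 2 * h4 - 4 * (3 * x - a - 2 * b) * hx

end

variable {p : ℕ} [hp : Fact p.Prime]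

theorem toZMod_eq_zero {x : ℤ_[p]} : toZMod x = 0 ↔ ‖x‖ < 1 := by
  rw [← RingHom.mem_ker, ker_toZMod, IsLocalRing.mem_maximalIdeal, mem_nonunits]

theorem equation_red {x y : ℤ_[p]} (h : (W⁄ℚ_[p]).toAffine.Equation x y) :
    (W⁄(ZMod p)).toAffine.Equation (toZMod x) (toZMod y) := by
  rw [equation_iff] at h ⊢
  simp only [bc] at h ⊢
  have : y ^ 2 + W.a₁ * x * y + W.a₃ * y = x ^ 3 + W.a₂ * x ^ 2 + W.a₄ * x + W.a₆ :=
    PadicInt.ext h
  simpa using congrArg toZMod this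

theorem index_good (h : ¬ (p : ℤ) ∣ W.Δ) : (AddSubgroup.closure (goodRed W p)).index = 1 := by
  have : goodRed W p = Set.univ := Set.eq_univ_of_forall fun P x y h1 _ =>
    (equation_iff_nonsingular_of_Δ_ne_zero (by
      simpa [WeierstrassCurve.baseChange, ZMod.intCast_zmod_eq_zero_iff_dvd] using h)).1
      (equation_red h1.1)
  rw [this, AddSubgroup.closure_univ, AddSubgroup.index_top]

theorem mem_goodRed (h2 : p ≠ 2) {e₁ e₂ e₃ : ℤ_[p]} (h : Split W (e₁ : ℚ_[p]) e₂ e₃)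
    (h12 : ‖(e₁ : ℚ_[p]) - e₂‖ < 1) (P : Pt W ℚ_[p]) :
    P ∈ goodRed W p ↔ ∀ x η, Is P x η → 1 ≤ ‖x - e₁‖ := by
  have n2 : ‖(2 : ℚ_[p])‖ = 1 := by
    simpa using Padic.norm_natCast_eq_one_iff.2 ((Nat.coprime_primes hp.1 Nat.prime_two).2 h2)
  have e12 : toZMod e₂ = toZMod e₁ := by
    rw [eq_comm, ← sub_eq_zero, ← map_sub, toZMod_eq_zero]
    exact h12
  have key : ∀ x y : ℤ_[p], (W⁄ℚ_[p]).toAffine.Equation x y →
      ((W⁄(ZMod p)).toAffine.Nonsingular (toZMod x) (toZMod y) ↔ 1 ≤ ‖(x : ℚ_[p]) - e₁‖) := by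
    intro x y hxy
    have r2 : (W.a₁ : ℤ_[p]) ^ 2 + 4 * W.a₂ = -4 * (e₁ + e₂ + e₃) := PadicInt.ext h.h2
    have r4 : (2 : ℤ_[p]) * W.a₄ + W.a₁ * W.a₃ = 2 * (e₁ * e₂ + e₁ * e₃ + e₂ * e₃) :=
      PadicInt.ext h.h4
    have r6 : (W.a₃ : ℤ_[p]) ^ 2 + 4 * W.a₆ = -4 * (e₁ * e₂ * e₃) := PadicInt.ext h.h6
    rw [nonsingular_red (a := toZMod e₁) (b := toZMod e₃) (fun e => ?_)
      (by simpa [e12, map_ofNat] using congrArg toZMod r2)
      (by simpa [e12, map_ofNat] using congrArg toZMod r4)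
      (by simpa [e12, map_ofNat] using congrArg toZMod r6) (equation_red hxy), ← map_sub, Ne,
      toZMod_eq_zero, not_lt]
    · rfl
    · exact (toZMod_eq_zero (x := 2).1 (by rwa [map_ofNat])).ne n2
  refine ⟨?_, fun H x y h1 e => (key x y h1.1).2 (H x _ ⟨y, h1, e, rfl⟩)⟩
  intro H x η hP
  by_contra hx
  have h3 : ‖x‖ ≤ 1 := by
    simpa using (Padic.nonarchimedean (x - (e₁ : ℚ_[p])) e₁).trans (max_le (not_le.1 hx).le e₁.2)
  obtain ⟨x, rfl⟩ : ∃ z : ℤ_[p], z = x := ⟨⟨x, h3⟩, rfl⟩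
  have h4 : ‖η‖ ≤ 1 := by
    refine (pow_le_one_iff_of_nonneg (norm_nonneg _) two_ne_zero).1 ?_
    rw [← norm_pow, hP.eq h]
    exact (4 * ((x - e₁) * (x - e₂) * (x - e₃)) : ℤ_[p]).2
  obtain ⟨η, rfl⟩ : ∃ z : ℤ_[p], z = η := ⟨⟨η, h4⟩, rfl⟩
  obtain ⟨y, h1, e, hy⟩ := hP
  have h5 : ‖y‖ ≤ 1 := by
    rw [← one_mul ‖y‖, ← n2, ← norm_mul, show 2 * y = η - W.a₁ * x - W.a₃ by linear_combination hy, n2]
    exact (η - W.a₁ * x - W.a₃ : ℤ_[p]).2
  obtain ⟨y, rfl⟩ : ∃ z : ℤ_[p], z = y := ⟨⟨y, h5⟩, rfl⟩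
  exact hx ((key x y h1.1).1 (H x y h1 e))

theorem norm_sub_eq {x a b : ℚ_[p]} (h : ‖a - b‖ < ‖x - a‖) : ‖x - b‖ = ‖x - a‖ :=
  Padic.norm_eq_of_norm_sub_lt_right (by rwa [sub_sub_sub_cancel_left])

theorem index_additive (h2 : p ≠ 2) {e₁ e₂ e₃ : ℤ_[p]} (h : Split W (e₁ : ℚ_[p]) e₂ e₃)
    (h12 : ‖(e₁ : ℚ_[p]) - e₂‖ = (p : ℝ)⁻¹) (h13 : ‖(e₁ : ℚ_[p]) - e₃‖ = (p : ℝ)⁻¹) :
    (AddSubgroup.closure (goodRed W p)).index = 4 := by
  have hp1 : (1 : ℝ) < p := by exact_mod_cast hp.1.one_lt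
  have hp2 := inv_lt_one_of_one_lt₀ hp1
  have hf : Chr fun x : ℚ_[p] => ((x.valuation : ℤ) : ZMod 2) := fun x y hx hy => by
    simp [Padic.valuation_mul hx hy]
  have hv : ∀ {x y : ℚ_[p]}, x ≠ 0 → ‖y‖ = ‖x‖ → y.valuation = x.valuation := fun {x y} hx e => by
    have hy : y ≠ 0 := norm_ne_zero_iff.1 (e ▸ norm_ne_zero_iff.2 hx)
    rwa [Padic.norm_eq_zpow_neg_valuation hx, Padic.norm_eq_zpow_neg_valuation hy,
      zpow_right_inj₀ (by positivity) hp1.ne', neg_inj] at e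
  have h1 : ∀ {a b c x η : ℚ_[p]} {P : Pt W ℚ_[p]} (hs : Split W a b c), Is P x η →
      ‖x - a‖ = (p : ℝ)⁻¹ → dh hs hf P = 1 := fun {a b c x η P} hs hP e => by
    have h0 : (p : ℚ_[p]) ≠ 0 := by exact_mod_cast hp.1.ne_zero
    show (((dl a b c P).valuation : ℤ) : ZMod 2) = 1
    rw [hP.dl_ne (norm_ne_zero_iff.1 (by rw [e]; positivity)), hv h0 (e.trans Padic.norm_p.symm)]
    simp
  have : goodRed W p = ((dh h hf).prod (dh h.swap hf)).ker := by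
    ext P
    rw [mem_goodRed h2 h (h12 ▸ hp2), SetLike.mem_coe, AddMonoidHom.mem_ker,
      AddMonoidHom.prod_apply, Prod.mk_eq_zero]
    refine ⟨fun H => ?_, fun H x η hP => not_lt.1 fun hx => ?_⟩
    · rcases zero_or_is P with rfl | ⟨x, η, hP⟩
      · simp
      have h3 := H x η hP
      have h4 := norm_sub_eq (h12.trans_lt (hp2.trans_le h3))
      have h5 := norm_sub_eq (h13.trans_lt (hp2.trans_le h3))
      have h6 : x - e₁ ≠ 0 := norm_pos_iff.1 (by linarith)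
      have h7 : x - e₂ ≠ 0 := norm_pos_iff.1 (by linarith)
      have h8 : x - e₃ ≠ 0 := norm_pos_iff.1 (by linarith)
      rw [dh_eq _ _ hP h7 h8, dh_eq _ _ hP h6 h8, hv h6 h4, hv h6 h5]
      exact ⟨CharTwo.add_self_eq_zero _, CharTwo.add_self_eq_zero _⟩
    · have h3 : ‖x - e₁‖ ≤ (p : ℝ)⁻¹ := by
        simpa using (Padic.norm_le_pow_iff_norm_lt_pow_add_one _ (-1)).2 (by simpa using hx)
      rcases h3.eq_or_lt with h4 | h4
      · exact one_ne_zero ((h1 h hP h4).symm.trans H.1)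
      · refine one_ne_zero ((h1 h.swap hP ?_).symm.trans H.2)
        rw [← h12] at h4 ⊢
        exact Padic.norm_eq_of_norm_sub_lt_right (by rwa [sub_sub_sub_cancel_right])
  rw [this, AddSubgroup.closure_eq, AddSubgroup.index_ker]
  obtain ⟨A, hA⟩ := h.exists_is (x := ↑e₁) (η := 0) (by simp)
  obtain ⟨B, hB⟩ := h.exists_is (x := ↑e₂) (η := 0) (by simp)
  have a1 : dh h hf A = 0 := by
    rw [dh_eq _ _ hA h.n12 h.n13, hv h.n13 (h12.trans h13.symm)]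
    exact CharTwo.add_self_eq_zero _
  have a2 := h1 h.swap hA h12
  have b1 := h1 h hB ((norm_sub_rev _ _).trans h12)
  rw [AddMonoidHom.range_eq_top.2 fun z => ?_]
  · simp
  · have : ∀ (z : ZMod 2 × ZMod 2) (b : ZMod 2), z = (0, 0) ∨ z = (0, 1) ∨ z = (1, b) ∨
        z = (0 + 1, 1 + b) := by decide
    rcases this z (dh h.swap hf B) with rfl | rfl | rfl | rfl
    exacts [⟨0, by simp⟩, ⟨A, by simp [a1, a2]⟩, ⟨B, by simp [b1]⟩, ⟨A + B, by simp [a1, a2, b1]⟩]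

theorem exists_chr : ∃ f : ℚ_[p] → ZMod 2, Chr f ∧ (∀ a b, ‖a - b‖ < ‖b‖ → f a = f b) ∧
    ∀ u : ℤ_[p], ¬ IsSquare (toZMod u) → f u = 1 := by
  have hp0 : (p : ℝ) ≠ 0 := by exact_mod_cast hp.1.ne_zero
  have hp1 : (1 : ℝ) < p := by exact_mod_cast hp.1.one_lt
  have hq0 : (p : ℚ_[p]) ≠ 0 := by exact_mod_cast hp.1.ne_zero
  have hu : ∀ x : ℚ_[p], x ≠ 0 → ‖x * p ^ (-x.valuation)‖ = 1 := fun x hx => by
    rw [norm_mul, Padic.norm_p_zpow, Padic.norm_eq_zpow_neg_valuation hx, ← zpow_add₀ hp0]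
    simp
  have hv : ∀ {x y : ℚ_[p]}, x ≠ 0 → ‖y‖ = ‖x‖ → y.valuation = x.valuation := fun {x y} hx e => by
    have hy : y ≠ 0 := norm_ne_zero_iff.1 (e ▸ norm_ne_zero_iff.2 hx)
    rwa [Padic.norm_eq_zpow_neg_valuation hx, Padic.norm_eq_zpow_neg_valuation hy,
      zpow_right_inj₀ (by positivity) hp1.ne', neg_inj] at e
  let u : ℚ_[p] → ℤ_[p] := fun x => if h : x = 0 then 0 else ⟨_, (hu x h).le⟩
  have e : ∀ x, x ≠ 0 → (u x : ℚ_[p]) = x * p ^ (-x.valuation) := fun x hx => by simp [u, hx]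
  have h0 : ∀ x, x ≠ 0 → toZMod (u x) ≠ 0 := fun x hx h =>
    (toZMod_eq_zero.1 h).ne (by rw [norm_def, e x hx, hu x hx])
  refine ⟨fun x => if quadraticChar (ZMod p) (toZMod (u x)) = 1 then 0 else 1, fun x y hx hy => ?_,
    fun a b h => ?_, fun v h => ?_⟩
  · have : u (x * y) = u x * u y := PadicInt.ext (by
      rw [coe_mul, e _ hx, e _ hy, e _ (mul_ne_zero hx hy), Padic.valuation_mul hx hy, neg_add,
        zpow_add₀ hq0]
      ring)
    simp only [this, map_mul]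
    rcases quadraticChar_dichotomy (h0 x hx) with h | h <;>
      rcases quadraticChar_dichotomy (h0 y hy) with h' | h' <;> simp [h, h']
    rfl
  · have hb : b ≠ 0 := norm_pos_iff.1 ((norm_nonneg _).trans_lt h)
    have h1 := Padic.norm_eq_of_norm_sub_lt_right h
    have ha : a ≠ 0 := norm_ne_zero_iff.1 (h1 ▸ norm_ne_zero_iff.2 hb)
    have : toZMod (u a) = toZMod (u b) := by
      rw [← sub_eq_zero, ← map_sub, toZMod_eq_zero, norm_def, coe_sub, e _ ha, e _ hb, hv hb h1,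
        ← sub_mul, ← hu b hb, norm_mul, norm_mul]
      exact mul_lt_mul_of_pos_right h (norm_pos_iff.2 (zpow_ne_zero _ hq0))
    simp only [this]
  · have h1 : ‖(v : ℚ_[p])‖ = ‖(1 : ℚ_[p])‖ := by
      rw [norm_one]
      exact v.2.eq_of_not_lt fun h1 => h (toZMod_eq_zero.2 h1 ▸ IsSquare.zero)
    have h2 : (v : ℚ_[p]) ≠ 0 := norm_ne_zero_iff.1 (by simp [h1])
    have : u v = v := PadicInt.ext (by rw [e _ h2, hv one_ne_zero h1]; simp)
    simp [this, quadraticChar_neg_one_iff_not_isSquare.2 h]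

theorem index_nonsplit (h2 : p ≠ 2) {e₁ e₂ e₃ : ℤ_[p]} (h : Split W (e₁ : ℚ_[p]) e₂ e₃)
    (h12 : ‖(e₁ : ℚ_[p]) - e₂‖ < 1) (h13 : ¬ IsSquare (toZMod (e₁ - e₃))) :
    (AddSubgroup.closure (goodRed W p)).index = 2 := by
  obtain ⟨f, hf, f1, f2⟩ := exists_chr (p := p)
  have h3 : ‖(e₁ : ℚ_[p]) - e₃‖ = 1 :=
    (e₁ - e₃).2.eq_of_not_lt fun h1 => h13 (toZMod_eq_zero.2 h1 ▸ IsSquare.zero)
  have h1 : ∀ {x η : ℚ_[p]} {P : Pt W ℚ_[p]}, Is P x η → ‖x - e₁‖ < 1 →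
      dh h.swap'.swap hf P = 1 := fun {x η P} hP hx => by
    have h4 : ‖x - e₃ - (e₁ - e₃)‖ < ‖(e₁ : ℚ_[p]) - e₃‖ := by rwa [sub_sub_sub_cancel_right, h3]
    show f (dl _ _ _ P) = 1
    rw [hP.dl_ne (norm_ne_zero_iff.1 (by simp [Padic.norm_eq_of_norm_sub_lt_right h4, h3])),
      f1 _ _ h4]
    exact f2 _ h13
  have : goodRed W p = (dh h.swap'.swap hf).ker := by
    ext P
    rw [mem_goodRed h2 h h12, SetLike.mem_coe, AddMonoidHom.mem_ker]
    refine ⟨fun H => ?_, fun H x η hP => not_lt.1 fun hx => one_ne_zero ((h1 hP hx).symm.trans H)⟩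
    rcases zero_or_is P with rfl | ⟨x, η, hP⟩
    · simp
    have h4 := H x η hP
    have h5 := norm_sub_eq (h12.trans_le h4)
    rw [dh_eq _ _ hP (norm_pos_iff.1 (by linarith)) (norm_pos_iff.1 (by linarith)),
      f1 (x - e₂) (x - e₁) (by rw [sub_sub_sub_cancel_left]; exact h12.trans_le h4)]
    exact CharTwo.add_self_eq_zero _
  rw [this, AddSubgroup.closure_eq, AddSubgroup.index_ker]
  obtain ⟨A, hA⟩ := h.exists_is (x := ↑e₁) (η := 0) (by simp)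
  rw [AddMonoidHom.range_eq_top.2 fun z => ?_]
  · simp
  · have : ∀ z : ZMod 2, z = 0 ∨ z = 1 := by decide
    rcases this z with rfl | rfl
    exacts [⟨0, map_zero _⟩, ⟨A, h1 hA (by simp)⟩]

end Pool.Agent.P.MP_9c97e9_nt
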