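import Mathlib

/-! The invariants in the Birch and Swinnerton-Dyer formula of an integral Weierstrass model. -/

namespace Pool.Agent.P.MP_9c97e9_nt

open WeierstrassCurve

open Classical in
/-- The group of points over a field `K`, the point at infinity included. -/
abbrev Pt (W : WeierstrassCurve ℤ) (K : Type) [Field K] : Type := (W⁄K).toAffine.Point

/-- `a_p = p + 1 - N`, where `N` is the number of points of the reduction of `W` modulo `p` (the
point at infinity and the singular point, if any, included). -/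
noncomputable def ap (W : WeierstrassCurve ℤ) (p : ℕ) : ℤ :=
  p - Nat.card {q : ZMod p × ZMod p // (W⁄(ZMod p)).toAffine.Equation q.1 q.2}

/-- `L` is entire and is given by the Hasse-Weil Euler product over all primes for `Re s > 3/2`. -/
def IsL (W : WeierstrassCurve ℤ) (L : ℂ → ℂ) : Prop :=
  Differentiable ℂ L ∧ ∀ s : ℂ, 3 / 2 < s.re →
    HasProd (fun p : Nat.Primes => (1 - ap W p * (p : ℂ) ^ (-s) +
      if (p : ℤ) ∣ W.Δ then 0 else (p : ℂ) ^ (1 - 2 * s))⁻¹) (L s)

/-- The square of `2 y + a₁ x + a₃` on the curve. -/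
def cub (W : WeierstrassCurve ℤ) (x : ℝ) : ℝ := 4 * x ^ 3 + W.b₂ * x ^ 2 + 2 * W.b₄ * x + W.b₆

/-- The integral of `|dx / (2 y + a₁ x + a₃)|` over the real points. -/
noncomputable def period (W : WeierstrassCurve ℤ) : ℝ :=
  2 * ∫ x in {x : ℝ | 0 < cub W x}, 1 / √(cub W x)

/-- The points over the `p`-adic numbers whose reduction is non-singular. -/
def goodRed (W : WeierstrassCurve ℤ) (p : ℕ) [Fact p.Prime] : Set (Pt W ℚ_[p]) :=
  {P | ∀ (x y : ℤ_[p]) (h : (W⁄ℚ_[p]).toAffine.Nonsingular x y), P = .some x y h →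
    (W⁄(ZMod p)).toAffine.Nonsingular (PadicInt.toZMod x) (PadicInt.toZMod y)}

open Classical in
/-- The Tamagawa number at `p`. -/
noncomputable def tamagawa (W : WeierstrassCurve ℤ) (p : Nat.Primes) : ℕ :=
  haveI := Fact.mk p.2
  (AddSubgroup.closure (goodRed W p)).index

open Classical in
/-- The map on points induced by a homomorphism of fields. -/
noncomputable def pm (W : WeierstrassCurve ℤ) {F K : Type} [Field F] [Field K] (f : F →+* K) :
    Pt W F →+ Pt W K :=
  Affine.Point.map f.toIntAlgHom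

abbrev Qb : Type := AlgebraicClosure ℚ

/-- The absolute Galois group of a field, with the Krull topology. -/
abbrev Gal (K : Type) [Field K] : Type := AlgebraicClosure K ≃ₐ[K] AlgebraicClosure K

/-- A fixed embedding of the algebraic closure of `F` in that of `K`. -/
noncomputable def emb (F K : Type) [Field F] [Field K] [Algebra F K] :
    AlgebraicClosure F →+* AlgebraicClosure K :=
  (IsAlgClosed.lift : AlgebraicClosure F →ₐ[F] AlgebraicClosure K)

open Classical in
/-- The restriction of `c` to the absolute Galois group of `K` is a coboundary. -/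
def LocTriv (W : WeierstrassCurve ℤ) (K : Type) [Field K] [CharZero K] (c : Gal ℚ → Pt W Qb) :
    Prop :=
  ∃ P : Pt W (AlgebraicClosure K), ∀ (σ : Gal K) (τ : Gal ℚ),
    (∀ x, emb ℚ K (τ x) = σ (emb ℚ K x)) → pm W (emb ℚ K) (c τ) = pm W σ P - P

theorem LocTriv.zero (W : WeierstrassCurve ℤ) (K : Type) [Field K] [CharZero K] :
    LocTriv W K 0 := ⟨0, fun _ _ _ => by simp⟩

open Classical in
theorem LocTriv.add {W : WeierstrassCurve ℤ} {K : Type} [Field K] [CharZero K]
    {c d : Gal ℚ → Pt W Qb} (hc : LocTriv W K c) (hd : LocTriv W K d) : LocTriv W K (c + d) := by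
  obtain ⟨P, hP⟩ := hc
  obtain ⟨Q, hQ⟩ := hd
  refine ⟨P + Q, fun σ τ h => ?_⟩
  rw [Pi.add_apply, map_add, hP σ τ h, hQ σ τ h, map_add]
  abel

open Classical in
theorem LocTriv.neg {W : WeierstrassCurve ℤ} {K : Type} [Field K] [CharZero K]
    {c : Gal ℚ → Pt W Qb} (hc : LocTriv W K c) : LocTriv W K (-c) := by
  obtain ⟨P, hP⟩ := hc
  refine ⟨-P, fun σ τ h => ?_⟩
  rw [Pi.neg_apply, map_neg, hP σ τ h, map_neg]
  abel

open Classical in
/-- The continuous 1-cocycles of the absolute Galois group of the rationals with values in the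
points of `W` that become coboundaries over the reals and over all `p`-adic fields. -/
noncomputable def shaCocycles (W : WeierstrassCurve ℤ) : AddSubgroup (Gal ℚ → Pt W Qb) where
  carrier := {c | IsLocallyConstant c ∧ (∀ σ τ, c (σ * τ) = c σ + pm W σ (c τ)) ∧
    LocTriv W ℝ c ∧ ∀ (p : ℕ) [Fact p.Prime], LocTriv W ℚ_[p] c}
  zero_mem' := ⟨IsLocallyConstant.const _, fun _ _ => by simp, .zero _ _, fun _ _ => .zero _ _⟩
  add_mem' := fun {c d} hc hd => ⟨hc.1.add hd.1, fun σ τ => by
    rw [Pi.add_apply, Pi.add_apply, Pi.add_apply, hc.2.1, hd.2.1, map_add]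
    abel, hc.2.2.1.add hd.2.2.1, fun p _ => (hc.2.2.2 p).add (hd.2.2.2 p)⟩
  neg_mem' := fun {c} hc => ⟨hc.1.neg, fun σ τ => by
    rw [Pi.neg_apply, Pi.neg_apply, Pi.neg_apply, hc.2.1, map_neg]
    abel, hc.2.2.1.neg, fun p _ => (hc.2.2.2 p).neg⟩

open Classical in
/-- The 1-coboundaries. -/
noncomputable def coboundaries (W : WeierstrassCurve ℤ) : AddSubgroup (Gal ℚ → Pt W Qb) :=
  (AddMonoidHom.pi fun σ : Gal ℚ => pm W σ - AddMonoidHom.id (Pt W Qb)).range

open Classical in
/-- The Tate-Shafarevich group. -/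
def Sha (W : WeierstrassCurve ℤ) : Type :=
  shaCocycles W ⧸ (coboundaries W).addSubgroupOf (shaCocycles W)

open Classical in
/-- The quotient group structure. -/
noncomputable instance shaGroup (W : WeierstrassCurve ℤ) : AddCommGroup (Sha W) :=
  QuotientAddGroup.Quotient.addCommGroup _

/-- A global minimal model of the twist of `X₀(15)` by `-n`. -/
def tw (n : ℕ) : WeierstrassCurve ℤ := ⟨1, (7 * n - 1) / 4, 0, -9 * n ^ 2, 0⟩

end Pool.Agent.P.MP_9c97e9_nt
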