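import Pool.Agent.P.MP_9c97e9_nt.Defs

/-! Auxiliary definitions (not used in the final statement). -/

namespace Pool.Agent.P.MP_9c97e9_nt

/-- The 2-covering attached to `(d₁, d₂, d₁ d₂)` has a point over `K`. -/
def Loc (K : Type) [Field K] (e₁ e₂ e₃ d₁ d₂ : K) : Prop :=
  (IsSquare d₁ ∧ IsSquare d₂) ∨
    ∃ x w₁ w₂ w₃ : K, x - e₁ = d₁ * w₁ ^ 2 ∧ x - e₂ = d₂ * w₂ ^ 2 ∧ x - e₃ = d₁ * d₂ * w₃ ^ 2

/-- Half of the imaginary period of `y ^ 2 = 4 x ^ 3 - 7 x ^ 2 - 36 x`. -/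
noncomputable def II : ℝ := ∫ θ in (0 : ℝ)..Real.pi, 1 / √(17 - 8 * Real.cos θ)

end Pool.Agent.P.MP_9c97e9_nt
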