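import Pool.Agent.P.MP_8b7eba_nt.BSD15.CNF

/-! The sign of the quadratic Gauss sum. -/

namespace Pool.Agent.P.MP_9c97e9_nt

open MP_8b7eba_nt Complex Filter Topology MeasureTheory Set Asymptotics
open scoped Real

theorem gauss_mellin {w : ℂ} (hw : ‖w‖ = 1) (h1 : w ≠ 1) :
    ∃ M : ℂ → ℂ, ContinuousAt M 1 ∧ M 1 = -log (1 - w) ∧ ∀ s : ℂ, 1 < s.re →
      HasSum (fun k : ℕ => Gamma s * LSeries.term (fun k => w ^ k) s k) (M s) := by
  have hre : w.re < 1 := by
    refine lt_of_le_of_ne (hw ▸ re_le_norm w) fun h => h1 ?_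
    have h2 := Complex.sq_norm w
    rw [hw, normSq_apply, h] at h2
    exact Complex.ext h (by simp only [one_im]; nlinarith)
  obtain ⟨c, hc0, hc⟩ : ∃ c : ℝ, 0 < c ∧ ∀ t : ℝ, 0 ≤ t → c ≤ (1 - w * Real.exp (-t)).re := by
    refine ⟨min 1 (1 - w.re), lt_min one_pos (by linarith), fun t ht => ?_⟩
    have e0 := Real.exp_pos (-t)
    have e1 : Real.exp (-t) ≤ 1 := Real.exp_le_one_iff.mpr (by linarith)
    rw [sub_re, one_re, re_mul_ofReal]
    rcases le_total 0 w.re with h | h
    · exact (min_le_right _ _).trans (by nlinarith)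
    · exact (min_le_left _ _).trans (by nlinarith)
  set g : ℝ → ℂ := fun t => w * Real.exp (-t) / (1 - w * Real.exp (-t)) with hg
  have hsl : ∀ t : ℝ, 0 ≤ t → 1 - w * Real.exp (-t) ∈ slitPlane := fun t ht =>
    Or.inl (hc0.trans_le (hc t ht))
  have hb : ∀ t : ℝ, 0 ≤ t → ‖g t‖ ≤ c⁻¹ * Real.exp (-t) := fun t ht => by
    rw [hg, norm_div, norm_mul, hw, one_mul, norm_real, Real.norm_of_nonneg (Real.exp_pos _).le,
      inv_mul_eq_div]
    exact div_le_div_of_nonneg_left (Real.exp_pos _).le hc0 ((hc t ht).trans (re_le_norm _))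
  have hgc : ContinuousOn g (Ioi 0) :=
    ContinuousOn.div (by fun_prop) (by fun_prop) fun t ht => slitPlane_ne_zero (hsl t (le_of_lt ht))
  have hgi : IntegrableOn g (Ioi 0) := by
    refine Integrable.mono' ((integrableOn_exp_neg_Ioi 0).const_mul c⁻¹)
      (hgc.aestronglyMeasurable measurableSet_Ioi) ?_
    exact (ae_restrict_iff' measurableSet_Ioi).2 (ae_of_all _ fun t ht => hb t (le_of_lt ht))
  refine ⟨mellin g, ?_, ?_, fun s hs => ?_⟩
  · refine (mellin_differentiableAt_of_isBigO_rpow_exp (a := 1) (b := 0) one_pos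
      hgi.locallyIntegrableOn ?_ ?_ (by simp)).continuousAt
    · refine IsBigO.of_bound c⁻¹ ?_
      filter_upwards [eventually_ge_atTop 0] with t ht
      simpa using hb t ht
    · refine IsBigO.of_bound c⁻¹ (eventually_nhdsWithin_of_forall fun t ht => ?_)
      refine (hb t (le_of_lt ht)).trans ?_
      simp only [neg_zero, Real.rpow_zero, norm_one]
      exact mul_le_mul_of_nonneg_left (Real.exp_le_one_iff.mpr (by simpa using le_of_lt ht))
        (by positivity)
  · have hd : ∀ t ∈ Ici (0 : ℝ), HasDerivAt (fun t : ℝ => log (1 - w * Real.exp (-t))) (g t) t := by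
      intro t ht
      have h2 : HasDerivAt (fun t : ℝ => Real.exp (-t)) (-Real.exp (-t)) t := by
        simpa using (hasDerivAt_neg t).exp
      refine (((h2.ofReal_comp.const_mul w).const_sub 1).clog_real (hsl t ht)).congr_deriv ?_
      simp [hg]
    have hl : Tendsto (fun t : ℝ => log (1 - w * Real.exp (-t))) atTop (𝓝 0) := by
      have h2 : ContinuousAt (fun r : ℝ => log (1 - w * r)) 0 :=
        ContinuousAt.clog (by fun_prop) (by simp)
      simpa [Function.comp_def] using h2.tendsto.comp Real.tendsto_exp_neg_atTop_nhds_zero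
    simpa [mellin] using integral_Ioi_of_hasDerivAt_of_tendsto' hd hgi hl
  · have h2 := hasSum_mellin (a := fun k : ℕ => if k = 0 then 0 else w ^ k) (p := fun k => k)
      (F := g) (s := s) (fun k => by rcases k with _ | k; exacts [Or.inl (if_pos rfl), Or.inr (by positivity)]) (by linarith)
      (fun t ht => ?_) ?_
    · refine h2.congr_fun fun k => ?_
      rcases k with _ | k
      · simp
      · simp [LSeries.term, mul_div_assoc]
    · have h3 : ‖w * Real.exp (-t)‖ < 1 := by
        rw [norm_mul, hw, one_mul, norm_real, Real.norm_of_nonneg (Real.exp_pos _).le]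
        exact Real.exp_lt_one_iff.mpr (by simpa using ht)
      rw [← hasSum_nat_add_iff' 1]
      simp only [Finset.range_one, Finset.sum_singleton, if_true, zero_mul, sub_zero]
      refine ((hasSum_geometric_of_norm_lt_one h3).mul_left (w * Real.exp (-t))).congr_fun
        fun k => ?_
      rw [if_neg k.succ_ne_zero, ← pow_succ', mul_pow, ← ofReal_pow, ← Real.exp_nat_mul]
      congr 3
      ring
    · refine Summable.of_nonneg_of_le (fun k => by positivity) (fun k => ?_)
        (Real.summable_one_div_nat_rpow.mpr hs)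
      gcongr
      split_ifs <;> simp [hw]

theorem gauss_arg {θ : ℝ} (h0 : 0 < θ) (h1 : θ < π) :
    (log (1 - cexp (2 * θ * I))).im = θ - π / 2 := by
  have h2 : 1 - cexp (2 * θ * I) = ((2 * Real.sin θ : ℝ) : ℂ) *
      (cos ((θ - π / 2 : ℝ) : ℂ) + sin ((θ - π / 2 : ℝ) : ℂ) * I) := by
    rw [← ofReal_cos, ← ofReal_sin, Real.cos_sub_pi_div_two, Real.sin_sub_pi_div_two,
      mul_assoc, two_mul, exp_add, exp_mul_I]
    push_cast
    linear_combination (-1 : ℂ) * sin_sq_add_cos_sq (θ : ℂ) - sin (θ : ℂ) ^ 2 * I_sq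
  rw [log_im, h2, arg_mul_cos_add_sin_mul_I (mul_pos two_pos (Real.sin_pos_of_pos_of_lt_pi h0 h1))
    ⟨by linarith, by linarith⟩]

open scoped ComplexOrder in
theorem gauss_pos {n : ℕ} [BSD15.Good n] {s : ℝ} (hs : 1 < s) :
    0 ≤ LSeries (fun k => (jacobiSym k n : ℂ)) s := by
  have hs' : 1 < (s : ℂ).re := hs
  have h1 := LSeries_convolution' (LSeriesSummable_one_iff.mpr hs')
    (LSeriesSummable_of_bounded_of_one_lt_re (f := fun k => (jacobiSym k n : ℂ)) (m := 1)
      (fun k _ => by rcases jacobiSym.trichotomy k n with h | h | h <;> simp [h]) hs')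
  rw [LSeries_one_eq_riemannZeta hs'] at h1
  have h2 := riemannZeta_pos_of_one_lt hs
  rw [← inv_mul_cancel_left₀ h2.ne' (LSeries _ _), ← h1]
  refine mul_nonneg (RCLike.inv_pos_of_pos h2).le ?_
  refine tsum_nonneg fun k => ?_
  rcases Nat.eq_zero_or_pos k with rfl | hk
  · simp
  · refine LSeries.term_nonneg ?_ s
    have h3 := BSD15.cnf_count (n := n) k
    rw [if_neg hk.ne', zero_add] at h3
    have h4 : (0 : ℝ) ≤ 2 * BSD15.Rn n k := h3 ▸ Finset.sum_nonneg fun _ _ => by positivity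
    have h5 : 0 ≤ BSD15.Rn n k := by
      have : (0 : ℝ) ≤ BSD15.Rn n k := by linarith
      exact_mod_cast this
    rw [LSeries.convolution_def]
    simp only [Pi.one_apply, one_mul]
    rw [Nat.sum_divisorsAntidiagonal' fun _ y => (jacobiSym (y : ℕ) n : ℂ)]
    rw [BSD15.Rn] at h5
    exact_mod_cast h5

theorem gauss_sum {n : ℕ} (hn : Squarefree n) (h4 : n % 4 = 3) (h3 : n % 3 = 2) :
    ∑ a ∈ Finset.range n, (jacobiSym a n : ℂ) * cexp (2 * π * I * (a / n)) = I * (√n : ℝ) := by
  have : BSD15.Good n := ⟨hn, h4, by omega⟩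
  have h1 : 1 < n := by omega
  have hodd : Odd n := Nat.odd_iff.mpr (by omega)
  have hn0 : (0 : ℝ) < n := by positivity
  have hn1 : (n : ℂ) ≠ 0 := by exact_mod_cast hn0.ne'
  obtain ⟨τ, -, hG⟩ := BSD15.exists_gauss h1 hodd hn
  obtain ⟨ζ, hζ⟩ : ∃ ζ, ζ = cexp (2 * π * I / n) := ⟨_, rfl⟩
  have hprim : IsPrimitiveRoot ζ n := hζ ▸ Complex.isPrimitiveRoot_exp n (by omega)
  have he : ∀ a m : ℕ, cexp (2 * π * I * (a * m / n)) = (ζ ^ a) ^ m := by
    intro a m
    rw [hζ, ← pow_mul, ← Complex.exp_nat_mul]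
    congr 1
    push_cast
    ring
  have hτ : ∑ a ∈ Finset.range n, (jacobiSym a n : ℂ) * cexp (2 * π * I * (a / n)) = τ := by
    simpa using hG 1
  rw [hτ]
  simp only [he] at hG
  have hj0 : jacobiSym ((0 : ℕ) : ℤ) n = 0 := jacobiSym.zero_left h1
  have hsq : τ ^ 2 = -n := by
    have h5 : ∑ a ∈ Finset.range n, (jacobiSym a n : ℂ) * ζ ^ a = τ := by simpa using hG 1
    have h6 : τ ^ 2 = ∑ b ∈ Finset.range n, (jacobiSym b n : ℂ) *
        ∑ a ∈ Finset.range n, (ζ ^ (b + 1)) ^ a := by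
      simp only [Finset.mul_sum]
      rw [Finset.sum_comm, sq]
      nth_rewrite 1 [← h5]
      rw [Finset.sum_mul]
      refine Finset.sum_congr rfl fun a _ => ?_
      rw [mul_right_comm, ← hG a, Finset.sum_mul]
      refine Finset.sum_congr rfl fun b _ => ?_
      ring
    rw [h6, Finset.sum_eq_single (n - 1)]
    · have h7 : jacobiSym ((n - 1 : ℕ) : ℤ) n = -1 := by
        rw [jacobiSym.mod_left' (a₂ := -1) (by
          rw [Nat.cast_sub h1.le, sub_eq_add_neg, add_comm, Int.add_emod_right]; rfl),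
          jacobiSym.at_neg_one hodd, ZMod.χ₄_nat_three_mod_four h4]
      rw [h7, Nat.sub_add_cancel h1.le, hprim.pow_eq_one]
      simp
    · intro b hb hb1
      have hb' := Finset.mem_range.1 hb
      have h7 : ζ ^ (b + 1) ≠ 1 := hprim.pow_ne_one_of_pos_of_lt b.succ_ne_zero (by omega)
      have h8 := mul_geom_sum (ζ ^ (b + 1)) n
      rw [← pow_mul, mul_comm (b + 1) n, pow_mul, hprim.pow_eq_one, one_pow, sub_self] at h8
      rw [(mul_eq_zero.1 h8).resolve_left (sub_ne_zero.2 h7), mul_zero]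
    · intro h
      exact absurd (Finset.mem_range.2 (by omega)) h
  have hsq' : τ ^ 2 = (I * (√n : ℝ)) ^ 2 := by
    rw [hsq, mul_pow, I_sq, ← ofReal_pow, Real.sq_sqrt hn0.le]
    simp
  refine (sq_eq_sq_iff_eq_or_eq_neg.mp hsq').resolve_right fun hneg => ?_
  have key : ∀ a : ℕ, ∃ M : ℂ → ℂ, a ∈ Finset.range n → ContinuousAt M 1 ∧
      (M 1).im = jacobiSym a n * (π / 2 - π * a / n) ∧ ∀ s : ℂ, 1 < s.re → HasSum (fun k : ℕ =>
        (jacobiSym a n : ℂ) * (Gamma s * LSeries.term (fun k => (ζ ^ a) ^ k) s k)) (M s) := by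
    intro a
    by_cases ha : a ∈ Finset.range n
    swap
    · exact ⟨0, fun h => absurd h ha⟩
    rcases Nat.eq_zero_or_pos a with rfl | ha0
    · exact ⟨0, fun _ => ⟨continuousAt_const, by rw [hj0]; simp, fun s _ => by
        rw [hj0]; simp⟩⟩
    have ha' := Finset.mem_range.1 ha
    have ha1 : (a : ℝ) < n := by exact_mod_cast ha'
    obtain ⟨M, hM1, hM2, hM3⟩ := gauss_mellin (w := ζ ^ a)
      (by rw [norm_pow, hprim.norm'_eq_one (by omega), one_pow])
      (hprim.pow_ne_one_of_pos_of_lt ha0.ne' ha')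
    refine ⟨fun s => jacobiSym a n * M s, fun _ => ⟨continuousAt_const.mul hM1, ?_,
      fun s hs => (hM3 s hs).mul_left _⟩⟩
    have h5 : ζ ^ a = cexp (2 * ((π * a / n : ℝ) : ℂ) * I) := by
      rw [hζ, ← Complex.exp_nat_mul]
      congr 1
      push_cast
      ring
    have h6 := gauss_arg (θ := π * a / n) (by positivity)
      (by rw [div_lt_iff₀ hn0]; exact mul_lt_mul_of_pos_left ha1 Real.pi_pos)
    beta_reduce
    rw [hM2, h5, ← ofReal_intCast, im_ofReal_mul, neg_im, h6]
    ring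
  choose M hM using key
  have h5 : ∀ s : ℝ, 1 < s → (∑ a ∈ Finset.range n, M a s).im ≤ 0 := by
    intro s hs
    have h6 := hasSum_sum (s := Finset.range n) fun a ha => (hM a ha).2.2 s hs
    have h7 : ∑ a ∈ Finset.range n, M a s =
        τ * Gamma s * LSeries (fun k => (jacobiSym k n : ℂ)) s := by
      rw [← h6.tsum_eq, LSeries, ← tsum_mul_left]
      refine tsum_congr fun k => ?_
      rcases Nat.eq_zero_or_pos k with rfl | hk
      · simp
      · simp only [LSeries.term_of_ne_zero hk.ne']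
        rw [mul_assoc, mul_div_assoc', mul_div_assoc', mul_left_comm, mul_comm τ, ← hG k,
          Finset.mul_sum, Finset.sum_div]
        exact Finset.sum_congr rfl fun a _ => by ring
    obtain ⟨h8, h9⟩ := Complex.nonneg_iff.mp (gauss_pos (n := n) hs)
    have h10 := Real.Gamma_pos_of_pos (s := s) (by linarith)
    rw [h7, hneg, Gamma_ofReal]
    simp only [neg_mul, neg_im, mul_im, mul_re, I_re, I_im, ofReal_re, ofReal_im, ← h9]
    simp only [zero_mul, mul_zero, sub_zero, one_mul, zero_add, neg_nonpos]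
    positivity
  have h6 : ContinuousAt (fun s : ℝ => (∑ a ∈ Finset.range n, M a s).im) 1 :=
    continuous_im.continuousAt.comp (tendsto_finsetSum _ fun a ha =>
      (hM a ha).1.tendsto.comp (continuous_ofReal.tendsto 1))
  have h7 := le_of_tendsto (h6.tendsto.mono_left (nhdsWithin_le_nhds (s := Ioi 1)))
    (eventually_nhdsWithin_of_forall h5)
  have h8 : (0 : ℝ) < BSD15.Bn n := by
    have h9 : (0 : ℚ) < BSD15.Bn n := by
      rw [← BSD15.class_number_formula n]
      exact_mod_cast Fintype.card_pos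
    exact_mod_cast h9
  have h9 : ∑ a ∈ Finset.range n, (jacobiSym a n : ℝ) = 0 := by
    exact_mod_cast BSD15.sum_jacobi_eq_zero h1 hodd hn
  rw [im_sum, ofReal_one, Finset.sum_congr rfl fun a ha => (hM a ha).2.1] at h7
  have h10 : ∑ a ∈ Finset.range n, (jacobiSym a n : ℝ) * (π / 2 - π * a / n) =
      π * BSD15.Bn n := by
    simp only [mul_sub, Finset.sum_sub_distrib, ← Finset.sum_mul, h9, BSD15.Bn]
    push_cast
    rw [mul_neg, Finset.mul_sum, zero_mul, zero_sub, neg_inj]
    exact Finset.sum_congr rfl fun a _ => by ring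
  rw [h10] at h7
  exact absurd (mul_pos Real.pi_pos h8) (not_lt.mpr h7)

end Pool.Agent.P.MP_9c97e9_nt
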