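import Pool.Agent.P.MP_9c97e9_nt.Defs2
import Pool.Agent.P.MP_8b7eba_nt.ModTwist

/-! The discriminant, minimality and the Euler factors of the model `tw n`. -/

namespace Pool.Agent.P.MP_9c97e9_nt

open MP_8b7eba_nt Complex WeierstrassCurve Finset

lemma ap_four {n : ℕ} (h4 : n % 4 = 3) : 4 * ((7 * (n : ℤ) - 1) / 4) = 7 * n - 1 := by omega

theorem tw_Δ {n : ℕ} (h4 : n % 4 = 3) : (tw n).Δ = 15 ^ 4 * n ^ 6 := by
  have h := ap_four h4
  simp only [tw, Δ, b₂, b₄, b₆, b₈]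
  generalize (7 * (n : ℤ) - 1) / 4 = a at h
  have h' : (1 : ℤ) ^ 2 + 4 * a = 7 * n := by linarith
  rw [h']
  ring

lemma ap_not_dvd {n : ℕ} (hn : Squarefree n) (h3 : n % 3 = 2) (h5 : n % 5 = 2 ∨ n % 5 = 3)
    {p : ℕ} (hp : p.Prime) : ¬ p ^ 12 ∣ 15 ^ 4 * n ^ 6 := by
  intro h
  by_cases hpn : p ∣ n
  · have h15 : p.Coprime 15 := by
      rw [show 15 = 3 * 5 by rfl]
      refine Nat.Coprime.mul_right ?_ ?_
      · rw [Nat.coprime_primes hp Nat.prime_three]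
        rintro rfl
        omega
      · rw [Nat.coprime_primes hp Nat.prime_five]
        rintro rfl
        omega
    have h1 : (p * p) ^ 6 ∣ n ^ 6 := by
      rw [← pow_two, ← pow_mul]
      exact (Nat.Coprime.pow 12 4 h15).dvd_of_dvd_mul_left h
    exact hp.one_lt.ne' (Nat.isUnit_iff.1 (hn p ((Nat.pow_dvd_pow_iff (by norm_num)).1 h1)))
  · have h1 : (p ^ 3) ^ 4 ∣ 15 ^ 4 := by
      rw [← pow_mul]
      exact (Nat.Coprime.pow 12 6 (hp.coprime_iff_not_dvd.2 hpn)).dvd_of_dvd_mul_right h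
    have h2 : p ^ 3 ∣ 15 := (Nat.pow_dvd_pow_iff (by norm_num)).1 h1
    have h6 : p ≤ 15 := Nat.le_of_dvd (by norm_num) ((dvd_pow_self p three_ne_zero).trans h2)
    have h7 := hp.two_le
    interval_cases p <;> omega

theorem tw_minimal {n : ℕ} (hn : Squarefree n) (h4 : n % 4 = 3) (h3 : n % 3 = 2)
    (h5 : n % 5 = 2 ∨ n % 5 = 3) (p : ℕ) [Fact p.Prime] :
    ((tw n).baseChange ℚ_[p]).IsMinimal ℤ_[p] := by
  have hW : ((tw n).baseChange ℚ_[p]).IsIntegral ℤ_[p] :=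
    ⟨(tw n).baseChange ℤ_[p], by ext <;> simp [baseChange]⟩
  have hΔ : ((tw n).baseChange ℚ_[p]).Δ = ((15 ^ 4 * n ^ 6 : ℤ) : ℚ_[p]) := by
    rw [baseChange, map_Δ, tw_Δ h4]
    simp
  refine ⟨⟨by simpa using hW, fun C hC _ => ?_⟩⟩
  have hC' : (C • (tw n).baseChange ℚ_[p]).IsIntegral ℤ_[p] := hC
  simp only [one_smul]
  rw [← Subtype.coe_le_coe, valuation_Δ_aux_eq_of_isIntegral, valuation_Δ_aux_eq_of_isIntegral,
    variableChange_Δ, map_mul, map_pow]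
  refine mul_le_of_le_one_left' (pow_le_one' ?_ _)
  by_cases hu : ‖((C.u⁻¹ : ℚ_[p]ˣ) : ℚ_[p])‖ ≤ 1
  · exact IsDedekindDomain.HeightOneSpectrum.valuation_le_one (K := ℚ_[p])
      (IsDiscreteValuationRing.maximalIdeal ℤ_[p]) (⟨_, hu⟩ : ℤ_[p])
  · exfalso
    have h1 : ‖(C.u : ℚ_[p])‖ < 1 := by
      rw [not_le, Units.val_inv_eq_inv_val, norm_inv] at hu
      exact (one_lt_inv₀ (norm_pos_iff.2 C.u.ne_zero)).1 hu
    obtain ⟨r, hr⟩ := Δ_integral_of_isIntegral ℤ_[p] (C • (tw n).baseChange ℚ_[p])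
    let u : ℤ_[p] := ⟨C.u, h1.le⟩
    have h2 : (p : ℤ_[p]) ∣ u := (PadicInt.norm_lt_one_iff_dvd u).1 h1
    have h6 : ((15 ^ 4 * n ^ 6 : ℤ) : ℤ_[p]) = u ^ 12 * r := by
      apply Subtype.ext
      rw [variableChange_Δ, hΔ] at hr
      change _ = (C.u : ℚ_[p]) ^ 12 * algebraMap ℤ_[p] ℚ_[p] r
      rw [hr, ← mul_assoc, ← mul_pow, Units.mul_inv, one_pow, one_mul]
      exact PadicInt.coe_intCast _
    have h7 : (p : ℤ_[p]) ^ 12 ∣ ((15 ^ 4 * n ^ 6 : ℤ) : ℤ_[p]) :=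
      h6 ▸ (pow_dvd_pow_of_dvd h2 12).mul_right r
    rw [PadicInt.pow_p_dvd_int_iff] at h7
    exact ap_not_dvd hn h3 h5 Fact.out (by exact_mod_cast h7)

lemma ap_eqn (n p : ℕ) (x y : ZMod p) : ((tw n)⁄(ZMod p)).toAffine.Equation x y ↔
    y ^ 2 + x * y = x ^ 3 + (((7 * (n : ℤ) - 1) / 4 : ℤ) : ZMod p) * x ^ 2 - 9 * n ^ 2 * x := by
  rw [Affine.equation_iff]
  simp [tw, baseChange, sub_eq_add_neg]

lemma ap_odd {n : ℕ} (h4 : n % 4 = 3) {p : ℕ} [Fact p.Prime] (hp : p ≠ 2) :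
    ap (tw n) p = -∑ x : ZMod p,
      quadraticChar (ZMod p) (4 * x ^ 3 + 7 * n * x ^ 2 - 36 * n ^ 2 * x) := by
  have h2 : (2 : ZMod p) ≠ 0 := by
    intro h
    have : ((2 : ℕ) : ZMod p) = 0 := by exact_mod_cast h
    rw [ZMod.natCast_eq_zero_iff] at this
    exact hp ((Nat.prime_dvd_prime_iff_eq Fact.out Nat.prime_two).1 this)
  have ha : 4 * (((7 * (n : ℤ) - 1) / 4 : ℤ) : ZMod p) = 7 * n - 1 := by
    have := congrArg (Int.cast : ℤ → ZMod p) (ap_four h4)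
    push_cast at this
    exact this
  let e : ZMod p × ZMod p ≃ ZMod p × ZMod p :=
    (Equiv.refl _).prodShear fun x => (Equiv.mulLeft₀ 2 h2).trans (Equiv.addRight x)
  have h := Mod.card_affine hp fun x : ZMod p => 4 * x ^ 3 + 7 * n * x ^ 2 - 36 * n ^ 2 * x
  rw [ap, Nat.card_congr (e.subtypeEquiv (q := fun q : ZMod p × ZMod p =>
    q.2 ^ 2 = 4 * q.1 ^ 3 + 7 * n * q.1 ^ 2 - 36 * n ^ 2 * q.1) ?_), h]
  · ring
  · rintro ⟨x, y⟩
    rw [ap_eqn]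
    change _ ↔ (2 * y + x) ^ 2 = 4 * x ^ 3 + 7 * n * x ^ 2 - 36 * n ^ 2 * x
    rw [← mul_right_inj' (mul_ne_zero h2 h2)]
    constructor
    · intro h1
      linear_combination h1 + x ^ 2 * ha
    · intro h1
      linear_combination h1 - x ^ 2 * ha

lemma ap_sum {p : ℕ} [Fact p.Prime] (hp : p ≠ 2) (m : ZMod p) :
    ∑ x : ZMod p, quadraticChar (ZMod p) (4 * x ^ 3 + 7 * m * x ^ 2 - 36 * m ^ 2 * x) =
      quadraticChar (ZMod p) (-m) * Mod.Sp p := by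
  have h2 : ringChar (ZMod p) ≠ 2 := by rwa [ZMod.ringChar_zmod_n]
  by_cases hm : m = 0
  · subst hm
    rw [neg_zero, MulChar.map_zero, zero_mul, ← quadraticChar_sum_zero h2]
    refine sum_congr rfl fun x _ => ?_
    by_cases hx : x = 0
    · simp [hx]
    · rw [← one_mul (quadraticChar (ZMod p) x),
        ← quadraticChar_sq_one' (mul_ne_zero (Ring.two_ne_zero h2) hx), ← map_mul]
      congr 1
      ring
  · rw [Mod.Sp, mul_sum, ← Equiv.sum_comp (Equiv.mulLeft₀ (-m) (neg_ne_zero.2 hm))]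
    refine sum_congr rfl fun t _ => ?_
    rw [← map_mul, ← one_mul (quadraticChar (ZMod p) (-m * _)), ← quadraticChar_sq_one' hm,
      ← map_mul]
    congr 1
    simp
    ring

lemma ap_an {p : ℕ} [Fact p.Prime] (hp : p ≠ 2) : Mod.an p = -Mod.Sp p := by
  have hp' : p.Prime := Fact.out
  by_cases h5 : 5 < p
  · exact Mod.an_eq_neg_Sp h5
  · obtain ⟨-, -, -, h3, -, h5'⟩ := Mod.an_small
    have h2 := hp'.two_le
    have h4 : p ≠ 4 := by rintro rfl; exact absurd hp' (by norm_num)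
    have : p = 3 ∨ p = 5 := by omega
    rcases this with rfl | rfl
    · rw [h3, Mod.Sp]
      simp only [quadraticChar_apply, quadraticCharFun]
      decide +revert
    · rw [h5', Mod.Sp]
      simp only [quadraticChar_apply, quadraticCharFun]
      decide +revert

lemma ap_two : Nat.card {q : ZMod 2 × ZMod 2 //
      q.2 ^ 2 + q.1 * q.2 = q.1 ^ 3 + 1 * q.1 ^ 2 - 9 * 1 ^ 2 * q.1} = 1 ∧
    Nat.card {q : ZMod 2 × ZMod 2 //
      q.2 ^ 2 + q.1 * q.2 = q.1 ^ 3 + 0 * q.1 ^ 2 - 9 * 1 ^ 2 * q.1} = 3 := by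
  simp only [Nat.card_eq_fintype_card]
  decide

theorem ap_tw {n : ℕ} (h4 : n % 4 = 3) (h3 : n % 3 = 2) (h5 : n % 5 = 2 ∨ n % 5 = 3)
    {p : ℕ} (hp : p.Prime) : ap (tw n) p = jacobiSym p n * Mod.an p := by
  have := Fact.mk hp
  by_cases h2 : p = 2
  · subst h2
    have hn : (n : ZMod 2) = 1 := (ZMod.natCast_eq_one_iff_odd).2 (Nat.odd_iff.2 (by omega))
    rw [ap, Mod.an_small.2.2.1, Nat.cast_ofNat, jacobiSym.at_two (Nat.odd_iff.2 (by omega)),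
      ZMod.χ₈_nat_eq_if_mod_eight]
    simp only [ap_eqn, hn]
    have : n % 8 = 3 ∨ n % 8 = 7 := by omega
    rcases this with h8 | h8
    · have ha : (((7 * (n : ℤ) - 1) / 4 : ℤ) : ZMod 2) = 1 :=
        (ZMod.intCast_eq_one_iff_odd).2 (Int.odd_iff.2 (by omega))
      simp only [ha, h8, show n % 2 = 1 by omega, ap_two.1]
      decide
    · have ha : (((7 * (n : ℤ) - 1) / 4 : ℤ) : ZMod 2) = 0 :=
        (ZMod.intCast_eq_zero_iff_even).2 (Int.even_iff.2 (by omega))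
      simp only [ha, h8, show n % 2 = 1 by omega, ap_two.2]
      decide
  · have h := Mod.jac_recip (D := -(n : ℤ)) (by omega) (hp.odd_of_ne_two h2)
    rw [Int.natAbs_neg, Int.natAbs_natCast] at h
    rw [ap_odd h4 h2, ap_sum h2, ap_an h2, ← h, ← jacobiSym.legendreSym.to_jacobiSym, legendreSym]
    push_cast
    ring

theorem isL_tw {n : ℕ} (h4 : n % 4 = 3) (h3 : n % 3 = 2) (h5 : n % 5 = 2 ∨ n % 5 = 3)
    {L : ℂ → ℂ} (hL : Differentiable ℂ L)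
    (hL' : ∀ s : ℂ, 3 / 2 < s.re → L s = LSeries (fun k => Mod.chi n k * Mod.an k) s) :
    IsL (tw n) L := by
  refine ⟨hL, fun s hs => ?_⟩
  rw [hL' s hs]
  refine (Mod.euler_chi n hs).2.congr_fun fun ⟨p, hp⟩ => ?_
  have hp' := Nat.prime_iff_prime_int.1 hp
  have hd : (p : ℤ) ∣ (tw n).Δ ↔ p ∣ 15 ∨ p ∣ n := by
    rw [tw_Δ h4, hp'.dvd_mul, hp'.dvd_pow_iff_dvd (by norm_num), hp'.dvd_pow_iff_dvd (by norm_num),
      Int.natCast_dvd_natCast, ← Int.natCast_dvd_natCast (n := 15)]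
    rfl
  simp only [Mod.eul, ap_tw h4 h3 h5 hp, hd, Mod.chi]
  push_cast
  congr 2
  by_cases h15 : p ∣ 15
  · simp [h15]
  · by_cases hn : p ∣ n
    · have h9 : jacobiSym p n = 0 := by
        refine jacobiSym.eq_zero_iff.2 ⟨by omega, ?_⟩
        rw [Int.gcd_natCast_natCast, Nat.gcd_eq_left hn]
        exact hp.ne_one
      simp [h15, hn, h9]
    · have h8 : jacobiSym p n ^ 2 = 1 := jacobiSym.sq_one (by
        rw [Int.gcd_natCast_natCast]
        exact hp.coprime_iff_not_dvd.2 hn)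
      have h9 : (jacobiSym p n : ℂ) ^ 2 = 1 := by exact_mod_cast h8
      simp [h15, hn, h9]

end Pool.Agent.P.MP_9c97e9_nt
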