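import Pool.Agent.P.MP_9c97e9_nt.Defs2
import Pool.Agent.P.MP_8b7eba_nt.ModFin

/-! The imaginary modular symbol and the real period of the twists. -/

namespace Pool.Agent.P.MP_9c97e9_nt

open MP_8b7eba_nt Real MeasureTheory Set

theorem II_eq_I0 : II = Mod.I0 := by
  have h0 : ∀ θ, 0 < 17 - 8 * cos θ := fun θ => by linarith [cos_le_one θ]
  have := intervalIntegral.integral_eq_sub_of_hasDerivAt_of_le
    (f := fun θ => -Mod.VV (-(2 * cos θ - 2))) (f' := fun θ => 1 / √(17 - 8 * cos θ)) pi_pos.le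
    (Mod.VV_cont.comp (by fun_prop)).neg.continuousOn (fun θ hθ => ?_)
    (Continuous.intervalIntegrable (continuous_const.div (by fun_prop)
      fun θ => (sqrt_pos.2 (h0 θ)).ne') _ _)
  · rw [II, this, cos_pi, cos_zero, Mod.VV_right (by norm_num), Mod.I0]
    norm_num
  · have h1 := sin_pos_of_pos_of_lt_pi hθ.1 hθ.2
    have h2 := sin_sq_add_cos_sq θ
    have h3 : 2 * cos θ - 2 ∈ Ioo (-4 : ℝ) 0 := ⟨by nlinarith, by nlinarith⟩
    refine ((Mod.deriv_mid h3).2.comp θ
      (((hasDerivAt_cos θ).const_mul 2).sub_const 2)).neg.congr_deriv ?_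
    rw [Mod.sq1, show 4 * (2 * cos θ - 2) ^ 3 + 7 * (2 * cos θ - 2) ^ 2 - 36 * (2 * cos θ - 2) =
      (2 * sin θ) ^ 2 * (17 - 8 * cos θ) by linear_combination -4 * (17 - 8 * cos θ) * h2,
      sqrt_mul (by positivity), sqrt_sq (by positivity)]
    field_simp

theorem om_odd : ∃ k : ℤ, Odd k ∧ Mod.om = k * II := II_eq_I0 ▸ Mod.om_odd

theorem om_int : ∃ k : ℤ, Mod.om = k * II := om_odd.imp fun _ h => h.2

theorem omi_period_tw {n : ℕ} (h4 : n % 4 = 3) : period (tw n) = 4 * II / √n := by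
  have h : (4 : ℤ) * ((7 * n - 1) / 4) = 7 * n - 1 := by omega
  have h1 : ∀ x, cub (tw n) x = 4 * x ^ 3 + 7 * n * x ^ 2 - 36 * n ^ 2 * x := fun x => by
    simp only [cub, tw, WeierstrassCurve.b₂, WeierstrassCurve.b₄, WeierstrassCurve.b₆, h]
    push_cast
    ring
  rw [period, setIntegral_eq_integral_of_forall_compl_eq_zero fun x hx => by
    rw [sqrt_eq_zero'.2 (not_lt.1 hx), div_zero], II_eq_I0,
    ← (Mod.real_period (n := n) (by exact_mod_cast (by omega : 0 < n))).2, ← integral_const_mul]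
  simp only [h1, mul_one_div]

end Pool.Agent.P.MP_9c97e9_nt
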