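import Pool.Agent.P.MP_9c97e9_nt.Defs2
import Pool.Agent.P.MP_8b7eba_nt.ModAL
import Pool.Agent.P.MP_8b7eba_nt.ModL

/-! A numerical bound for the modular period and the real period of the twists. -/

namespace Pool.Agent.P.MP_9c97e9_nt

open MP_8b7eba_nt Complex MeasureTheory Set
open scoped Real

lemma per_an_prime {p : ℕ} (hp : p.Prime) : |Mod.an p| ≤ p + 1 := by
  by_cases h : p ∣ 15
  · have h15 : p ≤ 15 := Nat.le_of_dvd (by norm_num) h
    obtain ⟨-, -, -, h3, -, h5⟩ := Mod.an_small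
    have : p = 3 ∨ p = 5 := by
      interval_cases p <;> first | omega | (exfalso; revert hp; norm_num)
    rcases this with rfl | rfl
    · rw [h3]; norm_num
    · rw [h5]; norm_num
  · exact Mod.an_prime_le hp h

lemma per_an_pow {p : ℕ} (hp : p.Prime) (k : ℕ) : |Mod.an (p ^ k)| ≤ ((p : ℤ) ^ k) ^ 2 := by
  have h2 : (2 : ℤ) ≤ p := by exact_mod_cast hp.two_le
  have h1 := per_an_prime hp
  induction k using Nat.twoStepInduction with
  | zero => simp [Mod.an_one]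
  | one => simp only [pow_one]; nlinarith
  | more k ih1 ih2 =>
    have h := Mod.an_pow_rec hp k 1
    simp only [mul_one] at h
    have h3 : |(if p ∣ 15 then 0 else (p : ℤ))| ≤ p := by split_ifs <;> simp
    have h4 : |Mod.an (p ^ (k + 2))| ≤ (p + 1) * ((p : ℤ) ^ (k + 1)) ^ 2 + p * ((p : ℤ) ^ k) ^ 2 := by
      rw [h]
      refine (abs_sub _ _).trans (add_le_add ?_ ?_) <;> rw [abs_mul]
      · exact mul_le_mul h1 ih2 (abs_nonneg _) (by positivity)
      · exact mul_le_mul h3 ih1 (abs_nonneg _) (by positivity)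
    refine h4.trans ?_
    have h5 : (p + 1) * (p : ℤ) ^ 2 + p ≤ (p : ℤ) ^ 4 := by
      have h6 : (0 : ℤ) ≤ p * (p - 2) * (p ^ 2 + p + 1) := by
        have : (0 : ℤ) ≤ p - 2 := by linarith
        positivity
      nlinarith
    have h7 := mul_le_mul_of_nonneg_right h5 (sq_nonneg ((p : ℤ) ^ k))
    calc _ = ((p + 1) * (p : ℤ) ^ 2 + p) * ((p : ℤ) ^ k) ^ 2 := by ring
      _ ≤ _ := h7
      _ = _ := by ring

lemma per_an_le (n : ℕ) : |Mod.an n| ≤ (n : ℤ) ^ 2 := by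
  induction n using Nat.recOnPrimePow with
  | zero => simp [Mod.an_zero]
  | one => simp [Mod.an_one]
  | prime_pow_mul a p k hp ha hk ih =>
    rw [Mod.an_pow_mul hp ha, abs_mul]
    push_cast
    rw [mul_pow]
    exact mul_le_mul (per_an_pow hp k) ih (abs_nonneg _) (by positivity)

lemma per_FI {z : ℂ} (hz : 0 < z.im) (hr : ‖Mod.qq z‖ ≤ 2 / 5) :
    ‖Mod.FI z - Mod.qq z‖ ≤ 4 / 25 := by
  have h := (hasSum_nat_add_iff' 6).2 (Mod.hasSum_FI hz)
  set q := Mod.qq z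
  have g1 := hasSum_coe_mul_geometric_of_norm_lt_one (𝕜 := ℝ) (r := 2 / 5) (by norm_num)
  have g2 := hasSum_geometric_of_lt_one (r := 2 / 5) (by norm_num) (by norm_num)
  have g := (g1.add (g2.mul_left 6)).mul_left ((2 / 5 : ℝ) ^ 6)
  have ht := h.norm_le_of_bounded g fun n => by
    have h1 : ‖(Mod.an (n + 6) : ℂ)‖ ≤ ((n + 6 : ℕ) : ℝ) ^ 2 := by
      rw [Complex.norm_intCast]
      exact_mod_cast per_an_le (n + 6)
    have h2 : ‖q‖ ^ (n + 6) ≤ (2 / 5) ^ (n + 6) := pow_le_pow_left₀ (norm_nonneg _) hr _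
    have h3 : (0 : ℝ) < ((n + 6 : ℕ) : ℝ) := by positivity
    rw [norm_mul, norm_div, norm_pow, Complex.norm_natCast]
    calc _ ≤ ((n + 6 : ℕ) : ℝ) * (2 / 5) ^ (n + 6) := by
          refine mul_le_mul ?_ h2 (by positivity) h3.le
          rw [div_le_iff₀ h3, ← sq]
          exact h1
      _ = _ := by push_cast; ring
  obtain ⟨h0, h1, h2, h3, h4, h5⟩ := Mod.an_small
  simp only [Finset.sum_range_succ, Finset.sum_range_zero, h0, h1, h2, h3, h4, h5] at ht
  have e : Mod.FI z - q = (Mod.FI z - (0 + ((0 : ℤ) : ℂ) / (0 : ℕ) * q ^ 0 +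
      ((1 : ℤ) : ℂ) / (1 : ℕ) * q ^ 1 + ((-1 : ℤ) : ℂ) / (2 : ℕ) * q ^ 2 +
      ((-1 : ℤ) : ℂ) / (3 : ℕ) * q ^ 3 + ((-1 : ℤ) : ℂ) / (4 : ℕ) * q ^ 4 +
      ((1 : ℤ) : ℂ) / (5 : ℕ) * q ^ 5)) + (-(q ^ 2 / 2) - q ^ 3 / 3 - q ^ 4 / 4 + q ^ 5 / 5) := by
    push_cast; ring
  have hb : ∀ k : ℕ, ‖q ^ k‖ ≤ (2 / 5) ^ k := fun k => by
    rw [norm_pow]; exact pow_le_pow_left₀ (norm_nonneg _) hr _
  have h6 : ‖-(q ^ 2 / 2) - q ^ 3 / 3 - q ^ 4 / 4 + q ^ 5 / 5‖ ≤
      ‖q ^ 2‖ / 2 + ‖q ^ 3‖ / 3 + ‖q ^ 4‖ / 4 + ‖q ^ 5‖ / 5 := by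
    refine (norm_add_le _ _).trans (add_le_add ((norm_sub_le _ _).trans (add_le_add
      ((norm_sub_le _ _).trans (add_le_add ?_ ?_)) ?_)) ?_) <;> simp
  rw [e]
  refine (norm_add_le _ _).trans ?_
  have := hb 2
  have := hb 3
  have := hb 4
  have := hb 5
  norm_num at *
  linarith

lemma per_II : π / 5 ≤ II := by
  have h : ∫ _ in (0 : ℝ)..π, (1 / 5 : ℝ) ≤ II := by
    refine intervalIntegral.integral_mono_on Real.pi_pos.le (by simp) ?_ fun θ _ => ?_
    · refine Continuous.intervalIntegrable (continuous_const.div (by fun_prop) fun θ => ?_) _ _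
      exact (Real.sqrt_pos.2 (by linarith [Real.cos_le_one θ])).ne'
    · refine one_div_le_one_div_of_le (Real.sqrt_pos.2 (by linarith [Real.cos_le_one θ])) ?_
      exact Real.sqrt_le_iff.2 ⟨by norm_num, by linarith [Real.neg_one_le_cos θ]⟩
  simp only [intervalIntegral.integral_const, sub_zero, smul_eq_mul] at h
  linarith

theorem om_bound : 0 < Mod.om ∧ Mod.om < 2 * II := by
  set s : ℝ := √5 with hs
  have hs2 : s ^ 2 = 5 := Real.sq_sqrt (by norm_num)
  have hs0 : 0 < s := Real.sqrt_pos.2 (by norm_num)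
  have hs1 : 2.236 < s := by nlinarith
  have hs3 : s < 2.24 := by nlinarith
  set z : ℂ := 1 / 3 + (s / 15 : ℝ) * I with hz
  have him : z.im = s / 15 := by simp [hz]
  have hz0 : 0 < z.im := by rw [him]; positivity
  have hfix : (Mod.M2.mk 5 (-2) 15 (-5)).act z = z := by
    have hsC : (s : ℂ) ^ 2 = 5 := by exact_mod_cast hs2
    have hne : ((15 : ℤ) : ℂ) * z + ((-5 : ℤ) : ℂ) ≠ 0 := Mod.den_ne (by norm_num) hz0
    show (((5 : ℤ) : ℂ) * z + ((-2 : ℤ) : ℂ)) / (((15 : ℤ) : ℂ) * z + ((-5 : ℤ) : ℂ)) = z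
    rw [div_eq_iff hne, hz]
    push_cast
    linear_combination (-(s : ℂ) ^ 2 / 15) * I_sq + (1 / 15) * hsC
  have h1 := Mod.FI_act (w := ⟨5, -2, 15, -5⟩) (by decide)
    (fun z hz => Mod.sl_AL5 (by decide) hz) hz0
  rw [hfix, Mod.lv_of_ne _ (by norm_num)] at h1
  have h2 : Mod.om = 2 * (Mod.FI z).im := by
    have h3 : Mod.lam (1 / 3) = 2 * Mod.FI z := by
      rw [show (1 / 3 : ℚ) = ((5 : ℤ) : ℚ) / ((15 : ℤ) : ℚ) by norm_num]
      linear_combination -h1
    rw [Mod.om, h3]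
    simp
  set t : ℝ := 2 * π * s / 15 with ht
  have hq : Mod.qq z = cexp ((-t : ℝ) + (2 * π / 3 : ℝ) * I) := by
    rw [Mod.qq, hz, ht]
    congr 1
    push_cast
    linear_combination (2 * π * s / 15) * I_sq
  have hn : ‖Mod.qq z‖ = Real.exp (-t) := by rw [hq, Complex.norm_exp]; simp
  have hi : (Mod.qq z).im = Real.exp (-t) * (√3 / 2) := by
    rw [hq, Complex.exp_im]
    have : Real.sin (2 * π / 3) = √3 / 2 := by
      rw [show 2 * π / 3 = π - π / 3 by ring, Real.sin_pi_sub, Real.sin_pi_div_three]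
    simp [this]
  have p1 := Real.pi_gt_d2
  have p2 := Real.pi_lt_d2
  have t1 : 0.936 < t := by rw [ht]; nlinarith
  have t2 : t < 1 := by rw [ht]; nlinarith
  have r1 : 0.36 < Real.exp (-t) :=
    lt_trans (lt_trans (by norm_num) Real.exp_neg_one_gt_d9) (Real.exp_lt_exp.2 (by linarith))
  have r2 : Real.exp (-t) ≤ 2 / 5 := by
    have e1 := Real.add_one_le_exp (t - 1)
    have e2 := Real.exp_one_gt_d9
    have e3 : Real.exp t = Real.exp 1 * Real.exp (t - 1) := by rw [← Real.exp_add]; ring_nf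
    have e4 : 5 / 2 ≤ Real.exp t := by rw [e3]; nlinarith
    rw [Real.exp_neg, inv_le_comm₀ (Real.exp_pos _) (by norm_num)]
    linarith
  have hb := per_FI hz0 (hn ▸ r2)
  have hb' := abs_le.1 ((Complex.abs_im_le_norm _).trans hb)
  rw [Complex.sub_im, hi] at hb'
  have u2 : √3 ^ 2 = (3 : ℝ) := Real.sq_sqrt (by norm_num)
  have u0 : (0 : ℝ) < √3 := Real.sqrt_pos.2 (by norm_num)
  have u1 : 1.7 < √3 := by nlinarith
  have u3 : √3 < 1.8 := by nlinarith
  have := per_II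
  rw [h2]
  constructor <;> nlinarith

lemma per_cub {n : ℕ} (h4 : n % 4 = 3) (x : ℝ) :
    cub (tw n) x = x * (4 * x - 9 * n) * (x + 4 * n) := by
  have h : 4 * ((7 * (n : ℤ) - 1) / 4) = 7 * n - 1 := by omega
  have h2 : (tw n).b₂ = 7 * n := by
    simp only [tw, WeierstrassCurve.b₂]; linarith
  have h3 : (tw n).b₄ = -18 * n ^ 2 := by simp only [tw, WeierstrassCurve.b₄]; ring
  have h5 : (tw n).b₆ = 0 := by simp [tw, WeierstrassCurve.b₆]
  rw [cub, h2, h3, h5]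
  push_cast
  ring

lemma per_set {N : ℝ} (hN : 0 < N) : {x : ℝ | 0 < x * (4 * x - 9 * N) * (x + 4 * N)} =
    Ioo (-4 * N) 0 ∪ Ioi (9 * N / 4) := by
  ext x
  simp only [mem_ofPred_eq, mem_union, mem_Ioo, mem_Ioi]
  constructor
  · intro h
    by_contra hc
    push Not at hc
    obtain ⟨h1, h2⟩ := hc
    rcases le_or_gt x (-4 * N) with h3 | h3
    · have : 0 ≤ x * (4 * x - 9 * N) := mul_nonneg_of_nonpos_of_nonpos (by linarith) (by linarith)
      have := mul_nonpos_of_nonneg_of_nonpos this (show x + 4 * N ≤ 0 by linarith)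
      linarith
    · have : x * (4 * x - 9 * N) ≤ 0 := mul_nonpos_of_nonneg_of_nonpos (h1 h3) (by linarith)
      have := mul_nonpos_of_nonpos_of_nonneg this (show 0 ≤ x + 4 * N by linarith)
      linarith
  · rintro (⟨h1, h2⟩ | h)
    · exact mul_pos (mul_pos_of_neg_of_neg h2 (by linarith)) (by linarith)
    · exact mul_pos (mul_pos (by linarith) (by linarith)) (by linarith)

lemma per_img1 {N : ℝ} (hN : 0 < N) :
    (fun θ => -2 * N + 2 * N * Real.cos θ) '' Ioo 0 π = Ioo (-4 * N) 0 := by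
  ext x
  constructor
  · rintro ⟨θ, ⟨h1, h2⟩, rfl⟩
    have h3 : Real.cos θ < 1 := by
      rw [← Real.cos_zero]; exact Real.cos_lt_cos_of_nonneg_of_le_pi le_rfl h2.le h1
    have h4 : -1 < Real.cos θ := by
      rw [← Real.cos_pi]; exact Real.cos_lt_cos_of_nonneg_of_le_pi h1.le le_rfl h2
    constructor <;> nlinarith
  · rintro ⟨h1, h2⟩
    have h3 : x / (2 * N) + 1 < 1 := by
      have := div_neg_of_neg_of_pos h2 (show 0 < 2 * N by linarith)
      linarith
    have h4 : -1 < x / (2 * N) + 1 := by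
      have : -2 < x / (2 * N) := by rw [lt_div_iff₀ (by linarith)]; linarith
      linarith
    refine ⟨Real.arccos (x / (2 * N) + 1), ⟨Real.arccos_pos.2 h3, Real.arccos_lt_pi.2 h4⟩, ?_⟩
    simp only
    rw [Real.cos_arccos h4.le h3.le]
    field_simp
    ring

lemma per_img2 {N : ℝ} (hN : 0 < N) :
    (fun x => -9 * N ^ 2 / x) '' Ioo (-4 * N) 0 = Ioi (9 * N / 4) := by
  ext y
  constructor
  · rintro ⟨x, ⟨h1, h2⟩, rfl⟩
    rw [mem_Ioi, lt_div_iff_of_neg h2]
    nlinarith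
  · intro hy
    rw [mem_Ioi] at hy
    have hy0 : 0 < y := by linarith
    refine ⟨-9 * N ^ 2 / y, ⟨?_, ?_⟩, ?_⟩
    · rw [lt_div_iff₀ hy0]; nlinarith
    · exact div_neg_of_neg_of_pos (by nlinarith) hy0
    · field_simp

lemma per_eq1 {N : ℝ} (hN : 0 < N) {θ : ℝ} (hθ : θ ∈ Ioo 0 π) :
    |-(2 * N * Real.sin θ)| • (1 / √((-2 * N + 2 * N * Real.cos θ) *
      (4 * (-2 * N + 2 * N * Real.cos θ) - 9 * N) * ((-2 * N + 2 * N * Real.cos θ) + 4 * N))) =
      1 / √N * (1 / √(17 - 8 * Real.cos θ)) := by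
  have h1 : 0 < Real.sin θ := Real.sin_pos_of_pos_of_lt_pi hθ.1 hθ.2
  have h2 : 0 < 17 - 8 * Real.cos θ := by linarith [Real.cos_le_one θ]
  have h3 : (-2 * N + 2 * N * Real.cos θ) * (4 * (-2 * N + 2 * N * Real.cos θ) - 9 * N) *
      ((-2 * N + 2 * N * Real.cos θ) + 4 * N) =
      (2 * N * Real.sin θ) ^ 2 * (N * (17 - 8 * Real.cos θ)) := by
    linear_combination (-4 * N ^ 3 * (17 - 8 * Real.cos θ)) * Real.sin_sq_add_cos_sq θ
  have h4 : 0 < 2 * N * Real.sin θ := by positivity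
  rw [h3, abs_neg, abs_of_pos h4, Real.sqrt_mul (sq_nonneg _), Real.sqrt_sq h4.le,
    Real.sqrt_mul hN.le, smul_eq_mul]
  have := Real.sqrt_pos.2 hN
  have := Real.sqrt_pos.2 h2
  field_simp

lemma per_eq2 {N : ℝ} (hN : 0 < N) {x : ℝ} (hx : x ∈ Ioo (-4 * N) 0) :
    |9 * N ^ 2 / x ^ 2| • (1 / √((-9 * N ^ 2 / x) * (4 * (-9 * N ^ 2 / x) - 9 * N) *
      ((-9 * N ^ 2 / x) + 4 * N))) = 1 / √(x * (4 * x - 9 * N) * (x + 4 * N)) := by
  have hx0 : x ≠ 0 := hx.2.ne
  have h3 : (-9 * N ^ 2 / x) * (4 * (-9 * N ^ 2 / x) - 9 * N) * ((-9 * N ^ 2 / x) + 4 * N) =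
      (9 * N ^ 2 / x ^ 2) ^ 2 * (x * (4 * x - 9 * N) * (x + 4 * N)) := by
    field_simp
    ring
  have h4 : 0 < 9 * N ^ 2 / x ^ 2 := by positivity
  rw [h3, abs_of_pos h4, Real.sqrt_mul (sq_nonneg _), Real.sqrt_sq h4.le, smul_eq_mul,
    mul_one_div, div_mul_cancel_left₀ h4.ne', one_div]

theorem period_tw {n : ℕ} (h4 : n % 4 = 3) : period (tw n) = 4 * II / √n := by
  have hN : (0 : ℝ) < n := by exact_mod_cast (show 0 < n by omega)
  unfold period
  simp only [per_cub h4]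
  generalize (n : ℝ) = N at hN
  set f : ℝ → ℝ := fun x => 1 / √(x * (4 * x - 9 * N) * (x + 4 * N)) with hf
  have d1 : ∀ θ ∈ Ioo 0 π, HasDerivWithinAt (fun θ => -2 * N + 2 * N * Real.cos θ)
      (-(2 * N * Real.sin θ)) (Ioo 0 π) θ := fun θ _ =>
    ((((Real.hasDerivAt_cos θ).const_mul (2 * N)).const_add (-2 * N)).congr_deriv
      (by ring)).hasDerivWithinAt
  have i1 : InjOn (fun θ => -2 * N + 2 * N * Real.cos θ) (Ioo 0 π) := by
    intro a ha b hb hab
    refine Real.injOn_cos (Ioo_subset_Icc_self ha) (Ioo_subset_Icc_self hb) ?_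
    have : 2 * N * Real.cos a = 2 * N * Real.cos b := by simpa using hab
    exact mul_left_cancel₀ (by linarith) this
  have d2 : ∀ x ∈ Ioo (-4 * N) 0, HasDerivWithinAt (fun x => -9 * N ^ 2 / x)
      (9 * N ^ 2 / x ^ 2) (Ioo (-4 * N) 0) x := fun x hx =>
    (((hasDerivAt_const x (-9 * N ^ 2)).div (hasDerivAt_id x) hx.2.ne).congr_deriv
      (by simp)).hasDerivWithinAt
  have i2 : InjOn (fun x => -9 * N ^ 2 / x) (Ioo (-4 * N) 0) := by
    intro a ha b hb hab
    simp only at hab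
    rw [div_eq_div_iff ha.2.ne hb.2.ne] at hab
    exact (mul_left_cancel₀ (by nlinarith) hab).symm
  have hc : Continuous fun θ => 1 / √N * (1 / √(17 - 8 * Real.cos θ)) :=
    continuous_const.mul (continuous_const.div (by fun_prop) fun θ =>
      (Real.sqrt_pos.2 (by linarith [Real.cos_le_one θ])).ne')
  have a1 : IntegrableOn f (Ioo (-4 * N) 0) := by
    rw [← per_img1 hN, integrableOn_image_iff_integrableOn_abs_deriv_smul measurableSet_Ioo d1 i1]
    exact (hc.integrableOn_Icc.mono_set Ioo_subset_Icc_self).congr_fun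
      (fun θ hθ => (per_eq1 hN hθ).symm) measurableSet_Ioo
  have a2 : IntegrableOn f (Ioi (9 * N / 4)) := by
    rw [← per_img2 hN, integrableOn_image_iff_integrableOn_abs_deriv_smul measurableSet_Ioo d2 i2]
    exact a1.congr_fun (fun x hx => (per_eq2 hN hx).symm) measurableSet_Ioo
  have b1 : ∫ x in Ioo (-4 * N) 0, f x = II / √N := by
    rw [← per_img1 hN, integral_image_eq_integral_abs_deriv_smul measurableSet_Ioo d1 i1,
      setIntegral_congr_fun measurableSet_Ioo fun θ hθ => per_eq1 hN hθ, integral_const_mul, II,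
      intervalIntegral.integral_of_le Real.pi_pos.le, integral_Ioc_eq_integral_Ioo]
    ring
  have b2 : ∫ x in Ioi (9 * N / 4), f x = II / √N := by
    rw [← per_img2 hN, integral_image_eq_integral_abs_deriv_smul measurableSet_Ioo d2 i2,
      setIntegral_congr_fun measurableSet_Ioo fun x hx => per_eq2 hN hx, b1]
  rw [per_set hN, setIntegral_union _ measurableSet_Ioi a1 a2, b1, b2]
  · ring
  · rw [Set.disjoint_left]
    intro x h1 h2
    have := h1.2
    have := mem_Ioi.1 h2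
    linarith

end Pool.Agent.P.MP_9c97e9_nt
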