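import Pool.Agent.P.MP_9c97e9_nt.Defs2
import Pool.Agent.P.MP_8b7eba_nt.DescInt

/-! The 2-Selmer group of the twists of `X₀(15)` under the Redei conditions. -/

set_option autoImplicit false
set_option linter.unusedSectionVars false

namespace Pool.Agent.P.MP_9c97e9_nt

open MP_8b7eba_nt PadicInt

namespace Sel

section loc
variable {p : ℕ} [hp : Fact p.Prime]

theorem pz (x : ℤ_[p]) : toZMod x = 0 ↔ (p : ℤ_[p]) ∣ x := by
  rw [← RingHom.mem_ker, ker_toZMod, maximalIdeal_eq_span_p, Ideal.mem_span_singleton]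

theorem pint (m : ℤ) : (p : ℤ_[p]) ∣ (m : ℤ_[p]) ↔ (p : ℤ) ∣ m := by
  simpa using pow_p_dvd_int_iff (p := p) 1 m

theorem sq_of_mul {d z W : ℤ_[p]} (hz : ¬(p : ℤ_[p]) ∣ z) (h : (p : ℤ_[p]) ∣ d * z ^ 2 - W ^ 2) :
    IsSquare (toZMod d) := by
  rw [← pz] at hz h
  simp only [map_sub, map_mul, map_pow] at h
  refine ⟨toZMod W / toZMod z, ?_⟩
  field_simp
  linear_combination h

theorem bad_prime {d s Y X W m : ℤ_[p]} (hd : ¬(p : ℤ_[p]) ∣ d)
    (hm : ¬(p : ℤ_[p]) ∣ m) (hX : ¬IsSquare (toZMod X)) (e1 : d * s ^ 2 = Y - p * m)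
    (e2 : (p : ℤ_[p]) ^ 2 * (d * Y * X) = W ^ 2) : False := by
  have hq : Prime (p : ℤ_[p]) := prime_p
  obtain ⟨V, rfl⟩ : (p : ℤ_[p]) ∣ W :=
    hq.dvd_of_dvd_pow (n := 2) ⟨p * (d * Y * X), by rw [← e2]; ring⟩
  have e3 : d * Y * X = V ^ 2 := mul_left_cancel₀ (pow_ne_zero 2 hq.ne_zero) (by rw [e2]; ring)
  by_cases hs : (p : ℤ_[p]) ∣ s
  · obtain ⟨s, rfl⟩ := hs
    obtain ⟨V, rfl⟩ : (p : ℤ_[p]) ∣ V := hq.dvd_of_dvd_pow (n := 2)
      ⟨d * (m + d * p * s ^ 2) * X, by linear_combination -e3 - d * X * e1⟩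
    have e4 : d * (m + d * p * s ^ 2) * X = p * V ^ 2 :=
      mul_left_cancel₀ hq.ne_zero (by linear_combination e3 + d * X * e1)
    rcases hq.dvd_or_dvd (show (p : ℤ_[p]) ∣ d * (m + d * p * s ^ 2) * X from ⟨_, e4⟩) with h | h
    · rcases hq.dvd_or_dvd h with h | h
      · exact hd h
      · exact hm (by
          simpa using dvd_sub h (show (p : ℤ_[p]) ∣ d * p * s ^ 2 from ⟨d * s ^ 2, by ring⟩))
    · exact hX (by rw [(pz _).2 h]; exact IsSquare.zero)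
  · exact hX (sq_of_mul (z := d * s) (W := V) (fun h => (hq.dvd_or_dvd h).elim hd hs)
      ⟨-(d * m * X), by linear_combination e3 + d * X * e1⟩)

theorem cancel_sq {d s X W : ℤ_[p]} (hs : s ≠ 0) (e : d * s ^ 2 * X = W ^ 2) :
    ∃ V, d * X = V ^ 2 := by
  obtain ⟨V, rfl⟩ : s ∣ W :=
    (IsIntegrallyClosed.pow_dvd_pow_iff two_ne_zero).1 ⟨d * X, by rw [← e]; ring⟩
  exact ⟨V, mul_left_cancel₀ (pow_ne_zero 2 hs) (by linear_combination e)⟩

theorem small {q : ℕ} (hq : q.Prime) {k : ℕ} (h : (p : ℤ_[p]) ∣ (q : ℤ_[p]) ^ k) : p = q :=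
  Desc.dvd_small hp.out hq (k := k) ((pint _).1 (by exact_mod_cast h))

theorem not_dvd_mul {n : ℕ} (h3 : n % 3 = 2) (h5 : n % 5 = 2 ∨ n % 5 = 3) (hpn : (p : ℤ) ∣ n)
    {t : ℤ_[p]} (ht : ¬(p : ℤ_[p]) ∣ t) : ¬(p : ℤ_[p]) ∣ 3 * t ∧ ¬(p : ℤ_[p]) ∣ 5 * t := by
  have hq : Prime (p : ℤ_[p]) := prime_p
  have hpn' := Int.natCast_dvd_natCast.1 hpn
  refine ⟨fun h => (hq.dvd_or_dvd h).elim (fun h => ?_) ht,
    fun h => (hq.dvd_or_dvd h).elim (fun h => ?_) ht⟩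
  · rw [small (p := p) Nat.prime_three (k := 1) (by simpa using h)] at hpn'
    omega
  · rw [small (p := p) Nat.prime_five (k := 1) (by simpa using h)] at hpn'
    omega

/-- The integral form of a local point. -/
def LI (p : ℕ) [Fact p.Prime] (n : ℕ) (a b : ℤ) : Prop :=
  ∃ u t r s V W : ℤ_[p], ((p : ℤ_[p]) ∣ u → ¬(p : ℤ_[p]) ∣ t) ∧ u = a * r ^ 2 ∧
    u - 9 * n * t ^ 2 = b * s ^ 2 ∧ b * (u * (u + 16 * n * t ^ 2)) = V ^ 2 ∧
    a * b * (u + 16 * n * t ^ 2) = W ^ 2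

theorem ex_lift {x : ℚ_[p]} (h : ‖x‖ ≤ 1) : ∃ y : ℤ_[p], (y : ℚ_[p]) = x := ⟨⟨x, h⟩, rfl⟩

theorem coe_inj {x y : ℤ_[p]} (h : (x : ℚ_[p]) = y) : x = y := Subtype.ext h

theorem nle (x : ℤ_[p]) : ‖(x : ℚ_[p])‖ ≤ 1 := x.2

theorem c9 : ((9 : ℤ_[p]) : ℚ_[p]) = 9 := coe_natCast 9

theorem c16 : ((16 : ℤ_[p]) : ℚ_[p]) = 16 := coe_natCast 16

theorem norm_le_of_sqfree {b : ℤ} (hb : Squarefree b) {s : ℚ_[p]} (h : ‖b * s ^ 2‖ ≤ 1) :
    ‖s‖ ≤ 1 := by
  by_contra hs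
  rw [not_le] at hs
  have hs0 : s ≠ 0 := by
    rintro rfl
    norm_num at hs
  have h1 : ‖s⁻¹‖ < 1 := by
    rw [norm_inv]
    exact inv_lt_one_of_one_lt₀ hs
  obtain ⟨y, hy⟩ := ex_lift h1.le
  obtain ⟨w, hw⟩ := ex_lift h
  obtain ⟨z, rfl⟩ := (norm_lt_one_iff_dvd y).1 (by rw [← hy] at h1; exact h1)
  have : (p : ℤ_[p]) ^ 2 ∣ (b : ℤ_[p]) := ⟨z ^ 2 * w, coe_inj (by
    push_cast at hy ⊢
    rw [← mul_assoc, ← mul_pow, hy, hw]
    field_simp)⟩
  exact (Nat.prime_iff_prime_int.1 hp.out).not_isUnit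
    (hb p (by rw [← sq]; exact (pow_p_dvd_int_iff 2 b).1 this))

theorem norm_le_of_sq {s x : ℚ_[p]} (hx : ‖x‖ ≤ 1) (h : x = s ^ 2) : ‖s‖ ≤ 1 := by
  rw [h, norm_pow] at hx
  exact (pow_le_one_iff_of_nonneg (norm_nonneg _) two_ne_zero).1 hx

theorem li_of {n : ℕ} {a b : ℤ} (ha : Squarefree a) (hb : Squarefree b) {u t r s v : ℚ_[p]}
    (hu : ‖u‖ ≤ 1) (ht : ‖t‖ ≤ 1) (h : ‖u‖ < 1 → ¬‖t‖ < 1) (e1 : u = a * r ^ 2)
    (e2 : u - 9 * n * t ^ 2 = b * s ^ 2) (e3 : u + 16 * n * t ^ 2 = a * b * v ^ 2) :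
    LI p n a b := by
  obtain ⟨u, rfl⟩ := ex_lift hu
  obtain ⟨t, rfl⟩ := ex_lift ht
  obtain ⟨r, rfl⟩ := ex_lift (norm_le_of_sqfree ha (s := r) (by rw [← e1]; exact u.2))
  have e2' : ((u - 9 * n * t ^ 2 : ℤ_[p]) : ℚ_[p]) = b * s ^ 2 := by
    push_cast
    rw [c9, e2]
  obtain ⟨s, rfl⟩ := ex_lift (norm_le_of_sqfree hb (s := s) (by rw [← e2']; exact nle _))
  have e4 : (((b : ℤ_[p]) * (u * (u + 16 * n * t ^ 2)) : ℤ_[p]) : ℚ_[p]) = (a * b * r * v) ^ 2 := by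
    push_cast
    rw [c16, e3, e1]
    ring
  have e5 : (((a : ℤ_[p]) * b * (u + 16 * n * t ^ 2) : ℤ_[p]) : ℚ_[p]) = (a * b * v) ^ 2 := by
    push_cast
    rw [c16, e3]
    ring
  obtain ⟨V, hV⟩ := ex_lift (norm_le_of_sq (nle _) e4)
  obtain ⟨W, hW⟩ := ex_lift (norm_le_of_sq (nle _) e5)
  refine ⟨u, t, r, s, V, W, fun h1 h2 => h ((norm_lt_one_iff_dvd u).2 h1)
      ((norm_lt_one_iff_dvd t).2 h2), coe_inj ?_, coe_inj ?_, coe_inj ?_, coe_inj ?_⟩
  · exact_mod_cast e1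
  · rw [e2']
    simp
  · rw [e4, ← hV]
    simp
  · rw [e5, ← hW]
    simp

theorem li_of_loc {n : ℕ} {a b : ℤ} (ha : Squarefree a) (hb : Squarefree b)
    (h : Loc ℚ_[p] 0 (9 * n / 4) (-4 * n) a b) : LI p n a b := by
  have ha0 : (a : ℚ_[p]) ≠ 0 := by exact_mod_cast ha.ne_zero
  have hb0 : (b : ℚ_[p]) ≠ 0 := by exact_mod_cast hb.ne_zero
  rcases h with ⟨⟨α, h1⟩, β, h2⟩ | ⟨x, w1, w2, w3, e1, e2, e3⟩
  · have hα : α ≠ 0 := fun h => ha0 (by rw [h1, h, mul_zero])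
    have hβ : β ≠ 0 := fun h => hb0 (by rw [h2, h, mul_zero])
    refine li_of ha hb (u := 1) (t := 0) (r := α⁻¹) (s := β⁻¹) (v := α⁻¹ * β⁻¹) (by simp) (by simp)
      (by simp) ?_ ?_ ?_
    · rw [h1]; field_simp
    · rw [h2]; field_simp; ring
    · rw [h1, h2]; field_simp; ring
  · set X := 4 * x with hX
    have f1 : X = a * (2 * w1) ^ 2 := by linear_combination 4 * e1
    have f2 : X - 9 * n = b * (2 * w2) ^ 2 := by linear_combination 4 * e2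
    have f3 : X + 16 * n = a * b * (2 * w3) ^ 2 := by linear_combination 4 * e3
    by_cases hx : ‖X‖ ≤ 1
    · exact li_of ha hb (u := X) (t := 1) hx (by simp) (by simp) f1 (by simpa using f2)
        (by simpa using f3)
    rw [not_le] at hx
    have key : ∀ m : ℤ, ‖X + m‖ = ‖X‖ := fun m => by
      have := (Padic.norm_int_le_one (p := p) m).trans_lt hx
      rw [Padic.add_eq_max_of_ne this.ne', max_eq_left this.le]
    have k2 : ‖X - 9 * n‖ = ‖X‖ := by simpa [sub_eq_add_neg] using key (-(9 * n))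
    have k3 : ‖X + 16 * n‖ = ‖X‖ := by simpa using key (16 * n)
    set Y := a * b * (2 * w1) * (2 * w2) * (2 * w3) with hY
    have hY2 : ‖Y‖ ^ 2 = ‖X‖ ^ 3 := by
      rw [← norm_pow, show Y ^ 2 = X * (X - 9 * n) * (X + 16 * n) by rw [f2, f3, f1]; ring,
        norm_mul, norm_mul, k2, k3]
      ring
    have hX0 : 0 < ‖X‖ := one_pos.trans hx
    have hY0 : ‖Y‖ ≠ 0 := fun h => by
      rw [h] at hY2
      have := pow_pos hX0 3
      rw [← hY2] at this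
      norm_num at this
    have hu : ‖X * (X / Y) ^ 2‖ = 1 := by
      rw [norm_mul, norm_pow, norm_div, div_pow, hY2]
      field_simp
    refine li_of ha hb (u := X * (X / Y) ^ 2) (t := X / Y) (r := 2 * w1 * (X / Y))
      (s := 2 * w2 * (X / Y)) (v := 2 * w3 * (X / Y)) hu.le ?_ (fun h => absurd hu h.ne) ?_ ?_ ?_
    · rw [norm_mul, norm_pow] at hu
      by_contra h
      rw [not_le] at h
      have : 1 < ‖X / Y‖ ^ 2 := one_lt_pow₀ h two_ne_zero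
      nlinarith
    · linear_combination (X / Y) ^ 2 * f1
    · linear_combination (X / Y) ^ 2 * f2
    · linear_combination (X / Y) ^ 2 * f3

end loc

section
variable {n : ℕ} (hn : Squarefree n) (h4 : n % 4 = 3) (h3 : n % 3 = 2) (h5 : n % 5 = 2 ∨ n % 5 = 3)

include h3 h5 in
theorem step1_dvd {a d : ℤ} (hd : Squarefree d) (H : ∀ (p : ℕ) [Fact p.Prime], LI p n a d) :
    d ∣ n := by
  have k3 : ∀ a b : ZMod 3, ¬b = 0 → ¬IsSquare (3 * a + 16 * 2 * b ^ 2) := by decide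
  have k5 : ∀ a b c : ZMod 5, ¬b = 0 → IsSquare a → c = 2 ∨ c = 3 → a - 9 * c * b ^ 2 ≠ 0 := by
    decide
  refine Desc.dvd_of_sqfree hd fun l hl hld => ?_
  have := Fact.mk hl
  obtain ⟨u, t, -, s, V, -, hc, -, e1, e2, -⟩ := H l
  have hp : Prime (l : ℤ_[l]) := prime_p
  obtain ⟨d₀, hd₀⟩ := hld
  have hd₁ : ¬(l : ℤ_[l]) ∣ d₀ := fun h => Desc.not_sq_dvd hd hl hd₀ ((pint _).1 h)
  subst hd₀
  push_cast at e1 e2
  have hB : (l : ℤ_[l]) ∣ u - 9 * n * t ^ 2 := ⟨d₀ * s ^ 2, by rw [e1]; ring⟩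
  have ht : ¬(l : ℤ_[l]) ∣ t := fun h => hc (by
    simpa using dvd_add hB (show (l : ℤ_[l]) ∣ 9 * n * t ^ 2 from
      Dvd.dvd.mul_left (dvd_pow h two_ne_zero) _)) h
  obtain ⟨V', hV⟩ : (l : ℤ_[l]) ∣ V := hp.dvd_of_dvd_pow (n := 2)
    ⟨d₀ * (u * (u + 16 * n * t ^ 2)), by rw [← e2]; ring⟩
  have h1 : (l : ℤ_[l]) ∣ d₀ * (u * (u + 16 * n * t ^ 2)) :=
    ⟨V' ^ 2, mul_left_cancel₀ hp.ne_zero (by rw [hV] at e2; linear_combination e2)⟩
  by_contra hln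
  have hln' : ¬(l : ℤ_[l]) ∣ n := fun h => hln ((pint n).1 (by exact_mod_cast h))
  have key : ∀ q : ℕ, q.Prime → (l : ℤ_[l]) ∣ (q : ℤ_[l]) ^ 2 * n * t ^ 2 → l = q := fun q hq h =>
    (hp.dvd_or_dvd h).elim (fun h => (hp.dvd_or_dvd h).elim (small hq) fun h => absurd h hln')
      fun h => absurd (hp.dvd_of_dvd_pow h) ht
  have hnt : ¬(l : ℤ_[l]) ∣ n * t ^ 2 := fun h =>
    (hp.dvd_or_dvd h).elim hln' fun h => ht (hp.dvd_of_dvd_pow h)
  rcases hp.dvd_or_dvd ((hp.dvd_or_dvd h1).resolve_left hd₁) with h | h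
  · obtain rfl : l = 3 := key 3 Nat.prime_three (by
      rw [show ((3 : ℕ) : ℤ_[l]) ^ 2 * n * t ^ 2 = u - (u - 9 * n * t ^ 2) by push_cast; ring]
      exact dvd_sub h hB)
    obtain ⟨u', rfl⟩ := h
    refine bad_prime hd₁ hnt (s := s) (Y := u') (X := 3 * u' + 16 * n * t ^ 2)
      (W := V) (fun hsq => ?_) (mul_left_cancel₀ hp.ne_zero ?_) ?_
    · rw [← pz] at ht
      have hn3 : (n : ZMod 3) = 2 := by rw [← ZMod.natCast_mod, h3]; rfl
      simp only [map_add, map_mul, map_pow, map_natCast, map_ofNat] at hsq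
      rw [hn3] at hsq
      exact k3 _ _ ht hsq
    · push_cast at e1 ⊢
      linear_combination -e1
    · push_cast at e2 ⊢
      linear_combination e2
  · obtain rfl : l = 5 := key 5 Nat.prime_five (by
      rw [show ((5 : ℕ) : ℤ_[l]) ^ 2 * n * t ^ 2 = u + 16 * n * t ^ 2 - (u - 9 * n * t ^ 2) by
        push_cast; ring]
      exact dvd_sub h hB)
    obtain ⟨C', hC⟩ := h
    refine bad_prime hd₁ hnt (s := s) (Y := C') (X := u)
      (W := V) (fun hsq => ?_) (mul_left_cancel₀ hp.ne_zero ?_) ?_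
    · rw [← pz] at ht hB
      have hn5 : (n : ZMod 5) = 2 ∨ (n : ZMod 5) = 3 := by
        rw [← ZMod.natCast_mod]
        rcases h5 with h | h <;> rw [h] <;> simp
      simp only [map_sub, map_mul, map_pow, map_natCast, map_ofNat] at hB
      exact k5 _ _ _ ht hsq hn5 hB
    · push_cast at e1 hC ⊢
      linear_combination hC - e1
    · rw [hC] at e2
      push_cast at e2 ⊢
      linear_combination e2

/-- Reduction modulo four. -/
noncomputable def m4 : ℤ_[2] →+* ZMod 4 := toZModPow 2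

theorem even_or_odd (x : ℤ_[2]) : ∃ y, x = 2 * y ∨ x = 2 * y + 1 := by
  have h : ∀ z : ZMod 2, z = 0 ∨ z - 1 = 0 := by decide
  rcases h (toZMod x) with h | h
  · obtain ⟨y, hy⟩ := (pz x).1 h
    exact ⟨y, .inl (by exact_mod_cast hy)⟩
  · obtain ⟨y, hy⟩ := (pz (x - 1)).1 (by simpa using h)
    exact ⟨y, .inr (by push_cast at hy; linear_combination hy)⟩

theorem odd_of {x : ℤ_[2]} (h : ¬((2 : ℕ) : ℤ_[2]) ∣ x) : ∃ y, x = 2 * y + 1 := by
  obtain ⟨y, rfl | rfl⟩ := even_or_odd x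
  · exact absurd ⟨y, by simp⟩ h
  · exact ⟨y, rfl⟩

include h4 in
theorem step1_mod {a d : ℤ} (hd : d % 2 = 1) (H : LI 2 n a d) : d % 4 = 1 := by
  obtain ⟨u, t, -, s, V, -, hc, -, e1, e2, -⟩ := H
  have hn4 : (n : ZMod 4) = 3 := by rw [← ZMod.natCast_mod, h4]; rfl
  have hd4 : (d : ZMod 4) = 1 → d % 4 = 1 := fun h => by
    have : ((d - 1 : ℤ) : ZMod 4) = 0 := by push_cast; rw [h, sub_self]
    rw [ZMod.intCast_zmod_eq_zero_iff_dvd] at this
    omega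
  obtain ⟨d', rfl⟩ : ∃ d', d = 2 * d' + 1 := ⟨d / 2, by omega⟩
  push_cast at e1 e2
  have odd : ∀ a m W : ℤ_[2], (2 * d' + 1) * ((2 * a + 1) * (2 * a + 1 + 4 * m)) = W ^ 2 →
      (2 * d' + 1) % 4 = 1 := fun a m W h => hd4 (by
    have := congrArg m4 h
    simp only [map_add, map_mul, map_pow, map_intCast, map_ofNat, map_one] at this
    push_cast
    revert this
    generalize m4 a = a
    generalize m4 m = m
    generalize m4 W = W
    generalize (d' : ZMod 4) = d'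
    revert a m W d'
    decide)
  obtain ⟨a, rfl | rfl⟩ := even_or_odd u
  · obtain ⟨b, rfl⟩ := odd_of (hc ⟨a, by simp⟩)
    obtain ⟨a, rfl | rfl⟩ := even_or_odd a
    · refine hd4 ?_
      have := congrArg m4 e1
      simp only [map_add, map_sub, map_mul, map_pow, map_intCast, map_natCast, map_ofNat,
        map_one] at this
      push_cast
      rw [hn4] at this
      revert this
      generalize m4 a = a
      generalize m4 b = b
      generalize m4 s = s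
      generalize (d' : ZMod 4) = d'
      revert a b s d'
      decide
    · obtain ⟨W, hW⟩ := cancel_sq (d := 2 * (d' : ℤ_[2]) + 1) (s := 2) (W := V)
        (X := (2 * a + 1) * (2 * a + 1 + 4 * (2 * (n : ℤ_[2]) * (2 * b + 1) ^ 2))) two_ne_zero
        (by linear_combination e2)
      exact odd _ _ _ hW
  · exact odd a (4 * n * t ^ 2) V (by linear_combination e2)

include hn h4 h3 h5 in
theorem step1 (hR : Desc.RedeiR n) {a d : ℤ} (hd : Squarefree d)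
    (H : ∀ (p : ℕ) [Fact p.Prime], LI p n a d) : d = 1 ∨ d = -n := by
  obtain ⟨d', hd'⟩ := step1_dvd h3 h5 hd H
  have hodd : d % 2 = 1 := by
    by_contra h
    have : (2 : ℤ) ∣ n := (show (2 : ℤ) ∣ d by omega).trans ⟨d', hd'⟩
    omega
  have hn' : Squarefree (n : ℤ) := Int.squarefree_natCast.2 hn
  refine (hR d (-d') (by rw [hd']; ring) (step1_mod h4 hodd (H 2)) (fun p hp hpd => ?_)
    (fun p hp hpd => ?_)).imp_right fun h => by rw [hd', show d' = -1 by omega]; ring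
  · have := Fact.mk hp
    obtain ⟨u, t, -, s, V, -, hc, -, e1, e2, -⟩ := H p
    have hp' : Prime (p : ℤ_[p]) := prime_p
    obtain ⟨d₀, rfl⟩ := hpd
    have hd₀ : ¬(p : ℤ_[p]) ∣ d₀ := fun h => Desc.not_sq_dvd hd hp rfl ((pint _).1 h)
    have hd'' : (n : ℤ_[p]) = p * d₀ * d' := by exact_mod_cast congrArg (Int.cast : ℤ → ℤ_[p]) hd'
    rw [hd''] at e1 e2
    push_cast at e1 e2
    obtain ⟨u', rfl⟩ : (p : ℤ_[p]) ∣ u := ⟨d₀ * s ^ 2 + 9 * (d₀ * d') * t ^ 2, by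
      linear_combination e1⟩
    obtain ⟨n3, n5⟩ := not_dvd_mul h3 h5 ⟨d₀ * d', by rw [hd']; ring⟩ (hc ⟨u', rfl⟩)
    have e3 : d₀ * s ^ 2 = u' - 9 * (d₀ * d') * t ^ 2 :=
      mul_left_cancel₀ hp'.ne_zero (by linear_combination -e1)
    obtain ⟨V', e4⟩ := cancel_sq (d := (p : ℤ_[p])) (s := p) (W := V)
      (X := d₀ * (u' * (u' + 16 * (d₀ * d') * t ^ 2))) hp'.ne_zero (by linear_combination e2)
    obtain ⟨V', rfl⟩ : (p : ℤ_[p]) ∣ V' := hp'.dvd_of_dvd_pow (n := 2) ⟨_, e4.symm⟩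
    have h1 : (p : ℤ_[p]) ∣ d₀ * (u' * (u' + 16 * (d₀ * d') * t ^ 2)) :=
      ⟨V' ^ 2, mul_left_cancel₀ hp'.ne_zero (by linear_combination e4)⟩
    rw [← map_intCast (toZMod (p := p))]
    push_cast
    rcases hp'.dvd_or_dvd ((hp'.dvd_or_dvd h1).resolve_left hd₀) with h | h
    · refine sq_of_mul n3 (W := s) ((hp'.dvd_or_dvd (a := d₀) ?_).resolve_left hd₀)
      convert h.neg_right using 1
      linear_combination -e3
    · refine sq_of_mul n5 (W := s) ((hp'.dvd_or_dvd (a := d₀) ?_).resolve_left hd₀)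
      convert h.neg_right using 1
      linear_combination -e3
  · have := Fact.mk hp
    obtain ⟨u, t, -, s, V, -, hc, -, e1, e2, -⟩ := H p
    have hp' : Prime (p : ℤ_[p]) := prime_p
    obtain ⟨c, rfl⟩ : (p : ℤ) ∣ d' := by simpa using hpd
    have hn₀ : ¬(p : ℤ_[p]) ∣ d * c := fun h =>
      Desc.not_sq_dvd hn' hp (d₀ := d * c) (by rw [hd']; ring) ((pint _).1 (by exact_mod_cast h))
    have hd'' : (n : ℤ_[p]) = d * (p * c) := by exact_mod_cast congrArg (Int.cast : ℤ → ℤ_[p]) hd'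
    rw [hd''] at e1 e2
    rw [← map_intCast (toZMod (p := p))]
    by_cases hu : (p : ℤ_[p]) ∣ u
    · obtain ⟨u', rfl⟩ := hu
      obtain ⟨n3, n5⟩ := not_dvd_mul h3 h5 ⟨d * c, by rw [hd']; ring⟩ (hc ⟨u', rfl⟩)
      obtain ⟨s', rfl⟩ : (p : ℤ_[p]) ∣ s := hp'.dvd_of_dvd_pow (n := 2) ((hp'.dvd_or_dvd
        (show (p : ℤ_[p]) ∣ d * s ^ 2 from
          ⟨u' - 9 * (d * c) * t ^ 2, by linear_combination -e1⟩)).resolve_left
        fun h => hn₀ (h.mul_right _))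
      have e3 : u' = 9 * (d * c) * t ^ 2 + p * d * s' ^ 2 :=
        mul_left_cancel₀ hp'.ne_zero (by linear_combination e1)
      obtain ⟨V', e4⟩ := cancel_sq (d := (d : ℤ_[p])) (s := p) (W := V)
        (X := u' * (u' + 16 * (d * c) * t ^ 2)) hp'.ne_zero (by linear_combination e2)
      refine sq_of_mul (z := d * c * (3 * t * (5 * t))) (W := V') (fun h => ?_)
        ⟨-(d * (d * s' ^ 2) * (34 * (d * c) * t ^ 2 + p * d * s' ^ 2)), by
          rw [← e4, e3]; ring⟩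
      exact (hp'.dvd_or_dvd h).elim hn₀ fun h => (hp'.dvd_or_dvd h).elim n3 n5
    · exact sq_of_mul hu (W := V) ⟨-(d * u * 16 * (d * c) * t ^ 2), by rw [← e2]; ring⟩

include hn h4 h3 h5 in
theorem step2 (hL : Desc.RedeiL n) {b : ℤ} (hb : Squarefree b) (hb0 : 0 < b)
    (H : ∀ (p : ℕ) [Fact p.Prime], LI p n b 1) : b = 1 ∨ b = n := by
  have hn0 : (0 : ℤ) < n := by omega
  obtain ⟨c, hbc⟩ : b ∣ n := Desc.dvd_of_sqfree hb fun l hl hlb => by
    have := Fact.mk hl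
    obtain ⟨u, t, r, s, -, V', hc, e3, e1, -, e4⟩ := H l
    have hp : Prime (l : ℤ_[l]) := prime_p
    obtain ⟨b₀, rfl⟩ := hlb
    have hb₁ := Desc.not_sq_dvd hb hl rfl
    have hb₀ : ¬(l : ℤ_[l]) ∣ b₀ := fun h => hb₁ ((pint _).1 h)
    push_cast at e1 e3 e4
    have hlu : (l : ℤ_[l]) ∣ u := ⟨b₀ * r ^ 2, by rw [e3]; ring⟩
    have hlt := hc hlu
    obtain ⟨V', rfl⟩ : (l : ℤ_[l]) ∣ V' := hp.dvd_of_dvd_pow (n := 2)
      ⟨b₀ * (u + 16 * n * t ^ 2), by rw [← e4]; ring⟩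
    have h1 : (l : ℤ_[l]) ∣ b₀ * (u + 16 * n * t ^ 2) :=
      ⟨V' ^ 2, mul_left_cancel₀ hp.ne_zero (by linear_combination e4)⟩
    have h2 : (l : ℤ_[l]) ∣ ((2 : ℕ) : ℤ_[l]) ^ 4 * n * t ^ 2 := by
      rw [show ((2 : ℕ) : ℤ_[l]) ^ 4 * n * t ^ 2 = u + 16 * n * t ^ 2 - u by push_cast; ring]
      exact dvd_sub ((hp.dvd_or_dvd h1).resolve_left hb₀) hlu
    refine (pint n).1 ?_
    rw [Int.cast_natCast]
    refine (hp.dvd_or_dvd ((hp.dvd_or_dvd h2).resolve_right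
      fun h => hlt (hp.dvd_of_dvd_pow h))).resolve_left fun h => ?_
    obtain rfl := small Nat.prime_two h
    have hn4 : (n : ZMod 4) = 3 := by rw [← ZMod.natCast_mod, h4]; rfl
    obtain ⟨t', rfl⟩ := odd_of hlt
    obtain ⟨b', rfl⟩ : ∃ b', b₀ = 2 * b' + 1 := ⟨b₀ / 2, by omega⟩
    rw [e3] at e1 e4
    push_cast at e1 e4
    obtain ⟨r', rfl | rfl⟩ := even_or_odd r
    · obtain ⟨U, e5⟩ := cancel_sq (d := 2 * (b' : ℤ_[2]) + 1) (s := 4) (W := 2 * V')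
        (X := (2 * (b' : ℤ_[2]) + 1) * r' ^ 2 + 2 * (n : ℤ_[2]) * (2 * t' + 1) ^ 2) (by norm_num)
        (by linear_combination e4)
      have := congrArg m4 e5
      simp only [map_add, map_mul, map_pow, map_intCast, map_natCast, map_ofNat, map_one] at this
      rw [hn4] at this
      revert this
      generalize (b' : ZMod 4) = a
      generalize m4 r' = b
      generalize m4 t' = c
      generalize m4 U = d
      revert a b c d
      decide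
    · have := congrArg m4 e1
      simp only [map_add, map_sub, map_mul, map_pow, map_intCast, map_natCast, map_ofNat,
        map_one] at this
      rw [hn4] at this
      revert this
      generalize (b' : ZMod 4) = a
      generalize m4 r' = b
      generalize m4 t' = c
      generalize m4 s = d
      revert a b c d
      decide
  have hc0 : 0 < c := by
    by_contra h
    nlinarith
  have hn' : Squarefree (n : ℤ) := Int.squarefree_natCast.2 hn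
  lift b to ℕ using hb0.le
  lift c to ℕ using hc0.le
  refine (hL b c (by exact_mod_cast hbc.symm) (fun p hp hpb => ?_) (fun p hp hpc => ?_)).imp
    (fun h => by rw [h]; simp) fun h => by rw [hbc, h]; simp
  · have := Fact.mk hp
    obtain ⟨u, t, r, s, -, -, hc, e3, e1, -, -⟩ := H p
    have hp' : Prime (p : ℤ_[p]) := prime_p
    obtain ⟨b₀, rfl⟩ := hpb
    have hb₀ : ¬(p : ℤ_[p]) ∣ b₀ := fun h =>
      Desc.not_sq_dvd hb hp (d₀ := b₀) (by push_cast; ring) ((pint _).1 (by exact_mod_cast h))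
    have hbc' : (n : ℤ_[p]) = p * b₀ * c := by exact_mod_cast congrArg (Int.cast : ℤ → ℤ_[p]) hbc
    push_cast at e1 e3 hbc
    obtain ⟨n3, -⟩ := not_dvd_mul h3 h5 ⟨b₀ * c, by rw [hbc]; ring⟩
      (hc ⟨b₀ * r ^ 2, by rw [e3]; ring⟩)
    rw [hbc', e3] at e1
    obtain ⟨s', rfl⟩ : (p : ℤ_[p]) ∣ s := hp'.dvd_of_dvd_pow (n := 2)
      ⟨b₀ * (r ^ 2 - 9 * c * t ^ 2), by linear_combination -e1⟩
    have h1 : (p : ℤ_[p]) ∣ b₀ * (c * (3 * t) ^ 2 - r ^ 2) :=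
      ⟨-s' ^ 2, mul_left_cancel₀ hp'.ne_zero (by linear_combination -e1)⟩
    simpa using sq_of_mul n3 ((hp'.dvd_or_dvd h1).resolve_left hb₀)
  · have := Fact.mk hp
    obtain ⟨u, t, r, s, -, -, hc, e3, e1, -, -⟩ := H p
    have hp' : Prime (p : ℤ_[p]) := prime_p
    obtain ⟨c₀, rfl⟩ := hpc
    have hn₀ : ¬(p : ℤ_[p]) ∣ b * c₀ := fun h => Desc.not_sq_dvd hn' hp (d₀ := b * c₀)
      (by rw [hbc]; push_cast; ring) ((pint _).1 (by exact_mod_cast h))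
    have hbc' : (n : ℤ_[p]) = b * (p * c₀) := by exact_mod_cast congrArg (Int.cast : ℤ → ℤ_[p]) hbc
    push_cast at e1 e3 hbc
    rw [hbc', e3] at e1
    have hpr : ¬(p : ℤ_[p]) ∣ r := fun h => by
      obtain ⟨n3, -⟩ := not_dvd_mul h3 h5 ⟨b * c₀, by rw [hbc]; ring⟩
        (hc (e3 ▸ (dvd_pow h two_ne_zero).mul_left _))
      obtain ⟨r', rfl⟩ := h
      obtain ⟨s', rfl⟩ : (p : ℤ_[p]) ∣ s := hp'.dvd_of_dvd_pow (n := 2)
        ⟨b * p * r' ^ 2 - 9 * (b * c₀) * t ^ 2, by linear_combination -e1⟩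
      have h1 : (p : ℤ_[p]) ∣ b * c₀ * (3 * t) ^ 2 :=
        ⟨b * r' ^ 2 - s' ^ 2, mul_left_cancel₀ hp'.ne_zero (by linear_combination -e1)⟩
      exact (hp'.dvd_or_dvd h1).elim hn₀ fun h => n3 (hp'.dvd_of_dvd_pow h)
    simpa using sq_of_mul hpr (d := b) (W := s) ⟨9 * (b * c₀) * t ^ 2, by linear_combination e1⟩

end

theorem scale {K : Type} [Field K] {e₁ e₂ e₃ a b r s : K} (hr : r ≠ 0) (hs : s ≠ 0)
    (h : Loc K e₁ e₂ e₃ (a * r ^ 2) (b * s ^ 2)) : Loc K e₁ e₂ e₃ a b := by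
  rcases h with ⟨⟨x, h1⟩, y, h2⟩ | ⟨x, w1, w2, w3, e1, e2, e3⟩
  · exact .inl ⟨⟨x / r, by field_simp; linear_combination h1⟩,
      y / s, by field_simp; linear_combination h2⟩
  · exact .inr ⟨x, r * w1, s * w2, r * s * w3, by linear_combination e1, by linear_combination e2,
      by linear_combination e3⟩

theorem transl {K : Type} [Field K] [CharZero K] {n a b : K} (hn : n ≠ 0) (ha : a ≠ 0) (hb : b ≠ 0)
    (h : Loc K 0 (9 * n / 4) (-4 * n) a b) : Loc K 0 (9 * n / 4) (-4 * n) (-a) (-n * b) := by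
  rcases h with ⟨⟨x, h1⟩, y, h2⟩ | ⟨x, w1, w2, w3, e1, e2, e3⟩
  · have hx : x ≠ 0 := fun h => ha (by rw [h1, h, mul_zero])
    have hy : y ≠ 0 := fun h => hb (by rw [h2, h, mul_zero])
    refine .inr ⟨0, 0, 3 / (2 * y), 2 / (x * y), by simp, ?_, ?_⟩
    · rw [h2]; field_simp; ring
    · rw [h1, h2]; field_simp; ring
  · by_cases hx : x = 0
    · subst hx
      have h3 : w3 ≠ 0 := fun h => hn (by rw [h] at e3; linear_combination e3 / 4)
      refine .inl ⟨⟨4 * w2 / (3 * w3), ?_⟩, 2 * b * w2 / 3, by linear_combination 4 * b / 9 * e2⟩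
      field_simp
      exact mul_left_cancel₀ hb (by linear_combination 9 * e3 + 16 * e2)
    · have h1 : w1 ≠ 0 := fun h => hx (by rw [h] at e1; linear_combination e1)
      rw [sub_zero] at e1
      refine .inr ⟨-9 * n ^ 2 / x, 3 * n / (a * w1), 3 * w3 / (2 * w1), 2 * w2 / (a * w1), ?_, ?_, ?_⟩
      · rw [e1]; field_simp; ring
      · subst e1; field_simp; linear_combination -36 * e3
      · subst e1; field_simp; linear_combination 4 * e2

theorem ex_sqfree {d : ℚ} (h : d ≠ 0) : ∃ (a : ℤ) (r : ℚ), Squarefree a ∧ r ≠ 0 ∧ d = a * r ^ 2 := by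
  have hd : (d.den : ℚ) ≠ 0 := by exact_mod_cast d.den_nz
  obtain ⟨a, s, ha, hs, e⟩ := Desc.exists_sqfree (B := d.num * d.den)
    (mul_ne_zero (Rat.num_ne_zero.2 h) (by exact_mod_cast d.den_nz))
  have e' : (d.num : ℚ) * d.den = a * s ^ 2 := by exact_mod_cast e
  refine ⟨a, s / d.den, ha, div_ne_zero (by exact_mod_cast hs) hd, ?_⟩
  rw [div_pow, ← mul_div_assoc, ← e']
  field_simp
  exact Rat.mul_den_eq_num d

theorem core {n : ℕ} (hn : Squarefree n) (h4 : n % 4 = 3) (h3 : n % 3 = 2)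
    (h5 : n % 5 = 2 ∨ n % 5 = 3) (hL : Desc.RedeiL n) {d₁ d₂ : ℚ}
    (h1 : d₁ ≠ 0) (h2 : d₂ ≠ 0) (hr : Loc ℝ 0 (9 * n / 4) (-4 * n) d₁ d₂)
    (hp : ∀ (p : ℕ) [Fact p.Prime], Loc ℚ_[p] 0 (9 * n / 4) (-4 * n) d₁ d₂) (hs : IsSquare d₂) :
    IsSquare d₁ ∨ IsSquare (n * d₁) := by
  obtain ⟨a, r, ha, hr0, rfl⟩ := ex_sqfree h1
  obtain ⟨s, rfl⟩ := hs
  have hs : s ≠ 0 := fun h => h2 (by rw [h, mul_zero])
  have ha0 : 0 < a := by
    have hn0 : (0 : ℝ) < n := by exact_mod_cast (by omega : 0 < n)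
    have : Loc ℝ 0 (9 * n / 4) (-4 * n) a 1 := scale (r := (r : ℝ)) (s := (s : ℝ))
      (by exact_mod_cast hr0) (by exact_mod_cast hs) (by convert hr using 1 <;> push_cast <;> ring)
    have h0 : (0 : ℝ) ≤ a := by
      rcases this with ⟨⟨x, h1⟩, -⟩ | ⟨x, w1, w2, w3, e1, e2, e3⟩
      · rw [h1]; exact mul_self_nonneg x
      · by_contra h
        nlinarith [sq_nonneg w1, sq_nonneg w2]
    exact lt_of_le_of_ne (by exact_mod_cast h0) ha.ne_zero.symm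
  rcases step2 hn h4 h3 h5 hL ha ha0 (fun p _ => li_of_loc ha squarefree_one
    (scale (r := (r : ℚ_[p])) (s := (s : ℚ_[p])) (by exact_mod_cast hr0) (by exact_mod_cast hs)
      (by convert hp p using 1 <;> push_cast <;> ring))) with rfl | rfl
  · exact .inl ⟨r, by push_cast; ring⟩
  · exact .inr ⟨n * r, by push_cast; ring⟩

end Sel

open Sel in
theorem selmer {n : ℕ} (hn : Squarefree n) (h4 : n % 4 = 3) (h3 : n % 3 = 2)
    (h5 : n % 5 = 2 ∨ n % 5 = 3) (hL : Desc.RedeiL n) (hR : Desc.RedeiR n) {d₁ d₂ : ℚ}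
    (h1 : d₁ ≠ 0) (h2 : d₂ ≠ 0) (hr : Loc ℝ 0 (9 * n / 4) (-4 * n) d₁ d₂)
    (hp : ∀ (p : ℕ) [Fact p.Prime], Loc ℚ_[p] 0 (9 * n / 4) (-4 * n) d₁ d₂) :
    (IsSquare d₁ ∧ IsSquare d₂) ∨ (IsSquare (-d₁) ∧ IsSquare (-n * d₂)) ∨
      (IsSquare (n * d₁) ∧ IsSquare d₂) ∨ (IsSquare (-n * d₁) ∧ IsSquare (-n * d₂)) := by
  have hn0 : n ≠ 0 := by omega
  have key : IsSquare d₂ ∨ IsSquare (-n * d₂) := by
    obtain ⟨a, r, ha, hr0, rfl⟩ := ex_sqfree h1
    obtain ⟨b, s, hb, hs, rfl⟩ := ex_sqfree h2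
    rcases step1 hn h4 h3 h5 hR hb (fun p _ => li_of_loc ha hb
      (scale (r := (r : ℚ_[p])) (s := (s : ℚ_[p])) (by exact_mod_cast hr0) (by exact_mod_cast hs)
        (by convert hp p using 1 <;> push_cast <;> ring))) with rfl | rfl
    · exact .inl ⟨s, by push_cast; ring⟩
    · exact .inr ⟨n * s, by push_cast; ring⟩
  rcases key with h | h
  · rcases core hn h4 h3 h5 hL h1 h2 hr hp h with h' | h'
    · exact .inl ⟨h', h⟩
    · exact .inr (.inr (.inl ⟨h', h⟩))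
  · rcases core hn h4 h3 h5 hL (neg_ne_zero.2 h1)
      (mul_ne_zero (neg_ne_zero.2 (by exact_mod_cast hn0)) h2)
      (by
        push_cast
        exact transl (by exact_mod_cast hn0) (by exact_mod_cast h1) (by exact_mod_cast h2) hr)
      (fun p _ => by
        push_cast
        exact transl (by exact_mod_cast hn0) (by exact_mod_cast h1) (by exact_mod_cast h2) (hp p))
      h with h' | h'
    · exact .inr (.inl ⟨h', h⟩)
    · exact .inr (.inr (.inr ⟨by simpa using h', h⟩))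

end Pool.Agent.P.MP_9c97e9_nt
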