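import Pool.Agent.P.MP_9c97e9_nt.Sha
import Pool.Agent.P.MP_9c97e9_nt.Tam
import Pool.Agent.P.MP_9c97e9_nt.Selmer
import Pool.Agent.P.MP_9c97e9_nt.Gauss
import Pool.Agent.P.MP_9c97e9_nt.Lfun
import Pool.Agent.P.MP_9c97e9_nt.OmInt
import Pool.Agent.P.MP_9c97e9_nt.Period
import Pool.Agent.P.MP_8b7eba_nt.BSD15.Sharp
import Pool.Agent.P.MP_8b7eba_nt.ClassLink

/-! The invariants of the twists of `X₀(15)`. -/

namespace Pool.Agent.P.MP_9c97e9_nt

open MP_8b7eba_nt Classical Finset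

variable {n : ℕ}

theorem split_tw (h4 : n % 4 = 3) (F : Type) [Field F] [CharZero F] :
    Split (tw n) (0 : F) (9 * n / 4) (-4 * n) := by
  have h0 : (n : F) ≠ 0 := by exact_mod_cast (show n ≠ 0 by omega)
  have h := congrArg (Int.cast : ℤ → F) (ap_four h4)
  refine ⟨two_ne_zero, by simpa using h0, by simpa using h0,
    fun e => h0 (by linear_combination 4 / 25 * e), ?_, ?_, ?_⟩ <;> simp only [tw]
  · generalize (7 * (n : ℤ) - 1) / 4 = a at h
    push_cast at h ⊢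
    linear_combination h
  · push_cast
    ring
  · simp

theorem nonsq : ¬ IsSquare (0 - -4 * 2 : ZMod 3) ∧ ¬ IsSquare (-4 * 2 - 0 : ZMod 5) ∧
    ¬ IsSquare (-4 * 3 - 0 : ZMod 5) := by decide

theorem om_eq : Mod.om = II := by
  obtain ⟨k, hk⟩ := om_int
  obtain ⟨h1, h2⟩ := om_bound
  have h0 : 0 < II := by linarith
  rw [hk] at h1 h2 ⊢
  have h3 : (0 : ℝ) < k := pos_of_mul_pos_left h1 h0.le
  have h4 : (k : ℝ) < 2 := lt_of_mul_lt_mul_right h2 h0.le
  obtain rfl : k = 1 := by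
    have : (0 : ℤ) < k := by exact_mod_cast h3
    have : k < 2 := by exact_mod_cast h4
    omega
  simp

section
variable (hn : Squarefree n) (h4 : n % 4 = 3) (h3 : n % 3 = 2) (h5 : n % 5 = 2 ∨ n % 5 = 3)
include hn h4 h3 h5

theorem sha_tw (hL : Desc.RedeiL n) (k : ℕ) (x : Sha (tw n)) (hx : 2 ^ k • x = 0) : x = 0 := by
  have key := sha_two (split_tw h4 ℚ) fun d₁ d₂ h1 h2 hr hp => by
    rcases selmer hn h4 h3 h5 hL ((Desc.redeiL_iff_redeiR hn h4).1 hL) h1 h2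
      (by simpa using hr) fun p _ => by simpa using hp p with
      s | ⟨⟨a, ha⟩, b, hb⟩ | ⟨⟨a, ha⟩, b, hb⟩ | ⟨⟨a, ha⟩, b, hb⟩
    · exact .inl s
    · exact .inr (.inl ⟨⟨3 / 2 * b, by linear_combination 9 / 4 * hb⟩,
        2 * a * b, by linear_combination -4 * n * d₂ * ha + 4 * a * a * hb⟩)
    · exact .inr (.inr (.inl ⟨⟨3 / 2 * a, by linear_combination 9 / 4 * ha⟩,
        5 / 2 * a * b, by linear_combination 25 / 4 * d₂ * ha + 25 / 4 * a * a * hb⟩))
    · exact .inr (.inr (.inr ⟨⟨2 * a, by linear_combination 4 * ha⟩,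
        5 / 2 * b, by linear_combination 25 / 4 * hb⟩))
  induction k generalizing x with
  | zero => simpa using hx
  | succ k ih => exact key x (ih _ (by rwa [← two_nsmul, ← mul_nsmul', ← pow_succ]))

theorem finite_tw (hL : Desc.RedeiL n) : Finite (Pt (tw n) ℚ) := by
  have h := split_tw h4 ℚ
  refine Set.finite_univ_iff.1 (((Desc.finite_twist hn h4 h3 h5 hL
    ((Desc.redeiL_iff_redeiR hn h4).1 hL)).biUnion (t := fun q => {P | Is P (q.1 / 4) (q.2 / 4)})
      fun q _ => Set.Subsingleton.finite fun P hP Q hQ => Is.unique h hP hQ).insert 0 |>.subset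
        fun P _ => (zero_or_is P).imp_right fun ⟨x, η, hP⟩ => ?_)
  refine Set.mem_iUnion₂.2 ⟨(4 * x, 4 * η), ?_, by simpa using hP⟩
  show (4 * η) ^ 2 = _
  linear_combination 16 * hP.eq h

omit hn h3 h5 in
theorem card_tw [Finite (Pt (tw n) ℚ)] : ∃ t, Odd t ∧ Nat.card (Pt (tw n) ℚ) = 4 * t := by
  have h0 : (0 : ℚ) < n := by exact_mod_cast (show 0 < n by omega)
  refine card_eq_four_mul (split_tw h4 ℚ) (fun ⟨r, hr⟩ => by nlinarith [mul_self_nonneg r]) (fun ⟨r, hr⟩ => ?_)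
    fun ⟨r, hr⟩ => by nlinarith
  obtain ⟨s, rfl⟩ := Rat.isSquare_natCast_iff.1
    (⟨2 / 3 * r, by linear_combination 4 / 9 * hr⟩ : IsSquare (n : ℚ))
  have : s % 4 < 4 := Nat.mod_lt _ (by norm_num)
  rw [Nat.mul_mod] at h4
  interval_cases s % 4 <;> omega

theorem tamagawa_tw (p : Nat.Primes) :
    tamagawa (tw n) p = if p.1 ∣ n then 4 else if p.1 = 3 ∨ p.1 = 5 then 2 else 1 := by
  obtain ⟨p, hp⟩ := p
  have := Fact.mk hp
  have h := split_tw h4 ℚ_[p]
  have hu : ∀ k : ℕ, ¬ p ∣ k → ‖(k : ℚ_[p])‖ = 1 := fun k hk =>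
    Padic.norm_natCast_eq_one_iff.2 (hp.coprime_iff_not_dvd.2 hk)
  have hz : p ≠ 2 → ‖(4 : ℚ_[p])‖ = 1 ∧ ∃ z : ℤ_[p], (z : ℚ_[p]) = 9 * n / 4 := fun h2 => by
    have h6 : ‖(4 : ℚ_[p])‖ = 1 := hu 4 fun e =>
      h2 ((Nat.prime_dvd_prime_iff_eq hp Nat.prime_two).1 (hp.dvd_of_dvd_pow (n := 2) e))
    exact ⟨h6, ⟨_, by rw [norm_div, h6, div_one]; exact (9 * n : ℤ_[p]).2⟩, rfl⟩
  show (AddSubgroup.closure (goodRed (tw n) p)).index = if p ∣ n then 4 else _
  split_ifs with h1 h2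
  · have h2 : p ≠ 2 := by rintro rfl; omega
    obtain ⟨h6, z, hz⟩ := hz h2
    have h7 : ‖(9 : ℚ_[p])‖ = 1 := hu 9 fun e => by
      obtain rfl := (Nat.prime_dvd_prime_iff_eq hp Nat.prime_three).1 (hp.dvd_of_dvd_pow (n := 2) e)
      omega
    have h8 : ‖(n : ℚ_[p])‖ = (p : ℝ)⁻¹ := by
      obtain ⟨m, rfl⟩ := h1
      rw [Nat.cast_mul, norm_mul, Padic.norm_p, hu m fun e =>
        hp.not_isUnit (hn p (mul_dvd_mul_left p e)), mul_one]
    rw [← hz] at h
    exact index_additive h2 (e₁ := 0) (e₃ := -4 * n) h (by simp [hz, h6, h7, h8]) (by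
      show ‖(0 : ℚ_[p]) - -4 * n‖ = _
      simp [h6, h8])
  · have h6 : ‖(n : ℚ_[p])‖ = 1 := hu n h1
    rcases h2 with rfl | rfl
    · obtain ⟨h7, z, hz⟩ := hz (by norm_num)
      rw [← hz] at h
      refine index_nonsplit (by norm_num) (e₁ := 0) (e₃ := -4 * n) h ?_ ?_
      · simpa [hz, h6, h7] using Padic.norm_natCast_lt_one_iff.2 (show 3 ∣ 9 by norm_num)
      · have : (n : ZMod 3) = 2 := by rw [← ZMod.natCast_mod, h3]; rfl
        simp only [map_sub, map_mul, map_neg, map_zero, map_natCast, map_ofNat, this]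
        exact nonsq.1
    · obtain ⟨h7, z, hz⟩ := hz (by norm_num)
      rw [← hz] at h
      refine index_nonsplit (by norm_num) (e₁ := -4 * n) (e₃ := 0) h.swap'.swap.swap' ?_ ?_
      · show ‖(-4 * n : ℚ_[5]) - z‖ < 1
        rw [hz, show (-4 * n : ℚ_[5]) - 9 * n / 4 = -(25 * n / 4) by ring]
        simpa [h6, h7] using Padic.norm_natCast_lt_one_iff.2 (show 5 ∣ 25 by norm_num)
      · have : (n : ZMod 5) = 2 ∨ (n : ZMod 5) = 3 := by
          rw [← ZMod.natCast_mod]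
          rcases h5 with h | h <;> rw [h] <;> simp
        simp only [map_sub, map_mul, map_neg, map_zero, map_natCast, map_ofNat]
        rcases this with e | e <;> rw [e]
        exacts [nonsq.2.1, nonsq.2.2]
  · refine index_good fun e => ?_
    rw [tw_Δ h4] at e
    have e' : p ∣ 15 ^ 4 * n ^ 6 := by exact_mod_cast e
    rcases hp.dvd_mul.1 e' with e | e
    · exact h2 ((hp.dvd_mul.1 (hp.dvd_of_dvd_pow e : p ∣ 3 * 5)).imp
        (Nat.prime_dvd_prime_iff_eq hp Nat.prime_three).1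
        (Nat.prime_dvd_prime_iff_eq hp Nat.prime_five).1)
    · exact h1 (hp.dvd_of_dvd_pow e)

theorem prod_tamagawa : ∏ᶠ p, tamagawa (tw n) p = 4 ^ (n.primeFactors.card + 1) := by
  have h6 : ¬ 3 ∣ n := by omega
  have h7 : ¬ 5 ∣ n := by omega
  simp only [tamagawa_tw hn h4 h3 h5]
  refine (finprod_eq_prod_of_mulSupport_subset (α := Subtype Nat.Prime)
    (s := (insert 3 (insert 5 n.primeFactors)).subtype Nat.Prime) _ fun p hp => ?_).trans ?_
  swap
  · refine (prod_subtype_of_mem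
      (fun p : ℕ => if p ∣ n then 4 else if p = 3 ∨ p = 5 then 2 else 1) fun p hp => ?_).trans ?_
    · simp only [mem_insert] at hp
      rcases hp with rfl | rfl | hp
      exacts [Nat.prime_three, Nat.prime_five, Nat.prime_of_mem_primeFactors hp]
    · rw [prod_insert (by simp [h6]), prod_insert (by simp [h7]),
        prod_congr rfl fun p hp => if_pos (Nat.dvd_of_mem_primeFactors hp)]
      simp [h6, h7]
      ring
  · refine mem_coe.2 (mem_subtype.2 (by_contra fun e => hp ?_))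
    simp only [mem_insert, Nat.mem_primeFactors, p.2, true_and, hn.ne_zero, not_or, ne_eq,
      not_false_iff, and_true] at e
    simp [e]

theorem central_tw (h : BSD15.No4 n) : ∃ L, IsL (tw n) L ∧ ∃ v : ℤ, Odd v ∧
    L 1 = (2 ^ (n.primeFactors.card - 1) * v) ^ 2 * period (tw n) := by
  have hB : BSD15.B5 n := ⟨hn, h4, h3, h5⟩
  obtain ⟨v, hv, hl⟩ := BSD15.lam_sharp hB h
  obtain ⟨τ, hτ, hG⟩ := BSD15.exists_gauss (n := n) (by omega) (Nat.odd_iff.2 (by omega)) hn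
  obtain ⟨L, h1, h2, h6⟩ := Mod.exists_L (χ := Mod.chi n) hτ (Mod.norm_chi _) hG
  refine ⟨L, isL_tw h4 h3 h5 h1 h2, v, hv, ?_⟩
  have h7 := hG 1
  simp only [Nat.cast_one, mul_one, jacobiSym.one_left, Int.cast_one, one_mul,
    gauss_sum hn h4 h3] at h7
  rw [BSD15.euler_sum (by omega) hB.adm, if_neg (by omega), BSD15.euler_msB, hl, om_eq, ← h7] at h6
  have h8 : ((√n : ℝ) : ℂ) ≠ 0 := by
    exact_mod_cast (Real.sqrt_pos.2 (by exact_mod_cast (show 0 < n by omega))).ne'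
  rw [period_tw h4]
  push_cast at h6 ⊢
  field_simp
  exact mul_left_cancel₀ Complex.I_ne_zero (by linear_combination h6)

end

end Pool.Agent.P.MP_9c97e9_nt
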