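import Pool.Agent.P.MP_9c97e9_nt.Final
import Pool.Agent.P.MP_8b7eba_nt.Dens.Final
import Pool.Agent.P.MP_8b7eba_nt.Dens.RedNo4

/-! The 2-part of the formula under the elementary Redei condition. -/

namespace Pool.Agent.P.MP_9c97e9_nt

open Pool.Agent.P.MP_8b7eba_nt

theorem two_part {n : ℕ} (hn : Squarefree n) (h4 : n % 4 = 3) (h3 : n % 3 = 2)
    (h5 : n % 5 = 2 ∨ n % 5 = 3) (hL : Desc.RedeiL n) :
    (∀ (p : ℕ) [Fact p.Prime], ((tw n).baseChange ℚ_[p]).IsMinimal ℤ_[p]) ∧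
    Finite (Pt (tw n) ℚ) ∧
    (∀ (k : ℕ) (x : Sha (tw n)), 2 ^ k • x = 0 → x = 0) ∧
    ∃ L : ℂ → ℂ, IsL (tw n) L ∧ L 1 ≠ 0 ∧ ∃ m : ℕ, Odd m ∧
      L 1 = (m : ℂ) ^ 2 * (period (tw n) : ℂ) * ((∏ᶠ p, tamagawa (tw n) p : ℕ) : ℂ) /
        (Nat.card (Pt (tw n) ℚ) : ℂ) ^ 2 := by
  have hf := finite_tw hn h4 h3 h5 hL
  obtain ⟨t, ht, hc⟩ := card_tw h4
  obtain ⟨L, h1, v, hv, h2⟩ := central_tw hn h4 h3 h5 (Dens.no4_of_redeiL hL)
  refine ⟨tw_minimal hn h4 h3 h5, hf, sha_tw hn h4 h3 h5 hL, L, h1, ?_, v.natAbs * t,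
    (Int.natAbs_odd.2 hv).mul ht, ?_⟩
  · have h8 : (0 : ℝ) < period (tw n) := by
      have h9 : (0 : ℝ) < n := by exact_mod_cast (show 0 < n by omega)
      have := per_II
      have := Real.pi_pos
      rw [period_tw h4]
      exact div_pos (by linarith) (Real.sqrt_pos.2 h9)
    have h10 : v ≠ 0 := by rintro rfl; simp at hv
    rw [h2]
    exact mul_ne_zero (pow_ne_zero _ (mul_ne_zero (by simp) (by exact_mod_cast h10)))
      (by exact_mod_cast h8.ne')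
  obtain ⟨r, hr⟩ : ∃ r, n.primeFactors.card = r + 1 := Nat.exists_eq_succ_of_ne_zero
    (Finset.card_pos.2 (Nat.nonempty_primeFactors.2 (by omega))).ne'
  have h6 : (t : ℂ) ≠ 0 := by exact_mod_cast ht.pos.ne'
  have h7 : ((v.natAbs : ℕ) : ℂ) ^ 2 = v ^ 2 := by
    rw [Nat.cast_natAbs, ← Int.cast_pow, sq_abs, Int.cast_pow]
  rw [h2, hc, prod_tamagawa hn h4 h3 h5, hr, Nat.add_sub_cancel, Nat.cast_mul, mul_pow, mul_pow, h7,
    ← pow_mul, mul_comm r 2, pow_mul]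
  push_cast
  field_simp
  ring

end Pool.Agent.P.MP_9c97e9_nt
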